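import Pool.Agent.Work.MP_9f8812_co.RD.CW2

/-!
# A light functional from the quotients of rank five

For every set of rank five without `M(K5)` and all weights, some functional has weight at most
`3/7` of the total weight: linear programming certificates.
-/

set_option autoImplicit false

namespace Pool.Agent.Work.MP_9f8812_co.EC.Av

open Pool.Agent.WW
open Pool.Agent.Work.MP_9f8812_co.RD.ICW (mul pts sum_mul)

/-- the certificate is correct -/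
def chk (M q : ℕ) (l : List (ℕ × ℕ)) : Bool :=
  (l.all fun p => decide (p.1 < 32 ∧ p.1 ≠ 0)) && ((pts M).all fun x => decide (mul l x ≤ q)) &&
    decide (0 < q) && decide (7 * q ≤ 3 * (l.map fun p => p.2).sum)

/-- the certificates -/
def certs : List (ℕ × ℕ × List (ℕ × ℕ)) := [
  (65814, 1, [(1, 1), (2, 1), (4, 1), (8, 1), (16, 1)]),
  (2147549462, 1, [(6, 1), (9, 1), (16, 1)]),
  (98582, 2, [(3, 1), (5, 1), (6, 1), (8, 2), (16, 2)]),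
  (65942, 1, [(3, 1), (4, 1), (8, 1), (16, 1)]),
  (65822, 2, [(1, 1), (2, 1), (3, 1), (4, 2), (8, 2), (16, 2)]),
  (69918, 2, [(1, 1), (2, 1), (3, 1), (4, 1), (8, 1), (12, 1), (16, 2)]),
  (134283670, 2, [(3, 2), (4, 2), (8, 1), (16, 1), (24, 1)]),
  (16843158, 2, [(3, 2), (4, 2), (8, 1), (16, 1), (24, 1)]),
  (67990, 1, [(3, 1), (4, 1), (8, 1), (16, 1)]),
  (65950, 2, [(2, 1), (3, 1), (4, 1), (5, 1), (8, 2), (16, 2)]),
  (66454, 2, [(3, 1), (4, 1), (6, 1), (8, 1), (9, 1), (16, 2)]),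
  (2147549590, 1, [(6, 1), (9, 1), (16, 1)]),
  (2147549470, 2, [(3, 1), (6, 1), (9, 1), (12, 1), (16, 2)]),
  (65982, 2, [(2, 1), (3, 1), (4, 1), (5, 1), (8, 2), (16, 2)]),
  (2165142, 1, [(7, 1), (8, 1), (16, 1)]),
  (16843670, 2, [(3, 1), (4, 1), (6, 1), (9, 1), (16, 1), (24, 1)]),
  (200990, 2, [(2, 1), (3, 1), (4, 1), (8, 1), (12, 1), (16, 1), (17, 1)]),
  (2167070, 2, [(2, 1), (7, 1), (8, 1), (13, 1), (16, 2)]),
  (67998, 1, [(3, 1), (4, 1), (8, 1), (16, 1)]),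
  (134283678, 2, [(3, 2), (4, 2), (8, 1), (16, 1), (24, 1)]),
  (68022, 2, [(3, 1), (4, 1), (7, 1), (8, 2), (16, 2)]),
  (134284182, 2, [(3, 1), (4, 1), (10, 1), (13, 1), (16, 2)]),
  (134285718, 2, [(3, 2), (4, 2), (8, 1), (16, 1), (24, 1)]),
  (69950, 2, [(2, 1), (3, 1), (5, 1), (8, 1), (12, 1), (16, 2)]),
  (134283702, 2, [(3, 1), (4, 1), (10, 1), (13, 1), (16, 2)]),
  (134291862, 2, [(3, 1), (4, 1), (9, 1), (14, 1), (16, 2)]),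
  (76182, 3, [(2, 1), (3, 1), (4, 1), (5, 1), (8, 1), (9, 1), (14, 1), (16, 3)]),
  (592278, 1, [(3, 1), (4, 1), (8, 1), (16, 1)]),
  (92566, 1, [(7, 1), (8, 1), (16, 1)]),
  (136389014, 2, [(7, 1), (10, 1), (13, 1), (16, 2)]),
  (68534, 2, [(2, 1), (3, 1), (4, 1), (8, 1), (13, 1), (16, 2)]),
  (134308246, 4, [(3, 1), (4, 1), (7, 1), (9, 1), (10, 1), (13, 1), (14, 1), (16, 4)]),
  (134291870, 2, [(3, 1), (4, 1), (9, 1), (14, 1), (16, 2)]),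
  (536938910, 4, [(2, 1), (5, 1), (7, 1), (9, 1), (11, 1), (12, 1), (14, 1), (16, 4)]),
  (69275934, 2, [(1, 1), (2, 1), (4, 1), (8, 1), (19, 1), (28, 1)]),
  (592286, 1, [(3, 1), (4, 1), (8, 1), (16, 1)]),
  (76190, 4, [(2, 1), (3, 1), (4, 1), (5, 1), (7, 1), (8, 2), (9, 1), (14, 1), (16, 4)]),
  (4395294, 2, [(1, 1), (6, 1), (8, 1), (12, 1), (16, 1), (19, 1)]),
  (66046, 4, [(1, 1), (2, 1), (3, 1), (4, 1), (5, 1), (6, 1), (7, 1), (8, 4), (16, 4)]),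
  (134293910, 2, [(3, 1), (4, 1), (9, 1), (14, 1), (16, 2)]),
  (2165206, 2, [(2, 1), (7, 1), (8, 1), (13, 1), (16, 2)]),
  (35719574, 1, [(2, 1), (13, 1), (16, 1)]),
  (2167102, 2, [(2, 1), (7, 1), (8, 1), (12, 1), (16, 1), (17, 1)]),
  (16845718, 2, [(3, 1), (4, 1), (6, 1), (9, 1), (16, 1), (24, 1)]),
  (66494, 2, [(2, 1), (4, 1), (5, 1), (8, 1), (11, 1), (16, 2)]),
  (82366, 2, [(1, 1), (6, 1), (7, 1), (8, 2), (16, 2)]),
  (18942358, 4, [(2, 1), (3, 1), (4, 1), (5, 1), (7, 1), (8, 2), (16, 2), (25, 1), (30, 1)]),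
  (2165654, 2, [(2, 1), (7, 1), (8, 1), (13, 1), (16, 2)]),
  (16843198, 2, [(2, 1), (3, 1), (4, 1), (5, 1), (8, 1), (16, 1), (24, 1)]),
  (2173334, 1, [(7, 1), (8, 1), (16, 1)]),
  (1073807806, 2, [(1, 1), (6, 1), (7, 1), (8, 1), (16, 1), (24, 1)]),
  (201022, 2, [(2, 2), (4, 1), (8, 1), (12, 1), (16, 2)]),
  (2165150, 2, [(5, 1), (7, 1), (8, 1), (10, 1), (16, 2)]),
  (33620414, 2, [(2, 1), (4, 1), (11, 1), (13, 1), (16, 2)]),
  (592310, 2, [(3, 1), (4, 1), (7, 1), (8, 2), (16, 2)]),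
  (17105814, 2, [(3, 1), (4, 2), (8, 1), (16, 1), (27, 1)]),
  (16843678, 2, [(3, 1), (4, 1), (6, 1), (9, 1), (16, 1), (24, 1)]),
  (17105846, 2, [(2, 1), (4, 1), (5, 1), (8, 1), (16, 1), (27, 1)]),
  (4276670, 2, [(1, 1), (6, 1), (7, 1), (8, 2), (16, 2)]),
  (2183203222, 2, [(6, 1), (10, 1), (13, 1), (16, 1), (17, 1)]),
  (35719582, 2, [(2, 1), (4, 1), (8, 1), (13, 1), (16, 1), (19, 1)]),
  (35719638, 6, [(2, 3), (6, 1), (7, 1), (8, 1), (9, 1), (13, 3), (16, 4), (17, 1), (30, 1)]),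
  (134424982, 4, [(2, 1), (3, 1), (4, 1), (8, 1), (9, 1), (14, 2), (16, 2), (17, 1), (21, 1)]),
  (2165214, 2, [(5, 1), (7, 1), (8, 1), (10, 1), (16, 2)]),
  (33620478, 2, [(2, 1), (4, 1), (6, 1), (8, 1), (16, 1), (24, 1)]),
  (71504158, 2, [(1, 1), (4, 1), (8, 1), (14, 1), (16, 1), (19, 1)]),
  (1117110, 2, [(2, 1), (3, 1), (8, 1), (13, 1), (16, 1), (20, 1)]),
  (2173342, 2, [(5, 1), (7, 1), (8, 1), (10, 1), (16, 2)]),
  (4262838, 2, [(6, 1), (7, 1), (8, 1), (9, 1), (16, 2)]),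
  (536947102, 4, [(2, 1), (4, 1), (5, 1), (8, 1), (9, 1), (12, 1), (14, 1), (16, 2), (19, 2)]),
  (101302, 4, [(2, 1), (3, 1), (4, 1), (5, 1), (6, 1), (8, 1), (9, 1), (10, 1), (13, 1), (16, 4)]),
  (592822, 2, [(4, 1), (7, 1), (8, 1), (11, 1), (16, 2)]),
  (138486174, 4, [(3, 1), (4, 1), (7, 1), (8, 2), (9, 1), (14, 1), (16, 2), (18, 1), (21, 1)]),
  (68598, 4, [(2, 1), (3, 1), (4, 1), (6, 1), (7, 1), (8, 2), (9, 1), (13, 1), (16, 4)]),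
  (35727766, 1, [(2, 1), (13, 1), (16, 1)]),
  (68542, 2, [(2, 1), (3, 1), (4, 1), (8, 1), (13, 1), (16, 2)]),
  (136391062, 2, [(7, 1), (8, 1), (14, 1), (16, 1), (17, 1)]),
  (4657438, 2, [(1, 1), (6, 1), (8, 1), (12, 1), (16, 1), (19, 1)]),
  (136389046, 2, [(7, 1), (8, 1), (14, 1), (16, 1), (17, 1)]),
  (616854, 1, [(7, 1), (8, 1), (16, 1)]),
  (199606, 2, [(2, 1), (4, 1), (8, 1), (13, 1), (16, 1), (19, 1)]),
  (1210130838, 2, [(7, 1), (10, 1), (13, 1), (16, 2)]),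
  (92574, 2, [(6, 1), (7, 1), (8, 1), (9, 1), (16, 2)]),
  (136389022, 2, [(7, 1), (10, 1), (13, 1), (16, 2)]),
  (8455102, 2, [(4, 1), (5, 1), (8, 1), (11, 1), (16, 1), (18, 1)]),
  (16976790, 2, [(3, 1), (4, 1), (6, 1), (8, 1), (16, 1), (25, 1)]),
  (134816158, 4, [(3, 1), (4, 1), (7, 1), (8, 2), (9, 1), (14, 1), (16, 2), (18, 1), (21, 1)]),
  (134308254, 4, [(3, 1), (4, 1), (7, 1), (9, 1), (10, 1), (13, 1), (14, 1), (16, 4)]),
  (223638, 4, [(2, 1), (4, 1), (6, 1), (8, 1), (10, 1), (12, 1), (14, 1), (16, 4)]),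
  (134291934, 2, [(3, 1), (4, 1), (9, 1), (14, 1), (16, 2)]),
  (592318, 2, [(3, 1), (4, 1), (7, 1), (8, 2), (16, 2)]),
  (2147552182, 2, [(5, 1), (6, 1), (9, 1), (10, 1), (16, 2)]),
  (66558, 2, [(2, 1), (4, 1), (6, 1), (8, 2), (16, 2)]),
  (134291902, 4, [(3, 1), (4, 1), (7, 1), (9, 1), (10, 1), (13, 1), (14, 1), (16, 4)]),
  (134293918, 2, [(3, 1), (4, 1), (9, 1), (14, 1), (16, 2)]),
  (2216759582, 2, [(5, 1), (10, 1), (15, 1), (16, 2)]),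
  (2167166, 2, [(2, 1), (3, 1), (8, 2), (16, 1), (17, 1)]),
  (134422942, 4, [(2, 1), (3, 1), (4, 2), (8, 1), (9, 1), (14, 1), (16, 2), (21, 1), (27, 1)]),
  (69275966, 4, [(1, 1), (2, 1), (4, 1), (5, 1), (8, 1), (10, 1), (15, 1), (16, 2), (19, 1), (28, 1)]),
  (16843262, 4, [(1, 1), (2, 1), (3, 1), (4, 1), (5, 1), (6, 1), (7, 1), (8, 2), (16, 2), (24, 2)]),
  (69407006, 2, [(1, 1), (2, 1), (4, 1), (8, 1), (19, 1), (28, 1)]),
  (4919582, 2, [(1, 1), (4, 1), (8, 1), (12, 1), (18, 1), (19, 1)]),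
  (600478, 1, [(7, 1), (8, 1), (16, 1)]),
  (616862, 1, [(7, 1), (8, 1), (16, 1)]),
  (1210130870, 2, [(7, 1), (10, 1), (13, 1), (16, 2)]),
  (136389054, 2, [(7, 1), (8, 1), (14, 1), (16, 1), (17, 1)]),
  (33623030, 2, [(2, 1), (6, 1), (9, 1), (13, 1), (16, 2)]),
  (4295606, 2, [(6, 1), (7, 1), (8, 1), (9, 1), (16, 2)]),
  (4263862, 4, [(1, 1), (6, 1), (7, 1), (8, 1), (9, 1), (14, 1), (15, 1), (16, 4)]),
  (1149878, 2, [(2, 1), (3, 1), (8, 1), (9, 1), (16, 2)]),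
  (1118134, 4, [(2, 1), (3, 1), (5, 1), (8, 1), (10, 1), (11, 1), (13, 1), (16, 2), (20, 2)]),
  (35744150, 1, [(2, 1), (13, 1), (16, 1)]),
  (71766302, 2, [(1, 1), (4, 1), (8, 1), (14, 1), (16, 1), (19, 1)]),
  (1210132886, 2, [(7, 1), (8, 1), (13, 1), (16, 1), (18, 1)]),
  (68225974, 6, [(1, 1), (2, 1), (3, 1), (4, 2), (5, 1), (8, 1), (10, 2), (11, 1), (16, 3), (22, 1), (29, 2)]),
  (1117118, 2, [(2, 1), (3, 1), (8, 1), (13, 1), (16, 1), (20, 1)]),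
  (71504222, 2, [(1, 1), (4, 1), (8, 1), (14, 1), (16, 1), (19, 1)]),
  (537471390, 2, [(7, 1), (8, 1), (14, 1), (16, 1), (17, 1)]),
  (134426006, 4, [(2, 1), (3, 1), (4, 1), (8, 1), (9, 1), (14, 2), (16, 2), (17, 1), (21, 1)]),
  (2183203230, 2, [(6, 1), (8, 1), (9, 1), (19, 1), (20, 1)]),
  (536963486, 4, [(2, 1), (5, 1), (7, 1), (9, 1), (11, 1), (12, 1), (14, 1), (16, 4)]),
  (21053886, 2, [(1, 1), (6, 1), (7, 1), (8, 1), (16, 1), (24, 1)]),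
  (101310, 6, [(2, 1), (3, 2), (4, 2), (5, 1), (6, 1), (8, 2), (9, 1), (10, 1), (13, 1), (15, 1), (16, 6)]),
  (71512350, 2, [(5, 1), (8, 1), (14, 1), (16, 1), (19, 1)]),
  (17122230, 4, [(1, 1), (2, 1), (4, 1), (5, 1), (6, 1), (8, 1), (13, 1), (16, 2), (26, 1), (27, 1)]),
  (68606, 4, [(2, 1), (3, 1), (4, 1), (6, 1), (7, 1), (8, 2), (9, 1), (13, 1), (16, 4)]),
  (35719646, 6, [(2, 1), (4, 2), (6, 1), (7, 1), (8, 3), (9, 1), (13, 1), (16, 2), (17, 1), (19, 2), (30, 1)]),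
  (52496854, 2, [(2, 1), (7, 1), (13, 1), (16, 1), (24, 1)]),
  (2173854, 2, [(2, 1), (7, 1), (8, 1), (13, 1), (16, 2)]),
  (37831102, 2, [(6, 1), (9, 1), (15, 1), (16, 2)]),
  (35850654, 2, [(2, 1), (4, 1), (8, 1), (13, 1), (16, 1), (19, 1)]),
  (35720662, 2, [(2, 1), (13, 1), (15, 1), (16, 2)]),
  (35720150, 6, [(2, 2), (4, 1), (6, 1), (7, 1), (8, 2), (9, 1), (13, 2), (16, 3), (17, 1), (19, 1), (30, 1)]),
  (592830, 2, [(3, 1), (4, 1), (8, 1), (13, 1), (16, 1), (18, 1)]),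
  (17105910, 4, [(1, 1), (2, 1), (4, 1), (5, 1), (6, 1), (8, 2), (16, 2), (27, 1), (31, 1)]),
  (17107894, 4, [(2, 1), (3, 1), (4, 2), (5, 1), (8, 1), (13, 1), (16, 2), (26, 1), (27, 1)]),
  (4276734, 2, [(1, 1), (6, 1), (7, 1), (8, 2), (16, 2)]),
  (17105854, 2, [(2, 1), (4, 1), (5, 1), (8, 1), (16, 1), (27, 1)]),
  (36243870, 1, [(4, 1), (8, 1), (19, 1)]),
  (2165246, 2, [(4, 1), (7, 1), (8, 2), (16, 1), (19, 1)]),
  (102828502, 2, [(4, 1), (8, 1), (15, 1), (16, 1), (19, 1)]),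
  (134424990, 4, [(2, 1), (3, 1), (4, 2), (8, 1), (9, 1), (14, 1), (16, 2), (21, 1), (27, 1)]),
  (2218987806, 2, [(4, 1), (8, 1), (15, 1), (17, 1), (18, 1)]),
  (134425014, 4, [(2, 1), (3, 1), (4, 1), (8, 1), (9, 1), (10, 1), (14, 1), (16, 2), (21, 2)]),
  (134441366, 2, [(7, 1), (8, 1), (14, 1), (16, 1), (17, 1)]),
  (19073942, 6, [(2, 2), (3, 1), (4, 2), (5, 1), (6, 1), (8, 2), (13, 1), (16, 2), (19, 1), (25, 2), (30, 1)]),
  (2165726, 2, [(2, 1), (7, 1), (8, 1), (13, 1), (16, 2)]),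
  (136522134, 2, [(7, 1), (8, 1), (14, 1), (16, 1), (17, 1)]),
  (4277182, 2, [(6, 1), (7, 1), (8, 1), (9, 1), (16, 2)]),
  (2296286, 2, [(4, 1), (7, 1), (8, 2), (16, 1), (19, 1)]),
  (2189726, 2, [(2, 1), (7, 1), (8, 1), (13, 1), (16, 2)]),
  (35727774, 6, [(2, 3), (4, 1), (7, 1), (8, 1), (11, 1), (13, 3), (16, 4), (19, 1), (28, 1)]),
  (2689502, 2, [(4, 1), (7, 1), (8, 2), (16, 1), (19, 1)]),
  (69622, 2, [(5, 1), (6, 1), (9, 1), (10, 1), (16, 2)]),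
  (136391070, 2, [(7, 1), (8, 1), (14, 1), (16, 1), (17, 1)]),
  (4266934, 4, [(1, 1), (6, 1), (7, 1), (8, 1), (9, 1), (14, 1), (15, 1), (16, 4)]),
  (33620990, 2, [(2, 1), (4, 1), (6, 1), (8, 1), (16, 1), (24, 1)]),
  (155263390, 2, [(1, 1), (7, 1), (14, 1), (16, 1), (24, 1)]),
  (18942430, 4, [(2, 1), (3, 1), (4, 1), (5, 1), (7, 1), (8, 2), (16, 2), (25, 1), (30, 1)]),
  (33621502, 4, [(2, 1), (4, 1), (6, 1), (9, 1), (11, 1), (13, 1), (15, 1), (16, 4)]),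
  (17105918, 4, [(1, 1), (2, 1), (4, 1), (5, 1), (6, 1), (8, 2), (16, 2), (27, 1), (31, 1)]),
  (1210132894, 2, [(7, 1), (8, 1), (13, 1), (16, 1), (18, 1)]),
  (17895350, 6, [(1, 1), (2, 2), (3, 1), (4, 2), (5, 1), (8, 1), (10, 1), (11, 1), (16, 3), (29, 2), (30, 1)]),
  (1150902, 4, [(2, 1), (3, 1), (5, 1), (8, 1), (9, 1), (10, 1), (11, 1), (16, 3), (20, 1)]),
  (105058654, 6, [(1, 2), (2, 1), (4, 2), (6, 1), (8, 2), (14, 1), (15, 1), (16, 1), (17, 1), (19, 2), (24, 1), (28, 1)]),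
  (84231094, 2, [(1, 1), (6, 1), (13, 1), (18, 1), (24, 1)]),
  (52505046, 2, [(2, 1), (7, 1), (13, 1), (16, 1), (24, 1)]),
  (1280950, 4, [(2, 1), (3, 1), (4, 1), (6, 1), (8, 1), (9, 1), (10, 1), (16, 2), (21, 1), (29, 1)]),
  (1379262, 4, [(2, 1), (3, 1), (4, 1), (8, 2), (9, 1), (13, 1), (16, 2), (22, 1), (23, 1)]),
  (1117182, 2, [(2, 1), (3, 1), (8, 1), (9, 1), (16, 2)]),
  (21041078, 2, [(5, 1), (6, 1), (9, 1), (16, 1), (26, 1)]),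
  (4426678, 6, [(2, 1), (4, 1), (6, 2), (7, 1), (8, 2), (9, 2), (10, 1), (16, 3), (19, 1), (21, 1), (29, 1)]),
  (673259966, 2, [(7, 1), (8, 1), (14, 1), (16, 1), (17, 1)]),
  (4263870, 4, [(1, 1), (6, 1), (7, 1), (8, 1), (9, 1), (14, 1), (15, 1), (16, 4)]),
  (35744158, 6, [(2, 3), (4, 1), (7, 1), (8, 1), (11, 1), (13, 3), (16, 4), (19, 1), (28, 1)]),
  (4296630, 4, [(1, 1), (6, 1), (7, 1), (8, 1), (9, 1), (14, 1), (15, 1), (16, 4)]),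
  (34671606, 6, [(2, 2), (3, 1), (4, 1), (6, 1), (8, 2), (9, 2), (13, 1), (16, 3), (21, 1), (23, 1), (30, 1)]),
  (136389118, 4, [(4, 1), (5, 1), (7, 1), (8, 1), (10, 1), (14, 1), (16, 2), (17, 1), (27, 1)]),
  (747934, 2, [(7, 1), (8, 1), (14, 1), (16, 1), (17, 1)]),
  (1210149270, 2, [(7, 1), (8, 1), (13, 1), (16, 1), (18, 1)]),
  (2190238, 2, [(2, 1), (7, 1), (8, 1), (13, 1), (16, 2)]),
  (33627126, 2, [(2, 1), (6, 1), (9, 1), (13, 1), (16, 2)]),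
  (1210130878, 2, [(7, 1), (10, 1), (13, 1), (16, 2)]),
  (153166270, 4, [(2, 1), (4, 1), (5, 1), (7, 1), (8, 1), (14, 1), (16, 1), (17, 1), (24, 1), (27, 1)]),
  (33754102, 4, [(2, 1), (4, 1), (6, 1), (8, 2), (9, 1), (13, 1), (16, 2), (19, 1), (23, 1)]),
  (1094795710, 2, [(1, 1), (6, 1), (7, 1), (8, 1), (16, 1), (24, 1)]),
  (2714014, 1, [(7, 1), (8, 1), (16, 1)]),
  (33623038, 4, [(2, 1), (4, 1), (6, 1), (8, 2), (9, 1), (13, 1), (16, 2), (19, 1), (23, 1)]),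
  (4295670, 2, [(6, 1), (7, 1), (8, 1), (9, 1), (16, 2)]),
  (136389566, 2, [(7, 1), (8, 1), (9, 1), (16, 1), (22, 1)]),
  (136391102, 2, [(7, 1), (8, 1), (14, 1), (16, 1), (17, 1)]),
  (68357046, 8, [(1, 1), (2, 2), (3, 1), (4, 3), (5, 1), (8, 2), (10, 2), (11, 1), (16, 3), (19, 1), (22, 1), (29, 3)]),
  (1141967798, 2, [(5, 1), (10, 1), (11, 1), (16, 1), (20, 1)]),
  (616894, 2, [(4, 1), (7, 1), (8, 1), (11, 1), (16, 2)]),
  (1642422, 4, [(2, 1), (3, 1), (4, 2), (8, 1), (10, 1), (11, 1), (16, 2), (21, 1), (29, 1)]),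
  (33624054, 4, [(2, 1), (4, 1), (6, 1), (9, 1), (11, 1), (13, 1), (15, 1), (16, 4)]),
  (34147318, 2, [(4, 1), (8, 1), (15, 1), (16, 1), (19, 1)]),
  (69630, 4, [(4, 1), (5, 1), (6, 1), (7, 1), (8, 1), (9, 1), (10, 1), (11, 1), (16, 4)]),
  (169943486, 2, [(2, 1), (4, 1), (13, 1), (16, 1), (27, 1)]),
  (1208167830, 2, [(2, 1), (10, 1), (13, 1), (16, 1), (21, 1)]),
  (4309950, 2, [(6, 1), (7, 1), (8, 1), (9, 1), (16, 2)]),
  (72552798, 4, [(1, 2), (2, 1), (4, 1), (8, 2), (14, 1), (16, 1), (19, 1), (23, 1), (28, 1)]),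
  (71766366, 2, [(1, 1), (4, 1), (8, 1), (14, 1), (16, 1), (19, 1)]),
  (36112798, 2, [(2, 1), (4, 1), (8, 1), (13, 1), (16, 1), (19, 1)]),
  (109502, 2, [(2, 1), (3, 1), (4, 1), (5, 1), (16, 2)]),
  (72290590, 2, [(1, 1), (4, 1), (8, 1), (12, 1), (18, 1), (19, 1)]),
  (1210263958, 2, [(7, 1), (8, 1), (10, 1), (16, 1), (21, 1)]),
  (35858846, 2, [(2, 1), (12, 1), (13, 1), (16, 1), (19, 1)]),
  (76614582, 2, [(5, 1), (10, 1), (11, 1), (16, 1), (20, 1)]),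
  (2183334302, 2, [(6, 1), (8, 1), (9, 1), (19, 1), (20, 1)]),
  (71404470, 2, [(1, 1), (14, 1), (15, 1), (16, 2)]),
  (34671550, 6, [(2, 2), (3, 1), (4, 2), (8, 2), (9, 1), (11, 1), (13, 1), (16, 3), (21, 1), (23, 1), (30, 1)]),
  (71506270, 2, [(1, 1), (4, 1), (8, 1), (14, 1), (16, 1), (19, 1)]),
  (304179606, 1, [(2, 1), (13, 1), (16, 1)]),
  (71512414, 2, [(5, 1), (8, 1), (14, 1), (16, 1), (19, 1)]),
  (36374942, 1, [(4, 1), (8, 1), (19, 1)]),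
  (539568542, 2, [(7, 1), (8, 1), (14, 1), (16, 1), (17, 1)]),
  (537094558, 2, [(7, 1), (8, 1), (14, 1), (16, 1), (17, 1)]),
  (68488118, 2, [(5, 1), (9, 1), (10, 1), (16, 1), (22, 1)]),
  (54608318, 2, [(6, 1), (7, 1), (9, 1), (16, 1), (24, 1)]),
  (199678, 2, [(4, 1), (6, 1), (8, 1), (10, 1), (16, 2)]),
  (1126238678, 2, [(2, 1), (7, 1), (13, 1), (16, 1), (24, 1)]),
  (345050038, 6, [(1, 2), (8, 1), (10, 1), (11, 1), (13, 2), (14, 1), (16, 2), (18, 1), (20, 1), (22, 1), (23, 1)]),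
  (36637086, 1, [(4, 1), (8, 1), (19, 1)]),
  (616958, 2, [(4, 1), (7, 1), (8, 1), (11, 1), (16, 2)]),
  (137438142, 2, [(7, 1), (8, 1), (9, 1), (16, 1), (22, 1)]),
  (6908318, 1, [(7, 1), (8, 1), (16, 1)]),
  (2714046, 1, [(7, 1), (8, 1), (16, 1)]),
  (3357747606, 2, [(5, 1), (10, 2), (16, 1), (21, 1)]),
  (1094796222, 2, [(6, 1), (7, 1), (9, 1), (16, 1), (24, 1)]),
  (17928118, 4, [(2, 1), (3, 1), (4, 1), (5, 1), (10, 1), (11, 1), (16, 2), (28, 1), (29, 1)]),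
  (1210133406, 2, [(7, 1), (8, 1), (13, 1), (16, 1), (18, 1)]),
  (1379326, 4, [(2, 1), (3, 1), (4, 1), (8, 2), (9, 1), (13, 1), (16, 2), (22, 1), (23, 1)]),
  (84231158, 2, [(1, 1), (6, 1), (13, 1), (18, 1), (24, 1)]),
  (1510334, 6, [(2, 2), (3, 1), (4, 2), (8, 3), (9, 1), (13, 1), (16, 2), (19, 1), (22, 1), (23, 1), (29, 1)]),
  (1642486, 2, [(7, 1), (8, 1), (11, 1), (16, 1), (20, 1)]),
  (1210130942, 2, [(7, 1), (10, 1), (13, 1), (16, 2)]),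
  (286330806, 2, [(1, 1), (2, 1), (14, 1), (16, 1), (29, 1)]),
  (50660350, 4, [(2, 1), (4, 1), (5, 1), (6, 1), (8, 1), (9, 1), (16, 1), (23, 1), (24, 1), (27, 1)]),
  (1210131390, 2, [(7, 1), (10, 1), (13, 1), (16, 2)]),
  (105066846, 2, [(4, 1), (9, 1), (14, 1), (16, 1), (19, 1)]),
  (1210132958, 2, [(7, 1), (8, 1), (13, 1), (16, 1), (18, 1)]),
  (1210132926, 2, [(7, 1), (8, 1), (13, 1), (16, 1), (18, 1)]),
  (17895414, 2, [(1, 1), (6, 1), (10, 1), (16, 1), (29, 1)]),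
  (17899446, 6, [(1, 1), (2, 2), (3, 1), (4, 2), (5, 1), (8, 1), (10, 1), (11, 1), (16, 3), (29, 2), (30, 1)]),
  (17106942, 4, [(1, 1), (2, 1), (4, 1), (5, 1), (6, 1), (8, 2), (16, 2), (27, 1), (31, 1)]),
  (151323646, 4, [(1, 1), (4, 1), (6, 1), (7, 1), (8, 1), (13, 1), (16, 1), (18, 1), (24, 1), (27, 1)]),
  (21049270, 2, [(5, 1), (6, 1), (9, 1), (16, 1), (26, 1)]),
  (4688822, 2, [(4, 1), (8, 1), (15, 1), (16, 1), (19, 1)]),
  (125886, 2, [(6, 1), (7, 1), (8, 1), (9, 1), (16, 2)]),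
  (71535542, 2, [(4, 1), (8, 1), (15, 1), (16, 1), (19, 1)]),
  (1118206, 4, [(1, 1), (2, 1), (3, 1), (8, 1), (9, 1), (10, 1), (11, 1), (16, 4)]),
  (4296694, 4, [(1, 1), (6, 1), (7, 1), (8, 1), (9, 1), (14, 1), (15, 1), (16, 4)]),
  (1094795774, 2, [(1, 1), (6, 1), (7, 1), (8, 1), (16, 1), (24, 1)]),
  (105320798, 8, [(1, 3), (2, 1), (4, 3), (6, 1), (8, 3), (14, 1), (15, 1), (16, 1), (17, 1), (19, 3), (24, 1), (28, 1), (30, 1)]),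
  (17107966, 4, [(1, 1), (4, 1), (6, 1), (7, 1), (8, 1), (13, 1), (16, 2), (26, 1), (27, 1)]),
  (4300726, 4, [(1, 1), (6, 1), (7, 1), (8, 1), (9, 1), (14, 1), (15, 1), (16, 4)]),
  (571542518, 2, [(2, 1), (9, 1), (14, 1), (16, 1), (21, 1)]),
  (747966, 2, [(7, 1), (8, 1), (14, 1), (16, 1), (17, 1)]),
  (12815286, 2, [(6, 1), (8, 1), (9, 1), (16, 1), (23, 1)]),
  (2190270, 2, [(2, 1), (7, 1), (8, 1), (13, 1), (16, 2)]),
  (256958, 4, [(2, 1), (4, 1), (6, 1), (8, 1), (10, 1), (12, 1), (14, 1), (16, 4)]),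
  (71797686, 2, [(4, 1), (8, 1), (15, 1), (16, 1), (19, 1)]),
  (36669854, 2, [(4, 1), (8, 1), (15, 1), (16, 1), (19, 1)]),
  (748030, 4, [(4, 1), (7, 1), (8, 1), (10, 1), (11, 1), (14, 1), (16, 2), (17, 1), (21, 1)]),
  (40831390, 1, [(4, 1), (8, 1), (19, 1)]),
  (84232182, 2, [(1, 1), (4, 1), (13, 1), (16, 1), (24, 1)]),
  (1210133438, 2, [(7, 1), (8, 1), (13, 1), (16, 1), (18, 1)]),
  (3357747638, 2, [(5, 1), (10, 2), (16, 1), (21, 1)]),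
  (1210149790, 2, [(7, 1), (8, 1), (13, 1), (16, 1), (18, 1)]),
  (6908350, 1, [(7, 1), (8, 1), (16, 1)]),
  (1094796286, 4, [(1, 1), (4, 1), (6, 1), (7, 1), (8, 1), (13, 1), (16, 1), (18, 1), (24, 1), (27, 1)]),
  (1094828990, 2, [(6, 1), (7, 1), (9, 1), (16, 1), (24, 1)]),
  (17928182, 2, [(1, 1), (6, 1), (10, 1), (16, 1), (29, 1)]),
  (17932214, 2, [(2, 1), (3, 1), (5, 1), (16, 1), (20, 1)]),
  (1210132990, 2, [(7, 1), (8, 1), (13, 1), (16, 1), (18, 1)]),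
  (1210166206, 2, [(7, 1), (10, 1), (13, 1), (16, 2)]),
  (107940254, 1, [(4, 1), (8, 1), (19, 1)]),
  (1010174, 2, [(7, 1), (8, 1), (12, 1), (16, 1), (19, 1)]),
  (573540766, 2, [(4, 1), (8, 1), (9, 1), (19, 1), (22, 1)]),
  (2219281334, 4, [(4, 1), (5, 1), (6, 1), (8, 1), (9, 1), (10, 1), (16, 1), (18, 1), (19, 1), (29, 1)]),
  (519102, 2, [(2, 1), (12, 1), (13, 1), (16, 1), (19, 1)]),
  (1210182590, 2, [(7, 1), (10, 1), (13, 1), (16, 2)])]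

theorem tab : ∀ M ∈ r5L, ∃ c ∈ certs, c.1 = M ∧ chk M c.2.1 c.2.2 = true := by
  decide +kernel

theorem sound {M q : ℕ} {l : List (ℕ × ℕ)} (h : chk M q l = true) (w : ℕ → ℕ) (k : ℕ)
    (hk : ∀ g < 32, g ≠ 0 → k ≤ ((pts M).map fun x => if parC (g &&& x) then w x else 0).sum) :
    7 * k ≤ 3 * ((pts M).map w).sum := by
  unfold chk at h
  rw [Bool.and_eq_true, Bool.and_eq_true, Bool.and_eq_true, List.all_eq_true,
    List.all_eq_true] at h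
  obtain ⟨⟨⟨hg, hx⟩, hq⟩, ht⟩ := h
  have hq := of_decide_eq_true hq
  have ht := of_decide_eq_true ht
  have hx : ∀ x ∈ pts M, mul l x ≤ q := fun x hx' => of_decide_eq_true (hx x hx')
  have e1 : k * (l.map fun p => p.2).sum ≤ ((pts M).map fun x => mul l x * w x).sum := by
    rw [sum_mul, ← List.sum_map_mul_left]
    refine List.sum_le_sum fun p hp => ?_
    have := of_decide_eq_true (hg p hp)
    rw [mul_comm]
    exact Nat.mul_le_mul_left _ (hk p.1 this.1 this.2)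
  have e2 : ((pts M).map fun x => mul l x * w x).sum ≤ q * ((pts M).map w).sum := by
    rw [← List.sum_map_mul_left]
    refine List.sum_le_sum fun x hx' => ?_
    exact Nat.mul_le_mul_right _ (hx x hx')
  have e3 : q * (7 * k) ≤ q * (3 * ((pts M).map w).sum) := by
    calc q * (7 * k) = k * (7 * q) := by ring
      _ ≤ k * (3 * (l.map fun p => p.2).sum) := Nat.mul_le_mul_left _ ht
      _ = 3 * (k * (l.map fun p => p.2).sum) := by ring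
      _ ≤ 3 * (q * ((pts M).map w).sum) := Nat.mul_le_mul_left _ (e1.trans e2)
      _ = q * (3 * ((pts M).map w).sum) := by ring
  exact Nat.le_of_mul_le_mul_left e3 hq

/-- some functional has weight at most `3/7` of the total weight -/
theorem weight (M : ℕ) (hM : M ∈ r5L) (w : ℕ → ℕ) (k : ℕ)
    (hk : ∀ g < 32, g ≠ 0 → k ≤ ((pts M).map fun x => if parC (g &&& x) then w x else 0).sum) :
    7 * k ≤ 3 * ((pts M).map w).sum := by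
  obtain ⟨c, _, rfl, h⟩ := tab M hM
  exact sound h w k hk

end Pool.Agent.Work.MP_9f8812_co.EC.Av
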