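import Pool.Agent.Work.MP_9f8812_co.EC.Av

/-!
# A light functional from the quotients of rank five: sets of any rank
-/

set_option autoImplicit false

namespace Pool.Agent.Work.MP_9f8812_co.EC

open Submodule Module
open Pool.Agent.WW
open Pool.Agent.Work.MP_9f8812_co

/-- a spanning set without `M(K5)` in rank `n ≥ 5` with `m` elements has a cocircuit with at most
`3 (m - n + 5) / 7` elements -/
theorem coratio (V : Type) [AddCommGroup V] [Module (ZMod 2) V] [FiniteDimensional (ZMod 2) V]
    (E : Finset V) (hn : 5 ≤ finrank (ZMod 2) V) (hs : span (ZMod 2) (E : Set V) = ⊤)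
    (hK : ¬ HasK5 (E : Set V))
    (k : ℕ) (h6 : ∀ f : V →ₗ[ZMod 2] ZMod 2, f ≠ 0 → k ≤ RD.supp E f) :
    7 * k + 3 * finrank (ZMod 2) V ≤ 3 * E.card + 15 := by
  classical
  -- a subspace of codimension five spanned by elements of `E`
  obtain ⟨C, K, hCE, hCK, hCc, hGen, hKd⟩ : ∃ (C : Finset V) (K : Submodule (ZMod 2) V), C ⊆ E ∧
      (∀ x ∈ C, x ∈ K) ∧ C.card = finrank (ZMod 2) V - 5 ∧ Gen (E : Set V) K ∧
      finrank (ZMod 2) K = finrank (ZMod 2) V - 5 := by
    obtain ⟨B, hBE, hBs, hBi⟩ := exists_linearIndependent (ZMod 2) (E : Set V)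
    have hBf : B.Finite := E.finite_toSet.subset hBE
    obtain ⟨B', rfl⟩ := hBf.exists_finset_coe
    have hBi' : LinearIndepOn (ZMod 2) id (B' : Set V) := hBi
    have hBc : B'.card = finrank (ZMod 2) V := by
      rw [← finrank_span_finset_eq_card hBi', hBs, hs, finrank_top]
    obtain ⟨C, hC, hCc⟩ := Finset.exists_subset_card_eq (s := B') (n := finrank (ZMod 2) V - 5)
      (by omega)
    have hCi : LinearIndepOn (ZMod 2) id (C : Set V) := hBi'.mono (by exact_mod_cast hC)
    refine ⟨C, span (ZMod 2) (C : Set V), fun x hx => by exact_mod_cast hBE (hC hx),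
      fun x hx => subset_span hx, hCc, ?_, ?_⟩
    · unfold Gen
      refine span_mono fun x hx => ⟨hBE (hC hx), subset_span hx⟩
    · rw [finrank_span_finset_eq_card hCi, hCc]
  set π := K.mkQ with hπ
  have hsurj : Function.Surjective π := K.mkQ_surjective
  have hker : LinearMap.ker π = K := K.ker_mkQ
  have hU : finrank (ZMod 2) (V ⧸ K) = 5 := by
    have := Submodule.finrank_quotient_add_finrank K
    omega
  set E' : Set (V ⧸ K) := {w | w ≠ 0 ∧ ∃ x ∈ (E : Set V), π x = w} with hE'
  have hs' : span (ZMod 2) E' = ⊤ := by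
    rw [eq_top_iff, ← LinearMap.range_eq_top.2 hsurj, LinearMap.range_eq_map, ← hs, map_span,
      span_le]
    rintro _ ⟨x, hx, rfl⟩
    by_cases h : π x = 0
    · rw [h]; exact zero_mem _
    · exact subset_span ⟨h, x, hx, rfl⟩
  have hK' : ¬ HasK5 E' := fun h =>
    hK (LG.pr_KQ V (V ⧸ K) π (E : Set V) hsurj (by rw [hker]; exact hGen) h)
  obtain ⟨M, hM, b, hb, hMb⟩ := claimR5 r5L r5_closed (V ⧸ K) E' hU (fun h => h.1 rfl) hs' hK'
  set w : ℕ → ℕ := fun n => (E.filter fun x => π x = comb b n).card with hw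
  have hlt : ∀ n ∈ RD.ICW.pts M, n < 32 ∧ M.testBit n = true := by
    intro n hn
    unfold RD.ICW.pts at hn
    rw [List.mem_filter, List.mem_range] at hn
    exact hn
  have hnd : (RD.ICW.pts M).Nodup := List.nodup_range.filter _
  have hsum : ∀ u : ℕ → ℕ, ((RD.ICW.pts M).map u).sum = ∑ n ∈ (RD.ICW.pts M).toFinset, u n := by
    intro u
    rw [List.sum_toFinset _ hnd]
  have hw6 : ∀ g < 32, g ≠ 0 →
      k ≤ ((RD.ICW.pts M).map fun x => if parC (g &&& x) then w x else 0).sum := by
    intro g hg hg0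
    obtain ⟨f, hf0, hf⟩ := RD.ICW.exists_par hU b hb g hg hg0
    have hfπ : f ∘ₗ π ≠ 0 := by
      intro h
      apply hf0
      ext y
      have := congrArg (fun φ : V →ₗ[ZMod 2] ZMod 2 => φ y) h
      simpa [hπ] using this
    refine (h6 _ hfπ).trans ?_
    unfold RD.supp
    have hsub : {x ∈ (E : Set V) | (f ∘ₗ π) x ≠ 0} ⊆
        (((RD.ICW.pts M).toFinset.filter (fun n => parC (g &&& n) = true)).biUnion
          (fun n => E.filter fun x => π x = comb b n) : Finset V) := by
      rintro x ⟨hx, hfx⟩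
      obtain ⟨n, hn, hxn⟩ := r5s_comb_surj hU hb (π x)
      rw [LinearMap.comp_apply, ← hxn, hf n hn] at hfx
      have hp : parC (g &&& n) = true := by
        by_contra hh
        rw [if_neg hh] at hfx
        exact hfx rfl
      have hne : π x ≠ 0 := by
        intro h0
        rw [h0] at hxn
        have := hf n hn
        rw [hxn, map_zero, if_pos hp] at this
        exact absurd this (by simp)
      have hnM : M.testBit n = true := (hMb n hn).2 (by
        rw [hxn]
        exact ⟨hne, x, hx, rfl⟩)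
      rw [Finset.mem_coe, Finset.mem_biUnion]
      refine ⟨n, Finset.mem_filter.2 ⟨?_, hp⟩, Finset.mem_filter.2 ⟨by exact_mod_cast hx, hxn.symm⟩⟩
      rw [List.mem_toFinset]
      unfold RD.ICW.pts
      rw [List.mem_filter, List.mem_range]
      exact ⟨hn, hnM⟩
    refine (Set.ncard_le_ncard hsub (Finset.finite_toSet _)).trans ?_
    rw [Set.ncard_coe_finset]
    refine Finset.card_biUnion_le.trans ?_
    rw [hsum, Finset.sum_filter]
  have h14 := Av.weight M hM w k hw6
  rw [hsum] at h14
  change 7 * k ≤ 3 * ∑ n ∈ (RD.ICW.pts M).toFinset, (E.filter fun x => π x = comb b n).card at h14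
  have hdis : (((RD.ICW.pts M).toFinset : Finset ℕ) : Set ℕ).PairwiseDisjoint
      (fun n => E.filter fun x => π x = comb b n) := by
    intro m hm n hn hmn
    rw [Function.onFun, Finset.disjoint_left]
    intro x hx hx'
    apply hmn
    have e1 := (Finset.mem_filter.1 hx).2
    have e2 := (Finset.mem_filter.1 hx').2
    rw [Finset.mem_coe, List.mem_toFinset] at hm hn
    exact r5s_comb_inj hb (by have := (hlt m hm).1; omega) (by have := (hlt n hn).1; omega)
      (e1.symm.trans e2)
  have hcard := Finset.card_biUnion hdis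
  have hfin : ((RD.ICW.pts M).toFinset.biUnion fun n => E.filter fun x => π x = comb b n) ⊆
      E \ C := by
    intro x hx
    rw [Finset.mem_biUnion] at hx
    obtain ⟨n, hn, hx⟩ := hx
    rw [List.mem_toFinset] at hn
    obtain ⟨hn1, hn2⟩ := hlt n hn
    obtain ⟨hxE, hxn⟩ := Finset.mem_filter.1 hx
    refine Finset.mem_sdiff.2 ⟨hxE, fun hxC => ?_⟩
    have h0 : π x = 0 := by
      rw [hπ, Submodule.mkQ_apply, Submodule.Quotient.mk_eq_zero]
      exact hCK x hxC
    exact ((hMb n hn1).1 hn2).1 (hxn ▸ h0)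
  have h2 := Finset.card_le_card hfin
  rw [hcard, Finset.card_sdiff_of_subset hCE, hCc] at h2
  have hCE' := Finset.card_le_card hCE
  rw [hCc] at hCE'
  omega

end Pool.Agent.Work.MP_9f8812_co.EC
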