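import Pool.Agent.Work.MP_9f8812_co.EC.Lq
import Pool.Agent.Work.MP_a8f287_co.C3.Main5

/-!
# Good sets of rank five with fifteen elements
-/

set_option autoImplicit false

namespace Pool.Agent.Work.MP_9f8812_co.EC

open Submodule Module
open Pool.Agent.WW

/-- witnesses that the masks with at least fifteen points other than the quadric are not
vertically 4-connected -/
def nv6 : List (ℕ × (ℕ × (ℕ × (ℕ × ℕ)))) := [
  (1210166206, (16, (5, (11, 16)))),
  (107940254, (4, (3, (4, 17)))),
  (1010174, (8, (3, (5, 8)))),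
  (573540766, (19, (1, (2, 16)))),
  (519102, (16, (1, (2, 16)))),
  (1210182590, (16, (5, (11, 16))))]

theorem nv6_ok : nv6.all nvChk = true := by decide +kernel

theorem t15 : (r5L.all fun M => decide (popM M ≤ 14) || M == 2219281334 ||
    (nv6.map Prod.fst).contains M) = true := by decide +kernel

/-- the change of coordinates -/
def h15 : List ℕ := [3, 13, 20, 24, 30]

theorem h15_ok : (h15.all fun c => decide (c < 32)) = true ∧
    ((List.range 32).all fun m => m == 0 || linC h15 m != 0) = true ∧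
    ((List.range 32).all fun m => qM.testBit m == (2219281334 : ℕ).testBit (linC h15 m)) = true := by
  decide +kernel

/-- automorphisms of the quadric which map `GQ13` into the complement of a given point -/
def gRows : List (ℕ × List ℕ) := [
  (7, [1, 2, 8, 16, 4]),
  (11, [1, 2, 4, 16, 8]),
  (13, [1, 4, 2, 16, 8]),
  (14, [1, 3, 5, 9, 17]),
  (15, [1, 2, 4, 8, 16]),
  (19, [1, 2, 4, 8, 16]),
  (21, [1, 4, 2, 8, 16]),
  (22, [1, 3, 5, 17, 9]),
  (23, [1, 2, 4, 16, 8]),
  (25, [1, 8, 2, 4, 16]),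
  (26, [1, 3, 9, 17, 5]),
  (27, [1, 2, 8, 16, 4]),
  (28, [1, 5, 9, 17, 3]),
  (29, [1, 4, 8, 16, 2]),
  (30, [2, 4, 8, 16, 1])]

/-- the check of a row -/
def gOk (r : ℕ × List ℕ) : Bool :=
  r.2.length == 5 && (r.2.all fun c => decide (c < 32)) &&
  ((List.range 32).all fun m => m == 0 || linC r.2 m != 0) &&
  (gq13.all fun m => qM.testBit (linC r.2 m) && linC r.2 m != r.1)

theorem gRows_ok : gRows.all gOk = true := by decide +kernel

theorem gRows_all : ((List.range 32).all fun o => !qM.testBit o ||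
    gRows.any fun r => r.1 == o) = true := by decide +kernel

/-- the basis with the given codes -/
def nb {V : Type} [AddCommGroup V] [Module (ZMod 2) V] (b : Fin 5 → V) (h : List ℕ) :
    Fin 5 → V := fun i => comb b (h.getD i 0)

theorem comb_nb {V : Type} [AddCommGroup V] [Module (ZMod 2) V] (b : Fin 5 → V) (h : List ℕ)
    (h5 : h.length = 5) (n : ℕ) : comb (nb b h) n = comb b (linC h n) := by
  match h, h5 with
  | [c0, c1, c2, c3, c4], _ =>
    rw [← bp_comb_linC]
    unfold comb
    refine Finset.sum_congr rfl fun i _ => ?_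
    congr 1
    unfold nb bpFam
    congr 1
    fin_cases i <;> rfl

theorem indep_nb {V : Type} [AddCommGroup V] [Module (ZMod 2) V] {b : Fin 5 → V}
    (hb : LinearIndependent (ZMod 2) b) (h : List ℕ) (h5 : h.length = 5)
    (h32 : ∀ c ∈ h, c < 32) (hi : IndepC h) : LinearIndependent (ZMod 2) (nb b h) := by
  rw [Fintype.linearIndependent_iff]
  intro c hc i
  obtain ⟨n, hn, hbit⟩ := bp_exists_code 5 c
  rw [← bp_comb_eq_sum (nb b h) c n hbit, comb_nb b h h5] at hc
  have h1 := r5s_comb_zero_imp hb _ (r5s_linC_lt (m := 5) h (fun c hc => h32 c hc) n) hc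
  have h2 : n = 0 := by
    by_contra h0
    exact hi n (by rw [h5]; exact hn) h0 h1
  have h3 := hbit i
  rw [h2, Nat.zero_testBit] at h3
  rcases tri_zmod (c i) with h4 | h4
  · exact h4
  · rw [h4] at h3
    simp at h3

/-- a good set of rank five with at least fifteen elements is the quadric -/
theorem base5 {V : Type} [AddCommGroup V] [Module (ZMod 2) V] [FiniteDimensional (ZMod 2) V]
    [DecidableEq V] (E : Finset V) (hg : Good (E : Set V)) (hV : finrank (ZMod 2) V = 5)
    (h15c : 15 ≤ E.card) : ∃ b : Fin 5 → V, LinearIndependent (ZMod 2) b ∧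
      ∀ n < 32, (qM.testBit n = true ↔ comb b n ∈ (E : Set V)) := by
  obtain ⟨M, hM, b, hb, hMb⟩ := claimR5 r5L r5_closed V (E : Set V) hV hg.zero hg.span hg.free
  obtain ⟨e1, -⟩ := base_count hV b hb E M hMb
  have h1 := List.all_eq_true.1 t15 M hM
  rw [Bool.or_eq_true, Bool.or_eq_true, decide_eq_true_eq, beq_iff_eq,
    List.contains_iff_mem, List.mem_map] at h1
  rcases h1 with (h1 | h1) | ⟨r, hr, h1⟩
  · omega
  · subst h1
    obtain ⟨k1, k2, k3⟩ := h15_ok
    have hlt : ∀ c ∈ h15, c < 32 := by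
      intro c hc
      exact of_decide_eq_true (List.all_eq_true.1 k1 c hc)
    refine ⟨nb b h15, indep_nb hb h15 rfl hlt ?_, ?_⟩
    · intro m hm hm0
      have := List.all_eq_true.1 k2 m (List.mem_range.2 (by simpa [h15] using hm))
      simpa [hm0] using this
    · intro n hn
      have h2 := List.all_eq_true.1 k3 n (List.mem_range.2 hn)
      rw [beq_iff_eq] at h2
      rw [h2, comb_nb b h15 rfl]
      exact hMb _ (r5s_linC_lt (m := 5) h15 (fun c hc => hlt c hc) n)
  · exfalso
    refine base_nonvc hV b hb (E : Set V) M hMb ?_ ((good_iff_sepGe (E : Set V)).1 hg).2.2.1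
    rw [← h1]
    exact nvChk_sound (List.all_eq_true.1 nv6_ok r hr)

/-- the quadric without a point contains a copy of `GQ13` -/
theorem gq_minus {V : Type} [AddCommGroup V] [Module (ZMod 2) V] {b : Fin 5 → V}
    (hb : LinearIndependent (ZMod 2) b) (o : ℕ) (ho : o < 32) (hoq : qM.testBit o = true) :
    ∃ b' : Fin 5 → V, LinearIndependent (ZMod 2) b' ∧ ∀ n ∈ gq13, ∃ k < 32,
      qM.testBit k = true ∧ k ≠ o ∧ comb b' n = comb b k := by
  have h1 := List.all_eq_true.1 gRows_all o (List.mem_range.2 ho)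
  rw [hoq, Bool.or_eq_true, List.any_eq_true] at h1
  rcases h1 with h1 | ⟨r, hr, h1⟩
  · exact absurd h1 (by simp)
  · have hok := List.all_eq_true.1 gRows_ok r hr
    obtain ⟨p, h⟩ := r
    unfold gOk at hok
    simp only [Bool.and_eq_true, beq_iff_eq, List.all_eq_true, decide_eq_true_eq,
      List.mem_range, bne_iff_ne, Bool.or_eq_true] at hok h1
    obtain ⟨⟨⟨k1, k2⟩, k3⟩, k4⟩ := hok
    subst h1
    refine ⟨nb b h, indep_nb hb h k1 k2 ?_, ?_⟩
    · intro m hm hm0
      rw [k1] at hm
      exact (k3 m (by simpa using hm)).resolve_left hm0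
    · intro n hn
      obtain ⟨a1, a2⟩ := k4 n hn
      exact ⟨linC h n, r5s_linC_lt (m := 5) h (fun c hc => k2 c hc) n, a1, a2,
        comb_nb b h k1 n⟩

end Pool.Agent.Work.MP_9f8812_co.EC
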