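import Pool.Agent.Work.MP_a8f287_co.Bd.B15

/-!
# Counting at a core with at most two light branches
-/

set_option autoImplicit false
set_option linter.unusedSectionVars false

namespace Pool.Agent.Work.MP_9f8812_co.EC

open Submodule Module
open Pool.Agent.WW

/-- there are at most two branches if the plane has at least five points -/
theorem trace3 (W : Type) [AddCommGroup W] [Module (ZMod 2) W] [FiniteDimensional (ZMod 2) W]
    (N : Finset W) (Γ : Submodule (ZMod 2) W) (U C : Fin 3 → Submodule (ZMod 2) W)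
    (h0 : (0 : W) ∉ N) (hΓ : finrank (ZMod 2) Γ = 3) (h5 : 5 ≤ (res N Γ).card)
    (hcov : ∀ i, ∀ x ∈ N, x ∈ U i ∨ x ∈ C i) (hU : ∀ i, ¬ Γ ≤ U i) (hC : ∀ i, ¬ Γ ≤ C i)
    (hUC : ∀ i j, i ≠ j → U i ≤ C j) : False := by
  classical
  have lt : ∀ P : Submodule (ZMod 2) W, ¬ Γ ≤ P → finrank (ZMod 2) ↥(P ⊓ Γ) ≤ 2 := by
    intro P hP
    by_contra hcon
    push Not at hcon
    have h1 : P ⊓ Γ = Γ := Submodule.eq_of_le_of_finrank_le inf_le_right (by omega)
    exact hP (by rw [← h1]; exact inf_le_left)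
  have cnt : ∀ P : Submodule (ZMod 2) W, (N.filter (fun x => x ∈ P ⊓ Γ)).card + 1 ≤
      2 ^ finrank (ZMod 2) ↥(P ⊓ Γ) := by
    intro P
    apply peel_card_le
    · intro h
      exact h0 (Finset.mem_filter.1 h).1
    · intro x hx
      exact (Finset.mem_filter.1 hx).2
  have cov : ∀ i, (res N Γ).card ≤ (N.filter (fun x => x ∈ U i ⊓ Γ)).card +
      (N.filter (fun x => x ∈ C i ⊓ Γ)).card := by
    intro i
    refine le_trans (Finset.card_le_card ?_) (Finset.card_union_le _ _)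
    intro x hx
    obtain ⟨h1, h2⟩ := mem_res.1 hx
    rw [Finset.mem_union, Finset.mem_filter, Finset.mem_filter]
    rcases hcov i x h1 with h | h
    · exact Or.inl ⟨h1, h, h2⟩
    · exact Or.inr ⟨h1, h, h2⟩
  have dim : ∀ i, finrank (ZMod 2) ↥(U i ⊓ Γ) = 2 ∧ finrank (ZMod 2) ↥(C i ⊓ Γ) = 2 := by
    intro i
    have a1 := lt _ (hU i)
    have a2 := lt _ (hC i)
    have b1 := cnt (U i)
    have b2 := cnt (C i)
    have c1 := cov i
    have p2 : ∀ d, d ≤ 2 → 2 ^ d ≤ 4 := by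
      intro d hd
      calc 2 ^ d ≤ 2 ^ 2 := Nat.pow_le_pow_right (by norm_num) hd
        _ = 4 := by norm_num
    have p1 : ∀ d, d ≤ 1 → 2 ^ d ≤ 2 := by
      intro d hd
      calc 2 ^ d ≤ 2 ^ 1 := Nat.pow_le_pow_right (by norm_num) hd
        _ = 2 := by norm_num
    have e1 := p2 _ a1
    have e2 := p2 _ a2
    constructor
    · by_contra hne
      have e3 := p1 _ (show finrank (ZMod 2) ↥(U i ⊓ Γ) ≤ 1 by omega)
      omega
    · by_contra hne
      have e3 := p1 _ (show finrank (ZMod 2) ↥(C i ⊓ Γ) ≤ 1 by omega)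
      omega
  have eq : ∀ i j, i ≠ j → U i ⊓ Γ = C j ⊓ Γ := by
    intro i j hij
    apply Submodule.eq_of_le_of_finrank_le (inf_le_inf_right _ (hUC i j hij))
    rw [(dim i).1, (dim j).2]
  have e01 := eq 0 1 (by decide)
  have e02 := eq 0 2 (by decide)
  have e10 := eq 1 0 (by decide)
  have e12 := eq 1 2 (by decide)
  have e00 : U 0 ⊓ Γ = C 0 ⊓ Γ := by rw [e02, ← e12, e10]
  have hle : (res N Γ).card ≤ (N.filter (fun x => x ∈ U 0 ⊓ Γ)).card := by
    apply Finset.card_le_card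
    intro x hx
    obtain ⟨h1, h2⟩ := mem_res.1 hx
    rw [Finset.mem_filter]
    rcases hcov 0 x h1 with h | h
    · exact ⟨h1, h, h2⟩
    · exact ⟨h1, by rw [e00]; exact ⟨h, h2⟩⟩
  have h6 := cnt (U 0)
  rw [(dim 0).1, show (2 : ℕ) ^ 2 = 4 from rfl] at h6
  omega

/-- the strict bound: at most two branches and strict bounds for the cores -/
theorem peel1 (W : Type) [AddCommGroup W] [Module (ZMod 2) W]
    [FiniteDimensional (ZMod 2) W] [DecidableEq W] (S N : Finset W) (Γ : Submodule (ZMod 2) W)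
    (hNS : N ⊆ S) (h0 : (0 : W) ∉ S) (hfull : Full (S : Set W) ⊤)
    (hS3 : ∀ Z : Submodule (ZMod 2) W, Z ≠ ⊥ → (∀ A B, ¬ Sep (S : Set W) Z A B) →
      (res S Z).card ≤ 3 * finrank (ZMod 2) Z)
    (hcore : ∀ Z : Submodule (ZMod 2) W, Z ≠ ⊥ → (∀ A B, ¬ Sep (S : Set W) Z A B) →
      (res N Z).card + 1 ≤ 3 * finrank (ZMod 2) Z)
    (hΓ3 : finrank (ZMod 2) Γ = 3) (h5 : 5 ≤ (res N Γ).card)
    (hΓF : ∀ F F' : Submodule (ZMod 2) W, Sep (S : Set W) ⊤ F F' → ¬ Γ ≤ F)
    (hL : ∀ F F' : Submodule (ZMod 2) W, Sep (S : Set W) ⊤ F F' →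
      Pool.Agent.WW.Light N F F' ∨ Pool.Agent.WW.Light N F' F) :
    N.card + 1 ≤ 3 * finrank (ZMod 2) W := by
  have hInv : ClaimInv.{0} := claimInv
  have hExt : C3ExtSep.{0} := a3ExtSep
  have hLine : C3LineSide.{0} := c3LineSide
  have hN0 : (0 : W) ∉ N := fun h => h0 (hNS h)
  by_contra hcon
  push Not at hcon
  have hInvT : Inv (S : Set W) ⊤ ⊤ := peel_inv_top _
  have hrho : finrank (ZMod 2) ↥(⊤ : Submodule (ZMod 2) W) = finrank (ZMod 2) W := finrank_top _ _
  have hNne : (⊤ : Submodule (ZMod 2) W) ≠ ⊥ := by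
    intro h
    have h1 : finrank (ZMod 2) Γ ≤ finrank (ZMod 2) ↥(⊤ : Submodule (ZMod 2) W) :=
      Submodule.finrank_mono le_top
    rw [h, finrank_bot] at h1
    omega
  -- facts on a separation of an inherited subspace
  have guts : ∀ G A B : Submodule (ZMod 2) W, Inv (S : Set W) ⊤ G → Sep (S : Set W) G A B →
      finrank (ZMod 2) ↥(A ⊓ B) = 2 ∧ (∀ x ∈ A ⊓ B, x ≠ 0 → x ∈ (S : Set W)) ∧ A ⊔ B = G ∧
      Inv (S : Set W) ⊤ A ∧ Inv (S : Set W) ⊤ B ∧
      finrank (ZMod 2) A + finrank (ZMod 2) B = finrank (ZMod 2) G + 2 := by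
    intro G A B hG hs
    obtain ⟨A', B', hs', _, _, hAB⟩ := hG.2 A B hs
    have h1 := hfull A' B' hs'
    rw [hAB] at h1
    obtain ⟨hA, hB, hsup⟩ := hInv W (S : Set W) ⊤ G A B hfull hG hs
    refine ⟨h1.1, h1.2, hsup, hA, hB, ?_⟩
    have h2 := Submodule.finrank_sup_add_finrank_inf_eq A B
    rw [hsup, h1.1] at h2
    omega
  -- two light sides
  have twoL : ∀ A B : Submodule (ZMod 2) W, Sep (S : Set W) ⊤ A B →
      Pool.Agent.WW.Light N A B → Pool.Agent.WW.Light N B A → False := by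
    intro A B hs hA hB
    obtain ⟨h1, h2, _, _, _, h6⟩ := guts ⊤ A B hInvT hs
    have h3 := peel_count hNS hs
    rw [peel_res_top] at h3
    have h4 := peel_line h0 hNS h1 h2
    obtain ⟨a1, a2⟩ := peel_light h0 hA
    obtain ⟨b1, b2⟩ := peel_light h0 hB
    rw [inf_comm] at b2
    rw [hrho] at h6
    omega
  have piece : ∀ Z : Submodule (ZMod 2) W, Z ≠ ⊥ → (¬ ∃ A B, Sep (S : Set W) Z A B) →
      (res S Z).card ≤ 3 * finrank (ZMod 2) Z := by
    intro Z hZ hno
    exact hS3 Z hZ (fun A B h => hno ⟨A, B, h⟩)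
  have core : ∀ Z : Submodule (ZMod 2) W, Z ≠ ⊥ → (¬ ∃ A B, Sep (S : Set W) Z A B) →
      (res N Z).card + 1 ≤ 3 * finrank (ZMod 2) Z := by
    intro Z hZ hno
    exact hcore Z hZ (fun A B h => hno ⟨A, B, h⟩)
  by_cases hex : ∃ A B, Sep (S : Set W) ⊤ A B
  swap
  · have h1 := core ⊤ hNne hex
    rw [peel_res_top, hrho] at h1
    omega
  -- the first branch
  obtain ⟨⟨U, F1⟩, ⟨hUF, hUL⟩, hmin⟩ := peel_min
    (fun p : Submodule (ZMod 2) W × Submodule (ZMod 2) W =>
      Sep (S : Set W) ⊤ p.1 p.2 ∧ Pool.Agent.WW.Light N p.1 p.2)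
    (fun p => finrank (ZMod 2) p.2) (by
      obtain ⟨A, B, h⟩ := hex
      rcases hL A B h with h1 | h1
      · exact ⟨(A, B), h, h1⟩
      · exact ⟨(B, A), (peel_sep_symm h), h1⟩)
  simp only at hUF hUL hmin
  obtain ⟨g0, g0f, g0s, _, hInvF1, g0d⟩ := guts ⊤ U F1 hInvT hUF
  rw [hrho] at g0d
  have c0 := peel_count hNS hUF
  rw [peel_res_top] at c0
  have l0 := peel_line h0 hNS g0 g0f
  obtain ⟨u1, u2⟩ := peel_light h0 hUL
  set L0 := U ⊓ F1 with hL0
  have hL0F1 : L0 ≤ F1 := inf_le_right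
  have nebot : ∀ Z L : Submodule (ZMod 2) W, finrank (ZMod 2) L = 2 → L ≤ Z → Z ≠ ⊥ := by
    intro Z L hL2 hLZ h
    have h1 := Submodule.finrank_mono hLZ
    rw [h, finrank_bot, hL2] at h1
    omega
  by_cases hex1 : ∃ A B, Sep (S : Set W) F1 A B
  swap
  · have h1 := piece F1 (nebot F1 L0 g0 hL0F1) hex1
    have h1' := core F1 (nebot F1 L0 g0 hL0F1) hex1
    have h2 := peel_missing (B := F1) (M := res S L0 \ N) hNS (by
      intro x hx
      rw [Finset.mem_sdiff] at hx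
      obtain ⟨hx1, hx2⟩ := mem_res.1 hx.1
      exact ⟨hx1, hL0F1 hx2, hx.2⟩)
    omega
  -- extension to the whole space
  have ext0 : ∀ A B : Submodule (ZMod 2) W, Sep (S : Set W) F1 A B → L0 ≤ B →
      Sep (S : Set W) ⊤ A (B ⊔ U) ∧ A ⊓ (B ⊔ U) = A ⊓ B := by
    intro A B hs hLB
    obtain ⟨h1, h2, _⟩ := hExt W (S : Set W) ⊤ U F1 A B hfull hInvT hUF hs hLB
    exact ⟨h1, h2⟩
  have light1 : ∀ A B : Submodule (ZMod 2) W, Sep (S : Set W) F1 A B → L0 ≤ B →
      Pool.Agent.WW.Light N A (B ⊔ U) := by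
    intro A B hs hLB
    obtain ⟨h1, _⟩ := ext0 A B hs hLB
    rcases hL _ _ h1 with h2 | h2
    · exact h2
    · exfalso
      have h3 := hmin (B ⊔ U, A) ⟨(peel_sep_symm h1), h2⟩
      have h4 : finrank (ZMod 2) A < finrank (ZMod 2) F1 :=
        Submodule.finrank_lt_finrank_of_lt (lt_of_le_of_ne hs.1 hs.2.2.1)
      simp only at h3
      omega
  -- three branches are impossible
  have three : ∀ (X : Fin 3 → Submodule (ZMod 2) W) (Y : Fin 3 → Submodule (ZMod 2) W),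
      (∀ i, Sep (S : Set W) ⊤ (X i) (Y i)) → (∀ i j, i ≠ j → X i ≤ Y j) → False := by
    intro X Y hXY hle
    refine trace3 W N Γ X Y hN0 hΓ3 h5 ?_ ?_ ?_ hle
    · intro i x hx
      exact (hXY i).2.2.2.2.1 x (hNS hx) mem_top
    · intro i
      exact hΓF _ _ (hXY i)
    · intro i
      exact hΓF _ _ (peel_sep_symm (hXY i))
  have neL0 : ∀ A B : Submodule (ZMod 2) W, Sep (S : Set W) F1 A B → A ⊓ B ≠ L0 := by
    intro A B hs heq
    have hA : L0 ≤ A := by rw [← heq]; exact inf_le_left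
    have hB : L0 ≤ B := by rw [← heq]; exact inf_le_right
    obtain ⟨t1, _⟩ := ext0 A B hs hB
    obtain ⟨t2, _⟩ := ext0 B A (peel_sep_symm hs) hA
    refine three ![U, A, B] ![F1, B ⊔ U, A ⊔ U] ?_ ?_
    · intro i
      fin_cases i
      · exact hUF
      · exact t1
      · exact t2
    · intro i j hij
      fin_cases i <;> fin_cases j
      · exact absurd rfl hij
      · exact le_sup_right
      · exact le_sup_right
      · exact hs.1
      · exact absurd rfl hij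
      · exact le_sup_left
      · exact hs.2.1
      · exact le_sup_left
      · exact absurd rfl hij
  -- the second branch
  obtain ⟨⟨A1, B1⟩, ⟨hs1, hL0B1⟩, hmax1⟩ := peel_max
    (fun p : Submodule (ZMod 2) W × Submodule (ZMod 2) W =>
      Sep (S : Set W) F1 p.1 p.2 ∧ L0 ≤ p.2) (fun p => finrank (ZMod 2) p.1)
    (finrank (ZMod 2) W) (fun p => Submodule.finrank_le _) (by
      obtain ⟨A, B, h⟩ := hex1
      rcases hLine W (S : Set W) F1 A B L0 h hL0F1 g0 g0f with h1 | h1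
      · exact ⟨(B, A), (peel_sep_symm h), h1⟩
      · exact ⟨(A, B), h, h1⟩)
  simp only at hs1 hL0B1 hmax1
  obtain ⟨g1, g1f, g1s, hInvA1, hInvB1, g1d⟩ := guts F1 A1 B1 hInvF1 hs1
  have c1 := peel_count hNS hs1
  have l1 := peel_line h0 hNS g1 g1f
  obtain ⟨t1, i1⟩ := ext0 A1 B1 hs1 hL0B1
  obtain ⟨a1, a2⟩ := peel_light h0 (light1 A1 B1 hs1 hL0B1)
  rw [i1] at a2
  have hne1 : A1 ⊓ B1 ≠ L0 := neL0 A1 B1 hs1
  set L1 := A1 ⊓ B1 with hL1
  have hL1B1 : L1 ≤ B1 := inf_le_right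
  have pi01 := peel_inter (N := N) h0 g0 g1 (Ne.symm hne1)
  by_cases hex2 : ∃ A B, Sep (S : Set W) B1 A B
  swap
  · have h1 := piece B1 (nebot B1 L0 g0 hL0B1) hex2
    have h1' := core B1 (nebot B1 L0 g0 hL0B1) hex2
    have h2 := peel_missing (B := B1) (M := (res S L0 \ N) ∪ (res S L1 \ N)) hNS (by
      intro x hx
      rw [Finset.mem_union, Finset.mem_sdiff, Finset.mem_sdiff] at hx
      rcases hx with hx | hx
      · obtain ⟨hx1, hx2⟩ := mem_res.1 hx.1
        exact ⟨hx1, hL0B1 hx2, hx.2⟩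
      · obtain ⟨hx1, hx2⟩ := mem_res.1 hx.1
        exact ⟨hx1, hL1B1 hx2, hx.2⟩)
    have h3 := Finset.card_union_add_card_inter (res S L0 \ N) (res S L1 \ N)
    have h4 : 1 ≤ ((res S L0 \ N) ∩ (res S L1 \ N)).card →
      1 ≤ (res S L0 \ N).card ∧ 1 ≤ (res S L1 \ N).card := peel_inter_pos
    omega
  -- extension from B1 to F1
  have ext1 : ∀ A B : Submodule (ZMod 2) W, Sep (S : Set W) B1 A B → L1 ≤ B →
      Sep (S : Set W) F1 A (B ⊔ A1) := by
    intro A B hs hLB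
    exact (hExt W (S : Set W) F1 A1 B1 A B hfull hInvF1 hs1 hs hLB).1
  -- a side is not contained in a line
  have side : ∀ G A B L : Submodule (ZMod 2) W, Inv (S : Set W) ⊤ G → Sep (S : Set W) G A B →
      finrank (ZMod 2) L = 2 → ¬ A ≤ L := by
    intro G A B L hG hs hL2 hAL
    obtain ⟨h1, _, hsup, _, _, _⟩ := guts G A B hG hs
    have h2 : A ⊓ B = A := by
      apply Submodule.eq_of_le_of_finrank_le inf_le_left
      rw [h1]
      exact (Submodule.finrank_mono hAL).trans hL2.le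
    have h3 : A ≤ B := by rw [← h2]; exact inf_le_right
    rw [sup_eq_right.2 h3] at hsup
    exact hs.2.2.2.1 hsup
  have same1 : ∀ A B : Submodule (ZMod 2) W, Sep (S : Set W) B1 A B → L0 ≤ B → L1 ≤ B := by
    intro A B hs hLB
    rcases hLine W (S : Set W) B1 A B L1 hs hL1B1 g1 g1f with h1 | h1
    · exfalso
      have h2 := ext1 B A (peel_sep_symm hs) h1
      have h3 := hmax1 (A ⊔ A1, B) ⟨(peel_sep_symm h2), hLB⟩
      simp only at h3
      have h4 : A1 = A ⊔ A1 := Submodule.eq_of_le_of_finrank_le le_sup_right h3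
      have h5' : A ≤ A1 := by
        rw [h4]
        exact le_sup_left
      exact side B1 A B L1 hInvB1 hs g1 (le_inf h5' hs.1)
    · exact h1
  have key : ∀ A B : Submodule (ZMod 2) W, Sep (S : Set W) B1 A B → L0 ≤ B → False := by
    intro A2 B2 hs2 hL0B2
    have hL1B2 := same1 A2 B2 hs2 hL0B2
    have s2 := ext1 A2 B2 hs2 hL1B2
    obtain ⟨t2, _⟩ := ext0 A2 (B2 ⊔ A1) s2 (hL0B2.trans le_sup_left)
    refine three ![U, A1, A2] ![F1, B1 ⊔ U, B2 ⊔ A1 ⊔ U] ?_ ?_
    · intro i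
      fin_cases i
      · exact hUF
      · exact t1
      · exact t2
    · intro i j hij
      fin_cases i <;> fin_cases j
      · exact absurd rfl hij
      · exact le_sup_right
      · exact le_sup_right
      · exact hs1.1
      · exact absurd rfl hij
      · exact le_sup_right.trans le_sup_left
      · exact hs2.1.trans hs1.2.1
      · exact hs2.1.trans le_sup_left
      · exact absurd rfl hij
  obtain ⟨A, B, hs⟩ := hex2
  rcases hLine W (S : Set W) B1 A B L0 hs hL0B1 g0 g0f with h1 | h1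
  · exact key B A (peel_sep_symm hs) h1
  · exact key A B hs h1

end Pool.Agent.Work.MP_9f8812_co.EC
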