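import Pool.Agent.Work.MP_9f8812_co.EC.B5
import Pool.Agent.Work.MP_9f8812_co.EC.Peel
import Pool.Agent.Work.MP_9f8812_co.LG.AT
import Pool.Agent.Work.MP_9f8812_co.LG.I_E4

/-!
# Strict bounds for the cores
-/

set_option autoImplicit false

namespace Pool.Agent.Work.MP_9f8812_co.EC

open Submodule Module
open Pool.Agent.WW

/-- the strict density bound in rank `n` -/
def DM (n : ℕ) : Prop := ∀ (V : Type) [AddCommGroup V] [Module (ZMod 2) V]
  [FiniteDimensional (ZMod 2) V] [DecidableEq V] (E : Finset V), Good (E : Set V) →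
  finrank (ZMod 2) V = n → E.card + 1 ≤ 3 * n

/-- eleven points of a four-dimensional space: some plane contains six of them -/
theorem eleven {W : Type} [AddCommGroup W] [Module (ZMod 2) W] [FiniteDimensional (ZMod 2) W]
    [DecidableEq W] (X : Finset W) (Z : Submodule (ZMod 2) W) (h0 : (0 : W) ∉ X)
    (hZ : finrank (ZMod 2) Z = 4) (h11 : 11 ≤ (res X Z).card) :
    ∃ U : Submodule (ZMod 2) W, finrank (ZMod 2) U = 3 ∧ 6 ≤ (res X U).card := by
  classical
  have hfin : Finite Z := Module.finite_of_finite (ZMod 2)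
  have : Fintype Z := Fintype.ofFinite Z
  let E : Finset Z := Finset.univ.filter (fun x : Z => (x : W) ∈ X)
  have hE0 : (0 : Z) ∉ E := by
    simp only [E, Finset.mem_filter, Finset.mem_univ, true_and, Submodule.coe_zero]
    exact h0
  have hEc : (res X Z).card = E.card := by
    have h2 : res X Z = E.image (fun x : Z => (x : W)) := by
      ext x
      rw [mem_res, Finset.mem_image]
      constructor
      · rintro ⟨hx, hxZ⟩
        exact ⟨⟨x, hxZ⟩, by simpa [E] using hx, rfl⟩
      · rintro ⟨y, hy, rfl⟩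
        exact ⟨by simpa [E] using hy, y.2⟩
    rw [h2, Finset.card_image_of_injective _ Subtype.val_injective]
  obtain ⟨f, hf, hk⟩ := LG.pr_Avg ↥Z E hE0 (by omega)
  rw [hZ] at hk
  have hcard : ({x ∈ (E : Set Z) | f x ≠ 0}).ncard = (E.filter (fun x => f x ≠ 0)).card := by
    rw [← Set.ncard_coe_finset]
    congr 1
    ext x
    simp
  rw [hcard] at hk
  have hsplit := Finset.card_filter_add_card_filter_not (s := E) (fun x => f x ≠ 0)
  have hker : finrank (ZMod 2) (LinearMap.ker f) = 3 := by
    have h1 := LinearMap.finrank_range_add_finrank_ker f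
    have h2 : LinearMap.range f = ⊤ := by
      apply LinearMap.range_eq_top.2
      intro c
      obtain ⟨x, hx⟩ : ∃ x, f x ≠ 0 := by
        by_contra hcon
        push Not at hcon
        exact hf (LinearMap.ext hcon)
      have hx1 : f x = 1 := by
        have : ∀ a : ZMod 2, a ≠ 0 → a = 1 := by decide
        exact this _ hx
      exact ⟨c • x, by rw [map_smul, hx1, smul_eq_mul, mul_one]⟩
    rw [h2, finrank_top, finrank_self, hZ] at h1
    omega
  refine ⟨(LinearMap.ker f).map Z.subtype, ?_, ?_⟩
  · rw [Submodule.finrank_map_subtype_eq, hker]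
  · have h3 : 6 ≤ (E.filter (fun x => ¬ f x ≠ 0)).card := by
      rw [hEc] at h11
      have hE15 : E.card + 1 ≤ 16 := by
        have h4 : (insert 0 E).card ≤ Fintype.card Z := Finset.card_le_univ _
        rw [Finset.card_insert_of_notMem hE0, Module.card_eq_pow_finrank (K := ZMod 2) (V := Z),
          hZ, ZMod.card] at h4
        exact h4
      norm_num at hk
      simp only [ne_eq] at hk hsplit ⊢
      omega
    refine h3.trans ?_
    rw [← Finset.card_image_of_injective (E.filter (fun x => ¬ f x ≠ 0))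
      (f := fun x : Z => (x : W)) Subtype.val_injective]
    apply Finset.card_le_card
    intro w hw
    rw [Finset.mem_image] at hw
    obtain ⟨x, hx, rfl⟩ := hw
    rw [Finset.mem_filter] at hx
    rw [mem_res]
    refine ⟨by simpa [E] using hx.1, ?_⟩
    exact Submodule.mem_map_of_mem (f := Z.subtype) (by
      rw [LinearMap.mem_ker]
      exact not_not.1 hx.2)

/-- the strict bound for the cores -/
theorem core1 (W : Type) [AddCommGroup W] [Module (ZMod 2) W] [FiniteDimensional (ZMod 2) W]
    [DecidableEq W] (F N S : Finset W) (hF4 : ∀ U : Submodule (ZMod 2) W,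
      finrank (ZMod 2) U = 3 → (res F U).card ≤ 5) (hFG : GQF (F : Set W))
    (hNF : (N \ F).card ≤ 1) (hNS : N ⊆ S) (h0 : (0 : W) ∉ S) (hfree : ¬ HasK5 (S : Set W))
    (hIH : ∀ m, 6 ≤ m → m ≤ finrank (ZMod 2) W → DM m) (Z : Submodule (ZMod 2) W)
    (hZ : Z ≠ ⊥) (hsep : ∀ A B, ¬ Sep (S : Set W) Z A B) :
    (res S Z).card ≤ 3 * finrank (ZMod 2) Z ∧ (res N Z).card + 1 ≤ 3 * finrank (ZMod 2) Z := by
  classical
  have hg := claimSub W (S : Set W) Z h0 hfree hZ hsep
  have hfin : Finite Z := Module.finite_of_finite (ZMod 2)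
  have : Fintype Z := Fintype.ofFinite Z
  let E : Finset Z := Finset.univ.filter (fun x : Z => (x : W) ∈ S)
  have hE : (E : Set Z) = (fun x : Z => (x : W)) ⁻¹' (S : Set W) := by
    ext x
    simp [E]
  have hgE : Good (E : Set Z) := by rw [hE]; exact hg
  have hEc : (res S Z).card = E.card := by
    have h2 : res S Z = E.image (fun x : Z => (x : W)) := by
      ext x
      rw [mem_res, Finset.mem_image]
      constructor
      · rintro ⟨hx, hxZ⟩
        exact ⟨⟨x, hxZ⟩, by simpa [E] using hx, rfl⟩
      · rintro ⟨y, hy, rfl⟩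
        exact ⟨by simpa [E] using hy, y.2⟩
    rw [h2, Finset.card_image_of_injective _ Subtype.val_injective]
  have hNSZ : res N Z ⊆ res S Z := by
    intro x hx
    obtain ⟨h1, h2⟩ := mem_res.1 hx
    exact mem_res.2 ⟨hNS h1, h2⟩
  have hle := Finset.card_le_card hNSZ
  have hD3 : E.card ≤ 3 * finrank (ZMod 2) Z := LG.good_card E hgE
  refine ⟨by rw [hEc]; exact hD3, ?_⟩
  have hN0 : (0 : W) ∉ N := fun h => h0 (hNS h)
  have hNF' : (res N Z).card ≤ (res F Z).card + 1 := by
    have h1 : res N Z ⊆ res F Z ∪ (N \ F) := by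
      intro x hx
      obtain ⟨h1, h2⟩ := mem_res.1 hx
      rw [Finset.mem_union, mem_res, Finset.mem_sdiff]
      by_cases hxF : x ∈ F
      · exact Or.inl ⟨hxF, h2⟩
      · exact Or.inr ⟨h1, hxF⟩
    have h2 := (Finset.card_le_card h1).trans (Finset.card_union_le _ _)
    omega
  have hpos : 1 ≤ finrank (ZMod 2) Z := by
    rw [Nat.one_le_iff_ne_zero]
    intro h
    exact hZ (Submodule.finrank_eq_zero.1 h)
  rcases Nat.lt_or_ge 3 (finrank (ZMod 2) Z) with h3 | h3
  swap
  · have h1 : (res N Z).card + 1 ≤ 2 ^ finrank (ZMod 2) Z := by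
      apply peel_card_le
      · intro h
        exact hN0 (mem_res.1 h).1
      · intro x hx
        exact (mem_res.1 hx).2
    have h2 : finrank (ZMod 2) Z = 1 ∨ finrank (ZMod 2) Z = 2 ∨ finrank (ZMod 2) Z = 3 := by
      omega
    rcases h2 with h2 | h2 | h2 <;> rw [h2] at h1 ⊢ <;> norm_num at h1 ⊢ <;> omega
  rcases Nat.lt_or_ge 4 (finrank (ZMod 2) Z) with h4 | h4
  swap
  · have h44 : finrank (ZMod 2) Z = 4 := by omega
    by_contra hcon
    have hF0 : (0 : W) ∉ F.erase 0 := Finset.notMem_erase 0 F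
    have h11 : 11 ≤ (res (F.erase 0) Z).card := by
      have h5 : (res N Z).card ≤ (res (F.erase 0) Z).card + 1 := by
        have h1 : res N Z ⊆ res (F.erase 0) Z ∪ (N \ F) := by
          intro x hx
          obtain ⟨h1, h2⟩ := mem_res.1 hx
          rw [Finset.mem_union, mem_res, Finset.mem_sdiff, Finset.mem_erase]
          by_cases hxF : x ∈ F
          · exact Or.inl ⟨⟨fun h => hN0 (h ▸ h1), hxF⟩, h2⟩
          · exact Or.inr ⟨h1, hxF⟩
        have h2 := (Finset.card_le_card h1).trans (Finset.card_union_le _ _)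
        omega
      omega
    obtain ⟨U, hU, h6⟩ := eleven (F.erase 0) Z hF0 h44 h11
    have h7 := hF4 U hU
    have h8 : (res (F.erase 0) U).card ≤ (res F U).card := by
      apply Finset.card_le_card
      intro x hx
      obtain ⟨h1, h2⟩ := mem_res.1 hx
      exact mem_res.2 ⟨(Finset.mem_erase.1 h1).2, h2⟩
    omega
  rcases Nat.lt_or_ge 5 (finrank (ZMod 2) Z) with h5 | h5
  · have h6 := hIH (finrank (ZMod 2) Z) (by omega) (Submodule.finrank_le Z) Z E hgE rfl
    omega
  · have h55 : finrank (ZMod 2) Z = 5 := by omega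
    by_contra hcon
    have hNeq : res N Z = res S Z := Finset.eq_of_subset_of_card_le hNSZ (by omega)
    obtain ⟨b, hb, hbE⟩ := base5 E hgE h55 (by omega)
    -- a code of the point of `N` outside `F`
    have hcode : ∃ o < 32, qM.testBit o = true ∧ ∀ k < 32, qM.testBit k = true → k ≠ o →
        ((comb b k : Z) : W) ∈ F := by
      have hN : ∀ k < 32, qM.testBit k = true → ((comb b k : Z) : W) ∈ N := by
        intro k hk hq
        have h1 := (hbE k hk).1 hq
        have h2 : ((comb b k : Z) : W) ∈ res S Z := by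
          rw [mem_res]
          exact ⟨by simpa [E] using h1, (comb b k).2⟩
        rw [← hNeq, mem_res] at h2
        exact h2.1
      by_cases hall : ∀ k < 32, qM.testBit k = true → ((comb b k : Z) : W) ∈ F
      · exact ⟨7, by norm_num, by decide +kernel, fun k hk hq _ => hall k hk hq⟩
      · push Not at hall
        obtain ⟨o, ho, hoq, hoF⟩ := hall
        refine ⟨o, ho, hoq, fun k hk hq hne => ?_⟩
        by_contra hkF
        have h1 : ((comb b o : Z) : W) ∈ N \ F := Finset.mem_sdiff.2 ⟨hN o ho hoq, hoF⟩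
        have h2 : ((comb b k : Z) : W) ∈ N \ F := Finset.mem_sdiff.2 ⟨hN k hk hq, hkF⟩
        have h3 := Finset.card_le_one.1 hNF _ h1 _ h2
        exact hne (r5s_comb_inj hb (x := o) (y := k) (by simpa using ho) (by simpa using hk)
          (Subtype.ext h3)).symm
    obtain ⟨o, ho, hoq, hoF⟩ := hcode
    obtain ⟨b', hb', hgq⟩ := gq_minus hb o ho hoq
    have hcoe : ∀ n, comb (fun i => ((b' i : Z) : W)) n = ((comb b' n : Z) : W) := by
      intro n
      unfold comb
      rw [← Submodule.subtype_apply, map_sum]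
      refine Finset.sum_congr rfl fun i _ => ?_
      split_ifs <;> simp
    obtain ⟨n, hn, hnF⟩ := hFG (fun i => ((b' i : Z) : W))
      (hb'.map' Z.subtype (Submodule.ker_subtype Z))
    obtain ⟨k, hk, hkq, hko, hkc⟩ := hgq n hn
    apply hnF
    rw [hcoe, hkc]
    exact hoF k hk hkq hko

end Pool.Agent.Work.MP_9f8812_co.EC
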