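import Pool.Agent.Work.MP_9f8812_co.EC.Ty

/-!
# An element of the cocircuit without bad separation, finer form
-/

set_option autoImplicit false

namespace Pool.Agent.Work.MP_9f8812_co.EC

open Submodule Module
open Pool.Agent.WW

/-- an element of the cocircuit without bad separation: on at most one full line, or in the
exceptional type -/
theorem noBadX1 (V : Type) [AddCommGroup V] [Module (ZMod 2) V]
    [FiniteDimensional (ZMod 2) V] [DecidableEq V] (E : Finset V) (H : Submodule (ZMod 2) V)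
    (hgood : Good (E : Set V)) (hk4 : K4F (E : Set V)) (hdim : 6 ≤ finrank (ZMod 2) V)
    (hctr : ∀ y ∈ E, Ctr (E : Set V) y → 6 ≤ deg E y) (hcoc : Coc4 (E : Set V) H) :
    ∃ (F A : Finset ↥H) (Γ : Submodule (ZMod 2) ↥H) (x0 : V) (a : ↥H), Quad F A Γ ∧ x0 ∉ H ∧
      (∀ h : ↥H, h ∈ F ↔ (h : V) ∈ E) ∧ (∀ h : ↥H, h ∈ A ↔ x0 + (h : V) ∈ E) ∧ a ∈ A ∧
      NoBad (NA F A a) ∧ (tA F A a ≤ 1 ∨
        (A.card = 4 ∧ tA F A a = 2 ∧ 5 ≤ (res (NA F A a) Γ).card)) := by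
  have hSd : C3Sides.{0} := c3Sides
  have hCr : C3Cross.{0} := a3Cross
  have hPl : C3Plane.{0} := a3Plane c3Types
  obtain ⟨F, A, Γ, x0, hquad, hx0, hF, hA⟩ := c3Quad V E H hgood (by omega) hcoc
  have hOne : ¬ One F A Γ := by
    intro h
    obtain ⟨y, hy, -, hyc, hyd⟩ := a3OneCtr V E H F A Γ x0 hgood hcoc.1 hquad hx0 hF hA h
    have := hctr y hy hyc
    omega
  by_contra hcon
  -- plane sides are light
  have hplane : ∀ a ∈ A, ∀ T T' : Submodule (ZMod 2) ↥H, Cov (NA F A a : Set ↥H) T T' →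
      finrank (ZMod 2) ↥(T ⊓ T') = 2 → finrank (ZMod 2) T = 3 →
      Pool.Agent.WW.Light (NA F A a) T T' := by
    intro a ha T T' hcov hd hT3
    obtain ⟨π, hsurj, hker, hcontr, -⟩ := c3QuadPi V E H F A x0 a hcoc.1 hgood.zero hx0 hF hA ha
    rw [← hcontr] at hcov ⊢
    exact hPl V ↥H E π (x0 + (a : V)) T T' hgood hk4 hdim hctr hsurj hker ((hA a).1 ha) hcov hd hT3
  have bad : ∀ a ∈ A, (tA F A a ≤ 1 ∨
      (A.card = 4 ∧ tA F A a = 2 ∧ 5 ≤ (res (NA F A a) Γ).card)) →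
      ∃ p : Submodule (ZMod 2) ↥H × Submodule (ZMod 2) ↥H,
      Cov (NA F A a : Set ↥H) p.1 p.2 ∧ finrank (ZMod 2) ↥(p.1 ⊓ p.2) = 2 ∧
        ¬ Pool.Agent.WW.Light (NA F A a) p.1 p.2 ∧
        ¬ Pool.Agent.WW.Light (NA F A a) p.2 p.1 := by
    intro a ha hta
    by_contra hno
    apply hcon
    refine ⟨F, A, Γ, x0, a, hquad, hx0, hF, hA, ha, ?_, hta⟩
    intro S S' hcov hd
    by_contra hl
    push Not at hl
    exact hno ⟨(S, S'), hcov, hd, hl.1, hl.2⟩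
  -- traces of chosen bad separations
  have trc : ∀ (a : ↥H) (p : Submodule (ZMod 2) ↥H × Submodule (ZMod 2) ↥H), a ∈ A →
      Cov (NA F A a : Set ↥H) p.1 p.2 → finrank (ZMod 2) ↥(p.1 ⊓ p.2) = 2 →
      IsTr F A Γ a (p.1 ⊓ Γ) (p.2 ⊓ Γ) := by
    intro a p ha h1 h2
    obtain ⟨-, -, -, h3⟩ := hSd ↥H F A Γ a hquad ha
    obtain ⟨h4, h5⟩ := h3 _ _ h1 h2.le
    refine ⟨inf_le_right, inf_le_right, fun h => h4 (inf_eq_right.1 h),
      fun h => h5 (inf_eq_right.1 h), ?_⟩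
    intro q hq hqΓ
    rcases h1.2.2 q hq with h | h
    · exact Or.inl ⟨h, hqΓ⟩
    · exact Or.inr ⟨h, hqΓ⟩
  rcases types1 V E H F A Γ x0 hgood.free hk4 hquad hx0 hF hA with h | h | h
  · exact hOne h
  · have hb := fun (a : ↥H) (ha : a ∈ A) (ht : tA F A a ≤ 1) => bad a ha (Or.inl ht)
    choose! p hp using hb
    refine h (fun a => (p a).1 ⊓ Γ) (fun a => (p a).2 ⊓ Γ) ?_ ?_
    · intro a ha hta
      obtain ⟨h1, h2, -, -⟩ := hp a ha hta
      exact trc a _ ha h1 h2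
    · intro a ha b hb _ hta htb
      obtain ⟨h1, h2, h3, h4⟩ := hp a ha hta
      obtain ⟨g1, g2, g3, g4⟩ := hp b hb htb
      exact hCr ↥H F A Γ _ _ _ _ a b hquad ha hb (hplane a ha) (hplane b hb) h1 h2 g1 g2 h3 h4
        g3 g4
  · have hNA : NoAss F A Γ := by
      rcases c3Types V E H F A Γ x0 hgood.free hk4 hquad hx0 hF hA with h' | h'
      · exact absurd h' hOne
      · exact h'.1
    have hb := fun (a : ↥H) (ha : a ∈ A) (_ : tA F A a ≤ 2) =>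
      bad a ha (Or.inr ⟨h.1, (h.2 a ha).1, (h.2 a ha).2⟩)
    choose! p hp using hb
    refine hNA (fun a => (p a).1 ⊓ Γ) (fun a => (p a).2 ⊓ Γ) ?_ ?_
    · intro a ha hta
      obtain ⟨h1, h2, -, -⟩ := hp a ha hta
      exact trc a _ ha h1 h2
    · intro a ha b hb _ hta htb
      obtain ⟨h1, h2, h3, h4⟩ := hp a ha hta
      obtain ⟨g1, g2, g3, g4⟩ := hp b hb htb
      exact hCr ↥H F A Γ _ _ _ _ a b hquad ha hb (hplane a ha) (hplane b hb) h1 h2 g1 g2 h3 h4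
        g3 g4

end Pool.Agent.Work.MP_9f8812_co.EC
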