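import Pool.Agent.Work.MP_9f8812_co.EC.Core
import Pool.Agent.Work.MP_9f8812_co.EC.Nb

/-!
# The strict density bound
-/

set_option autoImplicit false

namespace Pool.Agent.Work.MP_9f8812_co.EC

open Submodule Module
open Pool.Agent.WW

/-- the contraction in the exceptional type has one point outside `F` -/
theorem na_sdiff {W : Type} [AddCommGroup W] [Module (ZMod 2) W] [DecidableEq W]
    (F A : Finset W) (a : W) (h0 : (0 : W) ∉ F) (ha : a ∈ A) (h4 : A.card = 4)
    (ht : tA F A a = 2) : (NA F A a \ F).card ≤ 1 := by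
  classical
  have h1 : NA F A a \ F ⊆ ((A.filter (fun b => ¬ a + b ∈ F)).erase a).image (fun b => a + b) := by
    intro x hx
    rw [Finset.mem_sdiff] at hx
    obtain ⟨hx, hxF⟩ := hx
    unfold NA at hx
    rw [Finset.mem_erase, Finset.mem_union, Finset.mem_image] at hx
    obtain ⟨hx0, hx | ⟨b, hb, rfl⟩⟩ := hx
    · exact absurd hx hxF
    · rw [Finset.mem_image]
      refine ⟨b, ?_, rfl⟩
      rw [Finset.mem_erase, Finset.mem_filter]
      refine ⟨?_, hb, hxF⟩
      rintro rfl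
      exact hx0 (add_self_z2 b)
  refine (Finset.card_le_card h1).trans (Finset.card_image_le.trans ?_)
  have h2 := Finset.card_filter_add_card_filter_not (s := A) (fun b => a + b ∈ F)
  unfold tA at ht
  rw [ht, h4] at h2
  have haa : a ∈ A.filter (fun b => ¬ a + b ∈ F) := by
    rw [Finset.mem_filter, add_self_z2]
    exact ⟨ha, h0⟩
  rw [Finset.card_erase_of_mem haa]
  omega

/-- the strict bound in the exceptional type without triads -/
theorem bound1 (V : Type) [AddCommGroup V] [Module (ZMod 2) V]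
    [FiniteDimensional (ZMod 2) V] [DecidableEq V] (E : Finset V) (H : Submodule (ZMod 2) V)
    (F A : Finset ↥H) (Γ : Submodule (ZMod 2) ↥H) (x0 : V) (a : ↥H)
    (hG : Good (E : Set V)) (hK4 : K4F (E : Set V)) (h6 : 6 ≤ finrank (ZMod 2) V)
    (hH : finrank (ZMod 2) H + 1 = finrank (ZMod 2) V)
    (hIH : ∀ m, 6 ≤ m → m < finrank (ZMod 2) V → DM m) (hQ : Quad F A Γ) (hx0 : x0 ∉ H)
    (hF : ∀ h : ↥H, h ∈ F ↔ (h : V) ∈ E) (hA : ∀ h : ↥H, h ∈ A ↔ x0 + (h : V) ∈ E) (ha : a ∈ A)
    (hA4 : A.card = 4) (ht : tA F A a = 2) (h5 : 5 ≤ (res (NA F A a) Γ).card)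
    (hNB : NoBad (NA F A a)) (hTri : ∀ S S', ¬ Triad (NA F A a : Set ↥H) S S') :
    E.card + 1 ≤ 3 * finrank (ZMod 2) V := by
  classical
  have h0 : (0 : V) ∉ E := fun h => hG.zero (by exact_mod_cast h)
  have he : x0 + (a : V) ∈ E := (hA a).1 ha
  obtain ⟨π, hsurj, hker, hctr, hdeg⟩ := c3QuadPi V E H F A x0 a hH h0 hx0 hF hA ha
  have hN0 : (0 : ↥H) ∉ (contr π E : Set ↥H) := by
    unfold contr; simp
  have hNf : ¬ HasK5 (contr π E : Set ↥H) := fun h => hG.free (HasK5.of_contr π hker E he h)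
  obtain ⟨S0, hNS, hS⟩ := c3_maxFree (contr π E : Set ↥H) hN0 hNf
  have hT : ∀ S S', ¬ Triad (contr π E : Set ↥H) S S' := by
    rw [hctr]; exact hTri
  have hfull : Full S0 ⊤ := a3Full V ↥H E π (x0 + (a : V)) S0 hG (by omega) hsurj hker he hT
    (fun x hx => hNS (by exact_mod_cast hx)) hS
  obtain ⟨-, -, hsp, hcov⟩ := c3Sides ↥H F A Γ a hQ ha
  have : Finite ↥H := Module.finite_of_finite (ZMod 2)
  have hSfin : S0.Finite := Set.toFinite S0
  have hSc : ((hSfin.toFinset : Finset ↥H) : Set ↥H) = S0 := hSfin.coe_toFinset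
  have hNS' : ∀ x ∈ NA F A a, x ∈ S0 := by
    intro x hx
    apply hNS
    rw [hctr]
    exact_mod_cast hx
  have hC : ∀ P P' : Submodule (ZMod 2) ↥H, Sep S0 ⊤ P P' → Cov (NA F A a : Set ↥H) P P' := by
    intro P P' hs
    refine ⟨hs.2.2.1, hs.2.2.2.1, fun x hx => hs.2.2.2.2.1 x (hNS' x (by exact_mod_cast hx))
      Submodule.mem_top⟩
  have hF4 : ∀ U : Submodule (ZMod 2) ↥H, finrank (ZMod 2) U = 3 → (res F U).card ≤ 5 := by
    intro U hU
    have h1 := hK4 (U.map H.subtype) (by rw [Submodule.finrank_map_subtype_eq, hU])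
    refine le_trans ?_ h1
    rw [← Finset.card_image_of_injective (res F U) (f := fun x : ↥H => (x : V))
      Subtype.val_injective, ← Set.ncard_coe_finset]
    have hfV : Finite V := Module.finite_of_finite (ZMod 2)
    apply Set.ncard_le_ncard _ (Set.toFinite _)
    intro w hw
    rw [Finset.mem_coe, Finset.mem_image] at hw
    obtain ⟨x, hx, rfl⟩ := hw
    obtain ⟨hx1, hx2⟩ := mem_res.1 hx
    exact ⟨(hF x).1 hx1, Submodule.mem_map_of_mem (f := H.subtype) hx2⟩
  have hFG : GQF (F : Set ↥H) := by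
    intro b hb
    have hcoe : ∀ n, comb (fun i => ((b i : ↥H) : V)) n = ((comb b n : ↥H) : V) := by
      intro n
      unfold comb
      rw [← Submodule.subtype_apply, map_sum]
      refine Finset.sum_congr rfl fun i _ => ?_
      split_ifs <;> simp
    obtain ⟨n, hn, hnE⟩ := claimNoGQ tabGQ V (E : Set V) hG h6 (fun i => ((b i : ↥H) : V))
      (hb.map' H.subtype (Submodule.ker_subtype H))
    refine ⟨n, hn, fun h => hnE ?_⟩
    rw [hcoe]
    exact (hF _).1 h
  have hcoreT := core1 ↥H F (NA F A a) hSfin.toFinset hF4 hFG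
    (na_sdiff F A a hQ.zero ha hA4 ht)
    (fun x hx => by rw [Set.Finite.mem_toFinset]; exact hNS' x hx)
    (by rw [Set.Finite.mem_toFinset]; exact hS.1)
    (by rw [hSc]; exact hS.2.1)
    (fun m hm hm' => hIH m hm (by omega))
  have hN := peel1 ↥H hSfin.toFinset (NA F A a) Γ
    (fun x hx => by rw [Set.Finite.mem_toFinset]; exact hNS' x hx)
    (by rw [Set.Finite.mem_toFinset]; exact hS.1)
    (by rw [hSc]; exact hfull)
    (fun Z hZ hs => (hcoreT Z hZ hs).1)
    (fun Z hZ hs => (hcoreT Z hZ hs).2)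
    hQ.dim h5
    (by
      rw [hSc]
      intro P P' hs
      exact (hcov P P' (hC P P' hs) hs.2.2.2.2.2).1)
    (by
      rw [hSc]
      intro P P' hs
      exact hNB P P' (hC P P' hs) (hfull P P' hs).1)
  have h3 := card_contr π E (x0 + (a : V)) hker h0 he
  rw [hctr, hdeg, ht] at h3
  omega

/-- the possible conclusions for an element without bad separation -/
theorem elem1 (V : Type) [AddCommGroup V] [Module (ZMod 2) V] [FiniteDimensional (ZMod 2) V]
    [DecidableEq V]
    (E : Finset V) (H : Submodule (ZMod 2) V) (F A : Finset ↥H) (Γ : Submodule (ZMod 2) ↥H)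
    (x0 : V) (a : ↥H) (hG : Good (E : Set V)) (hK4 : K4F (E : Set V))
    (h6 : 6 ≤ finrank (ZMod 2) V)
    (hIH : ∀ m, 6 ≤ m → m < finrank (ZMod 2) V → DM m) (hH : Coc4 (E : Set V) H)
    (hQ : Quad F A Γ) (hx0 : x0 ∉ H) (hF : ∀ h : ↥H, h ∈ F ↔ (h : V) ∈ E)
    (hA : ∀ h : ↥H, h ∈ A ↔ x0 + (h : V) ∈ E) (ha : a ∈ A)
    (ht : tA F A a ≤ 1 ∨ (A.card = 4 ∧ tA F A a = 2 ∧ 5 ≤ (res (NA F A a) Γ).card))
    (hN : NoBad (NA F A a)) :
    deg E (x0 + (a : V)) = 2 * tA F A a ∧
    (E.card + 1 ≤ 3 * finrank (ZMod 2) V ∨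
    ∃ (H' : Submodule (ZMod 2) V) (p b c : V), Coc4 (E : Set V) H' ∧ x0 + (a : V) ∈ H' ∧
    (∀ v ∈ E, v ∈ H' → v ∈ span (ZMod 2) ({p, x0 + (a : V), b, c} : Set V) → v = x0 + (a : V)) ∧
    ((∀ v, v ∈ E ∧ v ∉ H' ↔ v = p ∨ v = p + (x0 + (a : V)) ∨ v = b ∨ v = c) ∨
      (deg E (x0 + (a : V)) = 4 ∧ ∀ v, v ∈ E ∧ v ∉ H' ↔ v = p ∨ v = p + (x0 + (a : V)) ∨ v = b ∨
        v = b + (x0 + (a : V)) ∨ v = c))) := by
  have h0 : (0 : V) ∉ E := fun h => hG.zero (Finset.mem_coe.2 h)
  obtain ⟨π, hsurj, hker, hcontr, hdeg⟩ := c3QuadPi V E H F A x0 a hH.1 h0 hx0 hF hA ha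
  refine ⟨hdeg, ?_⟩
  by_cases hT : ∃ S S', Triad (NA F A a : Set ↥H) S S'
  · right
    obtain ⟨S, S', hT⟩ := hT
    rw [← hcontr] at hT
    exact c3TriadType V ↥H E π (x0 + (a : V)) S S' hG h6 hsurj hker ((hA a).1 ha) (by omega) hT
  · left
    push Not at hT
    rcases ht with ht | ⟨hA4, ht, h5⟩
    · have := a3Bound V E H F A Γ x0 a hG h6 hH.1 (fun m _ => LG.d3all m) hQ hx0 hF hA ha hN hT
      omega
    · exact bound1 V E H F A Γ x0 a hG hK4 h6 hH.1 hIH hQ hx0 hF hA ha hA4 ht h5 hN hT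

/-- Case II: there is a cocircuit of rank four -/
theorem caseII1 (V : Type) [AddCommGroup V] [Module (ZMod 2) V] [FiniteDimensional (ZMod 2) V]
    [DecidableEq V] (E : Finset V) (H : Submodule (ZMod 2) V) (hG : Good (E : Set V))
    (hK : K4F (E : Set V)) (h6 : 6 ≤ finrank (ZMod 2) V)
    (hIH : ∀ m, 6 ≤ m → m < finrank (ZMod 2) V → DM m)
    (hdeg : ∀ y ∈ E, Ctr (E : Set V) y → 6 ≤ deg E y) (hC : Coc4 (E : Set V) H) :
    E.card + 1 ≤ 3 * finrank (ZMod 2) V := by
  by_contra hlt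
  push Not at hlt
  by_cases hT1 : CaII_T1 E
  · obtain ⟨H1, p, x, b, c, hC1, hout, hx, hxH, huniq⟩ := hT1
    obtain ⟨F, A, Γ, x0, a, hQ, hx0, hF, hA, ha, ht, hN⟩ :=
      a3Tau c3Types V E H1 p x b c hG hK h6 hdeg hC1 hout hx hxH huniq
    obtain ⟨hd, h1 | ⟨H', p', b', c', _, _, _, h1 | ⟨h4, _⟩⟩⟩ :=
      elem1 V E H1 F A Γ x0 a hG hK h6 hIH hC1 hQ hx0 hF hA ha (Or.inl (by omega)) hN
    · omega
    · have hp1 := ((h1 p').2 (Or.inl rfl)).1
      have hp2 := ((h1 (p' + (x0 + (a : V)))).2 (Or.inr (Or.inl rfl))).1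
      have := caII_deg_pos E (x0 + (a : V)) p' hp1 hp2
      omega
    · omega
  · obtain ⟨F, A, Γ, x0, a, hQ, hx0, hF, hA, ha, hN, ht⟩ := noBadX1 V E H hG hK h6 hdeg hC
    obtain ⟨hd, h1 | ⟨H', p, b, c, hC', heH, huniq, h1 | ⟨h4, hout⟩⟩⟩ :=
      elem1 V E H F A Γ x0 a hG hK h6 hIH hC hQ hx0 hF hA ha ht hN
    · omega
    · exact hT1 ⟨H', p, x0 + (a : V), b, c, hC', h1, (hA a).1 ha, heH, huniq⟩
    · set e : V := x0 + (a : V) with hedef
      obtain ⟨F', A', Γ', x0', a', hQ', hx0', hF', hA', ha', hN', _⟩ :=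
        noBadX1 V E H' hG hK h6 hdeg hC'
      -- elements outside lie in the span
      have hspan : ∀ v, v ∈ E → v ∉ H' → v ∈ span (ZMod 2) ({p, e, b, c} : Set V) := by
        intro v hv hvH
        have hp : p ∈ span (ZMod 2) ({p, e, b, c} : Set V) := subset_span (by simp)
        have he : e ∈ span (ZMod 2) ({p, e, b, c} : Set V) := subset_span (by simp)
        have hb : b ∈ span (ZMod 2) ({p, e, b, c} : Set V) := subset_span (by simp)
        have hc : c ∈ span (ZMod 2) ({p, e, b, c} : Set V) := subset_span (by simp)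
        rcases (hout v).1 ⟨hv, hvH⟩ with h | h | h | h | h
        · rw [h]; exact hp
        · rw [h]; exact add_mem hp he
        · rw [h]; exact hb
        · rw [h]; exact add_mem hb he
        · rw [h]; exact hc
      have hnotH : ∀ h : ↥H', x0' + (h : V) ∉ H' := by
        intro h hh
        have := sub_mem hh h.2
        rw [add_sub_cancel_right] at this
        exact hx0' this
      have htA : tA F' A' a' ≤ 1 := by
        unfold tA
        rw [Finset.card_le_one]
        intro b1 hb1 b2 hb2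
        rw [Finset.mem_filter] at hb1 hb2
        have key : ∀ b1 : ↥H', b1 ∈ A' → a' + b1 ∈ F' → (b1 : V) = a' + e := by
          intro b1 hb1 hf1
          have hy : x0' + (a' : V) ∈ E := (hA' a').1 ha'
          have hy1 : x0' + (b1 : V) ∈ E := (hA' b1).1 hb1
          have hs := add_mem (hspan _ hy (hnotH a')) (hspan _ hy1 (hnotH b1))
          have e1 : x0' + (a' : V) + (x0' + (b1 : V)) = (a' : V) + b1 := by
            have : x0' + x0' = 0 := ZModModule.add_self x0'
            calc x0' + (a' : V) + (x0' + (b1 : V)) = (x0' + x0') + ((a' : V) + b1) := by abel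
              _ = _ := by rw [this, zero_add]
          rw [e1] at hs
          have hfE : ((a' + b1 : ↥H') : V) ∈ E := (hF' _).1 hf1
          rw [Submodule.coe_add] at hfE
          have hH1 : (a' : V) + b1 ∈ H' := add_mem a'.2 b1.2
          have h2 := huniq _ hfE hH1 hs
          rw [← h2, ← add_assoc, ZModModule.add_self, zero_add]
        apply Subtype.ext
        rw [key b1 hb1.1 hb1.2, key b2 hb2.1 hb2.2]
      obtain ⟨hd', h1' | ⟨H'', p', b', c', hC'', heH', huniq', h1' | ⟨h4', _⟩⟩⟩ :=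
        elem1 V E H' F' A' Γ' x0' a' hG hK h6 hIH hC' hQ' hx0' hF' hA' ha' (Or.inl htA) hN'
      · omega
      · exact hT1 ⟨H'', p', x0' + (a' : V), b', c', hC'', h1', (hA' a').1 ha', heH', huniq'⟩
      · omega

/-- THEOREM DEN: the strict density bound in rank at least six -/
theorem dm_all (n : ℕ) (hn : 6 ≤ n) : DM n := by
  induction n using Nat.strong_induction_on with
  | _ n ih =>
    classical
    intro V _ _ _ _ E hG hV
    by_contra hcon
    push Not at hcon
    have hn' : finrank (ZMod 2) V = n := hV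
    have h6 : 6 ≤ finrank (ZMod 2) V := by omega
    have h0 : (0 : V) ∉ E := fun h => hG.zero (by exact_mod_cast h)
    by_cases hK : K4F (E : Set V)
    swap
    · have hdel := aKP2 a3KL4 kHIT tabK5 p2six (finrank (ZMod 2) V) h6 V (E : Set V) hG rfl hK
      have hcard := kDelCard V (finrank (ZMod 2) V - 1) (E : Set V) (by omega) hdel
      rw [Set.ncard_coe_finset] at hcard
      omega
    -- contractible elements lie on three full lines
    have hdeg : ∀ y ∈ E, Ctr (E : Set V) y → 6 ≤ deg E y := by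
      intro y hy hc
      by_contra hd
      have hker := C3DegAux.ker y
      obtain ⟨hgW, hdW⟩ := claimCtrGood V (V ⧸ span (ZMod 2) {y}) E (span (ZMod 2) {y}).mkQ y
        (Submodule.mkQ_surjective _) hker hy hG hc
      have hc1 := card_contr (span (ZMod 2) {y}).mkQ E y hker h0 hy
      rcases Nat.lt_or_ge 6 n with h7 | h7
      · have hIHn := ih (n - 1) (by omega) (by omega) (V ⧸ span (ZMod 2) {y})
          (contr (span (ZMod 2) {y}).mkQ E) hgW (by omega)
        omega
      · have hd5 : finrank (ZMod 2) (V ⧸ span (ZMod 2) {y}) = 5 := by omega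
        have hD3 := LG.good_card (contr (span (ZMod 2) {y}).mkQ E) hgW
        rw [hd5] at hD3
        obtain ⟨b, hb, hbE⟩ := base5 (contr (span (ZMod 2) {y}).mkQ E) hgW hd5 (by omega)
        refine lq h0 hG.free hK (span (ZMod 2) {y}).mkQ y hker hy (by omega) b hb ?_ ?_
        · intro m hm hq
          exact Finset.mem_coe.1 ((hbE m hm).1 hq)
        · intro w hw
          obtain ⟨m, hm, rfl⟩ := r5s_comb_surj hd5 hb w
          exact ⟨m, hm, (hbE m hm).2 (Finset.mem_coe.2 hw), rfl⟩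
    by_cases hC : NoC4 (E : Set V)
    · have hk4 := k4_of a3KL4 kHIT p2six
      have hTR := a3TAll hk4.2.1 t6step tabGQ tr5
      obtain ⟨e, he, hCe, hde⟩ := a3CaseI V E hG h6 hC hK
        (claimNoGQ tabGQ V (E : Set V) hG h6) (fun m hm _ => hTR m hm)
      have := hdeg e he hCe
      omega
    · obtain ⟨H, hH⟩ := c3NoC4 V (E : Set V) hG (by omega) hC
      have := caseII1 V E H hG hK h6 (fun m hm hm' => ih m (by omega) hm) hdeg hH
      omega

end Pool.Agent.Work.MP_9f8812_co.EC
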