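import Pool.Agent.Work.MP_9f8812_co.EC.Dm
import Pool.Agent.Work.MP_9f8812_co.RD.Asm

/-!
# Even cycle matroids: positivity
-/

set_option autoImplicit false

namespace Pool.Agent.Work.MP_9f8812_co.EC

open Submodule Module
open Pool.Agent.WW
open Pool.Agent.Work.MP_9f8812_co.LG (Prp OK Gr Cl q ClassPos pos_of_light)

/-- the class of the sets with a graphic quotient by a subspace of dimension at most `t` -/
def Ec (t : ℕ) : Prp := fun V _ _ E Y => Y = ⊥ ∧ ∃ X : Submodule (ZMod 2) V, Cl False t E X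

theorem cl_mono {V : Type} [AddCommGroup V] [Module (ZMod 2) V] {t : ℕ} {E E' : Set V}
    {X : Submodule (ZMod 2) V} (h : Cl False t E X) (hE : E' ⊆ E) : Cl False t E' X := by
  obtain ⟨⟨m, φ, hk, hw⟩, hd, -⟩ := h
  exact ⟨⟨m, φ, hk, fun x hx => hw x (hE hx)⟩, hd, fun h => h.elim⟩

theorem ok_ec (t : ℕ) : OK (Ec t) where
  del := by
    rintro V _ _ E E' Y ⟨hY, X, hX⟩ hE _
    exact ⟨hY, X, cl_mono hX hE⟩
  quo := by
    rintro V W _ _ _ _ _ π E Y hs hg ⟨rfl, X, hX⟩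
    exact ⟨Submodule.map_bot π, _, (LG.t_OK False t).quo V W π E X hs hg hX⟩
  sub := by
    rintro V _ _ _ S E Y hS ⟨rfl, X, hX⟩
    refine ⟨?_, _, (LG.t_OK False t).sub V S E X hS hX⟩
    exact Submodule.ker_subtype S
  sep := by
    rintro V _ _ _ E Y S H ⟨-, X, hX⟩ h1 h2 h3 h4
    obtain ⟨X', hX'⟩ := (LG.t_OK False t).sep V E X S H hX h1 h2 h3 h4
    exact ⟨⊥, rfl, X', hX'⟩

/-- light functionals: `k (n - t + 1) ≤ 6 n - 2` gives `k ≤ c` -/
theorem light_ec (t c : ℕ) (ht : t ≤ 3) (hc5 : 5 ≤ c)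
    (hc : ∀ n, 6 ≤ n → ∀ d ≤ t, 6 * n < (c + 1) * (n - d + 1) + 2) (lam : ℝ)
    (h : (c : ℝ) ≤ lam) : LG.Light lam (Ec t) := by
  intro V _ _ _ E Y hE hg hn
  classical
  obtain ⟨rfl, X, hX⟩ := hE
  have h5 : (5 : ℝ) ≤ lam := by
    have : (5 : ℝ) ≤ (c : ℝ) := by exact_mod_cast hc5
    linarith
  rcases RD.core RD.pr_Del RD.pr_A4 RD.pr_Q5
    (RD.pr_P45 (RD.pr_Low (RD.pr_G1 LG.pr_Ev LG.pr_Pid LG.pr_Cnt))) lam h5 V E hg hn with
    h' | ⟨f, hf, hs⟩ | ⟨h6, -⟩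
  · exact Or.inl h'
  · exact Or.inr ⟨f, hf, bot_le, hs⟩
  · right
    have hXt : X ≠ ⊤ := by
      rintro rfl
      have := hX.2.1
      rw [finrank_top] at this
      omega
    obtain ⟨f, hf, -, hk⟩ := LG.pr_Star V E X hX.1 hXt
    refine ⟨f, hf, bot_le, ?_⟩
    have hE := dm_all (finrank (ZMod 2) V) h6 V E hg rfl
    have hle : ({x ∈ (E : Set V) | x ∉ X}).ncard ≤ E.card := by
      rw [← Set.ncard_coe_finset E]
      exact Set.ncard_le_ncard (fun x hx => hx.1) (Finset.finite_toSet E)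
    have hd := hX.2.1
    have hnum := hc _ h6 _ hd
    set k := ({x ∈ (E : Set V) | f x ≠ 0}).ncard
    set n := finrank (ZMod 2) V
    have hk5 : k ≤ c := by
      by_contra hcon
      push Not at hcon
      have hmul : (c + 1) * (n - finrank (ZMod 2) X + 1) ≤ k * (n - finrank (ZMod 2) X + 1) :=
        Nat.mul_le_mul_right _ (by omega)
      omega
    have h7 : (k : ℝ) ≤ (c : ℝ) := by exact_mod_cast hk5
    linarith

theorem class_of (t c : ℕ) (ht : t ≤ 3) (hc5 : 5 ≤ c)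
    (hc : ∀ n, 6 ≤ n → ∀ d ≤ t, 6 * n < (c + 1) * (n - d + 1) + 2) (lam : ℝ)
    (h : (c : ℝ) ≤ lam) : ClassPos lam False t := by
  intro V _ _ _ E X hX h0 hK
  have h5 : (5 : ℝ) ≤ lam := by
    have : (5 : ℝ) ≤ (c : ℝ) := by exact_mod_cast hc5
    linarith
  exact pos_of_light lam h5 (Ec t) (ok_ec t) (light_ec t c ht hc5 hc lam h) V E ⊥
    ⟨rfl, X, hX⟩ h0 hK

/-- even cycle matroids -/
theorem class_one (lam : ℝ) (h : 5 ≤ lam) : ClassPos lam False 1 :=
  class_of 1 5 (by norm_num) le_rfl (fun n hn d hd => by omega) lam (by exact_mod_cast h)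

theorem class_two (lam : ℝ) (h : 6 ≤ lam) : ClassPos lam False 2 :=
  class_of 2 6 (by norm_num) (by norm_num) (fun n hn d hd => by omega) lam (by exact_mod_cast h)

theorem class_three (lam : ℝ) (h : 8 ≤ lam) : ClassPos lam False 3 :=
  class_of 3 8 le_rfl (by norm_num) (fun n hn d hd => by omega) lam (by exact_mod_cast h)

end Pool.Agent.Work.MP_9f8812_co.EC
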