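import Pool.Agent.Work.MP_9f8812_co.EC.Fin
import Pool.Agent.Work.MP_9f8812_co.EC.Av2

/-!
# Lifts of graphic matroids of any dimension: positivity
-/

set_option autoImplicit false

namespace Pool.Agent.Work.MP_9f8812_co.EC

open Submodule Module
open Pool.Agent.WW
open Pool.Agent.Work.MP_9f8812_co
open Pool.Agent.Work.MP_9f8812_co.LG (Prp OK Gr Cl q ClassPos pos_of_light)

/-- a light functional in rank at most `t + 4` -/
theorem light_low (t : ℕ) (h1 : 1 ≤ t) (lam : ℝ) (h : 4 + (t : ℝ) ≤ lam) :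
    LG.Light lam (fun V _ _ _ X => FiniteDimensional (ZMod 2) V ∧ finrank (ZMod 2) V ≤ t + 4 ∧
      X = ⊥) := by
  intro V _ _ _ E X hX hg hn
  classical
  obtain ⟨-, hr, rfl⟩ := hX
  have h5 : (5 : ℝ) ≤ lam := by
    have : (1 : ℝ) ≤ (t : ℝ) := by exact_mod_cast h1
    linarith
  rcases Nat.lt_or_ge 5 (finrank (ZMod 2) V) with h6 | h6
  · right
    by_contra hcon
    push Not at hcon
    have hk : ∀ f : V →ₗ[ZMod 2] ZMod 2, f ≠ 0 → 5 + t ≤ RD.supp E f := by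
      intro f hf
      have h2 := hcon f hf bot_le
      by_contra hlt
      push Not at hlt
      have h3 : RD.supp E f ≤ 4 + t := by omega
      have h4 : (RD.supp E f : ℝ) ≤ 4 + (t : ℝ) := by exact_mod_cast h3
      unfold RD.supp at h4
      linarith
    have h2 := coratio V E (by omega) hg.span hg.free (5 + t) hk
    have h3 := dm_all (finrank (ZMod 2) V) h6 V E hg rfl
    omega
  · rcases RD.core RD.pr_Del RD.pr_A4 RD.pr_Q5
      (RD.pr_P45 (RD.pr_Low (RD.pr_G1 LG.pr_Ev LG.pr_Pid LG.pr_Cnt))) lam h5 V E hg hn with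
      h' | ⟨f, hf, hs⟩ | ⟨h7, -⟩
    · exact Or.inl h'
    · exact Or.inr ⟨f, hf, bot_le, hs⟩
    · omega

/-- positivity for `lam ≥ max 5 (rank)` -/
theorem low (t : ℕ) (h1 : 1 ≤ t) (lam : ℝ) (h : 4 + (t : ℝ) ≤ lam) (V : Type) [AddCommGroup V]
    [Module (ZMod 2) V] [FiniteDimensional (ZMod 2) V] (E : Finset V)
    (hr : finrank (ZMod 2) V ≤ t + 4) (h0 : (0 : V) ∉ E) (hK : ¬ HasK5 (E : Set V)) :
    0 < q lam E ⊥ := by
  have h5 : (5 : ℝ) ≤ lam := by
    have : (1 : ℝ) ≤ (t : ℝ) := by exact_mod_cast h1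
    linarith
  exact pos_of_light lam h5 _ (LG.pr_OK0 (t + 4)) (light_low t h1 lam h) V E ⊥
    ⟨inferInstance, hr, rfl⟩ h0 hK

/-- the light star from the strict density bound -/
theorem star_dm (p : Prop) (t : ℕ) {V : Type} [AddCommGroup V]
    [Module (ZMod 2) V] [FiniteDimensional (ZMod 2) V] (E : Finset V)
    (X : Submodule (ZMod 2) V) (hX : Cl p t (E : Set V) X) (hg : Good (E : Set V))
    (ht : t < finrank (ZMod 2) V) (h6 : 6 ≤ finrank (ZMod 2) V) :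
    ∃ f : V →ₗ[ZMod 2] ZMod 2, f ≠ 0 ∧ X ≤ LinearMap.ker f ∧ ∃ x c : ℕ, x ≤ t ∧ (p → x ≤ c) ∧
      ({x ∈ (E : Set V) | f x ≠ 0}).ncard * (finrank (ZMod 2) V - x + 1) + 2 + 2 * c ≤
        6 * finrank (ZMod 2) V := by
  classical
  have hXt : X ≠ ⊤ := by
    rintro rfl
    have := hX.2.1
    rw [finrank_top] at this
    omega
  obtain ⟨f, hf, hXf, hk⟩ := LG.pr_Star V E X hX.1 hXt
  have hE := dm_all (finrank (ZMod 2) V) h6 V E hg rfl
  have hsplit : ({x ∈ (E : Set V) | x ∈ X}).ncard + ({x ∈ (E : Set V) | x ∉ X}).ncard =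
      E.card := by
    rw [← Set.ncard_coe_finset E, ← Set.ncard_union_eq]
    · congr 1
      ext x
      constructor
      · rintro (h | h)
        · exact h.1
        · exact h.1
      · intro h
        by_cases hx : x ∈ X
        · exact Or.inl ⟨h, hx⟩
        · exact Or.inr ⟨h, hx⟩
    · rw [Set.disjoint_left]
      rintro x ⟨_, hx⟩ ⟨_, hx'⟩
      exact hx' hx
  refine ⟨f, hf, hXf, finrank (ZMod 2) X, ({x ∈ (E : Set V) | x ∈ X}).ncard, hX.2.1, ?_, ?_⟩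
  · intro hp
    exact LG.pr_GC V E X (hX.2.2 hp)
  · omega

/-- numbers: the spanned case -/
theorem num1 (t n x c k : ℕ) (h2 : 2 ≤ t) (hn : t + 5 ≤ n) (hx : x ≤ t + 1) (hc : x ≤ c)
    (h : k * (n - x + 1) + 2 + 2 * c ≤ 6 * n) : k ≤ 4 + t := by
  by_contra hcon
  push Not at hcon
  obtain ⟨a, rfl⟩ := Nat.exists_eq_add_of_le hn
  obtain ⟨b, hb⟩ := Nat.exists_eq_add_of_le hx
  have h1 : t + 5 + a - x + 1 = 5 + a + b := by omega
  rw [h1] at h
  have h3 : (5 + t) * (5 + a + b) ≤ k * (5 + a + b) := Nat.mul_le_mul_right _ (by omega)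
  have h4 : 2 * (a + b) ≤ t * (a + b) := Nat.mul_le_mul_right _ h2
  have h5 : (5 + t) * (5 + a + b) = 25 + 5 * t + 5 * (a + b) + t * (a + b) := by ring
  omega

/-- numbers: the general case -/
theorem num2 (t n x c k : ℕ) (h2 : 2 ≤ t) (hn : t + 5 ≤ n) (hx : x ≤ t)
    (h : k * (n - x + 1) + 2 + 2 * c ≤ 6 * n) : k ≤ 4 + t := by
  by_contra hcon
  push Not at hcon
  obtain ⟨a, rfl⟩ := Nat.exists_eq_add_of_le hn
  obtain ⟨b, hb⟩ := Nat.exists_eq_add_of_le hx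
  have h1 : t + 5 + a - x + 1 = 6 + a + b := by omega
  rw [h1] at h
  have h3 : (5 + t) * (6 + a + b) ≤ k * (6 + a + b) := Nat.mul_le_mul_right _ (by omega)
  have h4 : 2 * (a + b) ≤ t * (a + b) := Nat.mul_le_mul_right _ h2
  have h5 : (5 + t) * (6 + a + b) = 30 + 6 * t + 5 * (a + b) + t * (a + b) := by ring
  omega

theorem light_gen (p : Prop) (t s : ℕ) (h2 : 2 ≤ t) (hs : s ≤ t ∨ (p ∧ s ≤ t + 1)) (lam : ℝ)
    (h : 4 + (t : ℝ) ≤ lam) : LG.Light lam (fun _ _ _ E X => Cl p s E X) := by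
  intro V _ _ _ E X hX hg hn
  classical
  rcases Nat.lt_or_ge (t + 4) (finrank (ZMod 2) V) with h5 | h5
  · right
    obtain ⟨f, hf, hXf, x, c, hx, hc, hk⟩ := star_dm p s E X hX hg (by omega) (by omega)
    refine ⟨f, hf, hXf, ?_⟩
    have hk4 : ({x ∈ (E : Set V) | f x ≠ 0}).ncard ≤ 4 + t := by
      rcases hs with hs | ⟨hp, hs⟩
      · exact num2 t _ x c _ h2 h5 (by omega) hk
      · exact num1 t _ x c _ h2 h5 (by omega) (hc hp) hk
    have h7 : (({x ∈ (E : Set V) | f x ≠ 0}).ncard : ℝ) ≤ 4 + (t : ℝ) := by exact_mod_cast hk4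
    linarith
  · left
    exact low t (by omega) lam h V E h5 (by exact_mod_cast hg.zero) hg.free

/-- lifts of dimension at most `t`, or spanned lifts of dimension at most `t + 1` -/
theorem class_gen (p : Prop) (t s : ℕ) (h2 : 2 ≤ t) (hs : s ≤ t ∨ (p ∧ s ≤ t + 1)) (lam : ℝ)
    (h : 4 + (t : ℝ) ≤ lam) : ClassPos lam p s := by
  intro V _ _ _ E X hX h0 hK
  have h5 : (5 : ℝ) ≤ lam := by
    have : (2 : ℝ) ≤ (t : ℝ) := by exact_mod_cast h2
    linarith
  exact pos_of_light lam h5 _ (LG.t_OK p s) (light_gen p t s h2 hs lam h) V E X hX h0 hK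

end Pool.Agent.Work.MP_9f8812_co.EC
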