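import Pool.Agent.Work.MP_9f8812_co.EC.Fin2

/-!
# Graphic quotients by a projective flat
-/

set_option autoImplicit false

namespace Pool.Agent.Work.MP_9f8812_co.EC

open Submodule Module
open Pool.Agent.WW
open Pool.Agent.Work.MP_9f8812_co
open Pool.Agent.Work.MP_9f8812_co.LG (Prp OK Gr Cl q ClassPos pos_of_light wt)

/-- `E` modulo `X` is graphic and all nonzero vectors of `X` are in `E` -/
def Fu : Prp := fun _ _ _ E X => Gr E X ∧ ∀ x ∈ X, x ≠ 0 → x ∈ E

theorem ok_fu : OK Fu where
  del := by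
    rintro V _ _ E E' X ⟨⟨m, φ, hk, hw⟩, hf⟩ hE hX
    exact ⟨⟨m, φ, hk, fun x hx => hw x (hE hx)⟩, fun x hx h0 => hX x (hf x hx h0) hx⟩
  quo := by
    rintro V W _ _ _ _ _ π E X hs hg ⟨hGr, hf⟩
    refine ⟨((LG.t_OK False (finrank (ZMod 2) X)).quo V W π E X hs hg
      ⟨hGr, le_rfl, fun h => h.elim⟩).1, ?_⟩
    rintro w ⟨x, hx, rfl⟩ h0
    exact ⟨h0, x, hf x hx (fun h => h0 (by rw [h, map_zero])), rfl⟩
  sub := by
    rintro V _ _ _ S E X hS ⟨hGr, hf⟩
    refine ⟨((LG.t_OK False (finrank (ZMod 2) X)).sub V S E X hS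
      ⟨hGr, le_rfl, fun h => h.elim⟩).1, ?_⟩
    intro y hy h0
    exact hf (y : V) hy (fun h => h0 (Subtype.ext h))
  sep := by
    rintro V _ _ _ E X S H ⟨⟨m, φ, hφ, hw⟩, hf⟩ hcov hH hd hfill
    have hXSH : X ≤ S ∨ X ≤ H := by
      by_contra hcon
      push Not at hcon
      obtain ⟨h1, h2⟩ := hcon
      obtain ⟨a, haX, haS⟩ := SetLike.not_le_iff_exists.1 h1
      obtain ⟨b, hbX, hbH⟩ := SetLike.not_le_iff_exists.1 h2
      have ha0 : a ≠ 0 := fun h => haS (h ▸ zero_mem S)
      have hb0 : b ≠ 0 := fun h => hbH (h ▸ zero_mem H)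
      have haH : a ∈ H := (hcov a (hf a haX ha0)).resolve_left haS
      have hbS : b ∈ S := (hcov b (hf b hbX hb0)).resolve_right hbH
      have hab0 : a + b ≠ 0 := by
        intro h
        have : a = b := by
          have h3 := congrArg (fun z => z + b) h
          simp only [add_assoc, ZModModule.add_self, add_zero, zero_add] at h3
          exact h3
        exact haS (this ▸ hbS)
      rcases hcov (a + b) (hf _ (add_mem haX hbX) hab0) with h3 | h3
      · apply haS
        have := sub_mem h3 hbS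
        rwa [add_sub_cancel_right] at this
      · apply hbH
        have := sub_mem h3 haH
        rwa [add_sub_cancel_left] at this
    by_cases hXS : X ≤ S
    · obtain ⟨K, hgen, hKH, hKU, hpres⟩ := hfill
      have hgenE : Gen E K := hgen.trans (span_mono fun y hy => ⟨hy.1.1, hy.2⟩)
      obtain ⟨φ', hφ', hw'⟩ := LG.t_GrC V E K m φ hw hgenE
      rw [hφ] at hφ'
      have hKS : ∀ x ∈ K, x ∈ S → x = 0 := by
        intro x hx hxS
        have h1 : x ∈ K ⊓ (S ⊓ H) := ⟨hx, hxS, hKH hx⟩
        rw [hKU, mem_bot] at h1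
        exact h1
      refine ⟨(X ⊔ K).comap S.subtype, ⟨m, φ'.comp S.subtype, ?_, ?_⟩, ?_⟩
      · rw [LinearMap.ker_comp, hφ']
      · rintro y (hy | ⟨hyH, hy0⟩)
        · exact hw' _ (hw _ hy)
        · obtain ⟨x, hx, hxy⟩ := hpres (y : V) ⟨y.2, hyH⟩ (fun h => hy0 (Subtype.ext h))
          have h1 : x + (y : V) ∈ LinearMap.ker φ' := by
            rw [hφ']
            exact mem_sup_right hxy
          rw [LinearMap.mem_ker, map_add] at h1
          have h2 : φ' (y : V) = φ' x := by
            have h3 : ∀ a b : ZMod 2, a + b = 0 → b = a := by decide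
            funext i
            exact h3 _ _ (congrFun h1 i)
          rw [LinearMap.comp_apply]
          change wt (φ' (y : V)) ≤ 2
          rw [h2]
          exact hw' _ (hw _ hx.1)
      · intro y hy h0
        left
        have hy' : (y : V) ∈ X ⊔ K := hy
        obtain ⟨x, hx, k, hk, hxk⟩ := mem_sup.1 hy'
        have hk0 : k = 0 := by
          apply hKS k hk
          have : k = (y : V) - x := by rw [← hxk, add_sub_cancel_left]
          rw [this]
          exact sub_mem y.2 (hXS hx)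
        rw [hk0, add_zero] at hxk
        rw [← hxk]
        refine hf x hx ?_
        intro h
        apply h0
        apply Subtype.ext
        rw [← hxk, h]
        rfl
    · have hXH : X ≤ H := hXSH.resolve_left hXS
      have hgenE : Gen E H := hH
      obtain ⟨φ', hφ', hw'⟩ := LG.t_GrC V E H m φ hw hgenE
      rw [hφ, sup_eq_right.2 hXH] at hφ'
      refine ⟨H.comap S.subtype, ⟨m, φ'.comp S.subtype, ?_, ?_⟩, ?_⟩
      · rw [LinearMap.ker_comp, hφ']
      · rintro y (hy | ⟨hyH, hy0⟩)
        · exact hw' _ (hw _ hy)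
        · have h1 : (y : V) ∈ LinearMap.ker φ' := by
            rw [hφ']
            exact hyH
          rw [LinearMap.comp_apply]
          change wt (φ' (y : V)) ≤ 2
          rw [LinearMap.mem_ker.1 h1]
          unfold wt
          simp
      · intro y hy h0
        exact Or.inr ⟨hy, h0⟩

theorem pow1 (d : ℕ) : 3 * d < 2 ^ d + 3 := by
  rcases Nat.lt_or_ge d 2 with h | h
  · interval_cases d <;> norm_num
  · induction d, h using Nat.le_induction with
    | base => norm_num
    | succ d hd ih =>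
      have h4 : 2 ^ 2 ≤ 2 ^ d := Nat.pow_le_pow_right (by norm_num) hd
      rw [pow_succ]
      omega

theorem pow2 (n : ℕ) (hn : 6 ≤ n) : 3 * n < 2 ^ n := by
  induction n, hn using Nat.le_induction with
  | base => norm_num
  | succ d hd ih =>
    have h4 : 2 ^ 6 ≤ 2 ^ d := Nat.pow_le_pow_right (by norm_num) hd
    rw [pow_succ]
    omega

/-- the number of elements of a full subspace -/
theorem full_card {V : Type} [AddCommGroup V] [Module (ZMod 2) V] [FiniteDimensional (ZMod 2) V]
    (E : Finset V) (X : Submodule (ZMod 2) V) (hf : ∀ x ∈ X, x ≠ 0 → x ∈ (E : Set V)) :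
    2 ^ finrank (ZMod 2) X ≤ ({x ∈ (E : Set V) | x ∈ X}).ncard + 1 := by
  classical
  have hfin : Finite X := Module.finite_of_finite (ZMod 2)
  have h1 : (X : Set V).ncard = 2 ^ finrank (ZMod 2) X := by
    rw [← Nat.card_coe_set_eq]
    change Nat.card X = _
    have := Fintype.ofFinite X
    rw [Nat.card_eq_fintype_card, Module.card_eq_pow_finrank (K := ZMod 2) (V := X), ZMod.card]
  have h2 : (X : Set V) ⊆ insert 0 {x ∈ (E : Set V) | x ∈ X} := by
    intro x hx
    by_cases h0 : x = 0
    · exact Or.inl h0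
    · exact Or.inr ⟨hf x hx h0, hx⟩
  rw [← h1]
  refine (Set.ncard_le_ncard h2 ?_).trans (Set.ncard_insert_le _ _)
  exact (Set.Finite.subset (Finset.finite_toSet E) (fun x hx => hx.1)).insert 0

theorem light_fu (lam : ℝ) (h : 5 ≤ lam) : LG.Light lam Fu := by
  intro V _ _ _ E X hX hg hn
  classical
  obtain ⟨hGr, hf⟩ := hX
  rcases Nat.lt_or_ge 5 (finrank (ZMod 2) V) with h5 | h5
  · right
    have hE := dm_all (finrank (ZMod 2) V) h5 V E hg rfl
    have hc := full_card E X hf
    have hsplit : ({x ∈ (E : Set V) | x ∈ X}).ncard + ({x ∈ (E : Set V) | x ∉ X}).ncard =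
        E.card := by
      rw [← Set.ncard_coe_finset E, ← Set.ncard_union_eq]
      · congr 1
        ext x
        constructor
        · rintro (h | h)
          · exact h.1
          · exact h.1
        · intro h
          by_cases hx : x ∈ X
          · exact Or.inl ⟨h, hx⟩
          · exact Or.inr ⟨h, hx⟩
      · rw [Set.disjoint_left]
        rintro x ⟨_, hx⟩ ⟨_, hx'⟩
        exact hx' hx
    have hXt : X ≠ ⊤ := by
      rintro rfl
      rw [finrank_top] at hc
      have := pow2 (finrank (ZMod 2) V) h5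
      omega
    obtain ⟨f, hf0, hXf, hk⟩ := LG.pr_Star V E X hGr hXt
    refine ⟨f, hf0, hXf, ?_⟩
    have hd := pow1 (finrank (ZMod 2) X)
    have hdn : finrank (ZMod 2) X ≤ finrank (ZMod 2) V := Submodule.finrank_le X
    have hk5 : ({x ∈ (E : Set V) | f x ≠ 0}).ncard ≤ 5 := by
      by_contra hcon
      push Not at hcon
      have h1 : 6 * (finrank (ZMod 2) V - finrank (ZMod 2) X + 1) ≤
          ({x ∈ (E : Set V) | f x ≠ 0}).ncard *
            (finrank (ZMod 2) V - finrank (ZMod 2) X + 1) := Nat.mul_le_mul_right _ hcon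
      omega
    have h7 : (({x ∈ (E : Set V) | f x ≠ 0}).ncard : ℝ) ≤ 5 := by exact_mod_cast hk5
    linarith
  · left
    exact low 1 le_rfl lam (by norm_num; linarith) V E h5 (by exact_mod_cast hg.zero) hg.free

/-- graphic quotients by a full subspace -/
theorem fu_pos (lam : ℝ) (h : 5 ≤ lam) (V : Type) [AddCommGroup V] [Module (ZMod 2) V]
    [FiniteDimensional (ZMod 2) V] (E : Finset V) (X : Submodule (ZMod 2) V)
    (hX : Fu V (E : Set V) X) (h0 : (0 : V) ∉ E) (hK : ¬ HasK5 (E : Set V)) : 0 < q lam E ⊥ :=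
  pos_of_light lam h Fu ok_fu (light_fu lam h) V E X hX h0 hK

/-- positivity for a family of vectors from positivity for the set of its vectors -/
theorem fam_gen {n : ℕ} {ι : Type} [Fintype ι] [DecidableEq ι]
    (v : ι → (Fin n → ZMod 2)) (h0 : ∀ i, v i ≠ 0) (hK : ¬ HasK5 (Set.range v)) (lam : ℝ)
    (hlam : 0 < lam)
    (hpos : ∀ (ES : Finset ↥(span (ZMod 2) (Set.range v))),
      (ES : Set ↥(span (ZMod 2) (Set.range v))) =
        {y : ↥(span (ZMod 2) (Set.range v)) | (y : Fin n → ZMod 2) ∈ Set.range v} →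
      (0 : ↥(span (ZMod 2) (Set.range v))) ∉ ES →
      ¬ HasK5 (ES : Set ↥(span (ZMod 2) (Set.range v))) → 0 < q lam ES ⊥) :
    0 < ∑ A : Finset ι, (-1 : ℝ) ^ A.card *
      lam ^ (finrank (ZMod 2) ↥(span (ZMod 2) (Set.range v)) -
        finrank (ZMod 2) ↥(span (ZMod 2) (v '' (A : Set ι)))) := by
  classical
  have hFam := LG.pr_Fam LG.pr_Ev LG.pr_Pid LG.pr_Cnt
  have hSub := LG.pr_Sub
  have hKS := LG.pr_KS
  set S := span (ZMod 2) (Set.range v) with hS
  set E : Finset (Fin n → ZMod 2) := Finset.univ.image v with hE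
  have hEr : (E : Set (Fin n → ZMod 2)) = Set.range v := by
    rw [hE]; simp
  have hES : ∀ x ∈ (E : Set (Fin n → ZMod 2)), x ∈ S := by
    intro x hx
    rw [hEr] at hx
    exact subset_span hx
  set ES : Finset ↥S := E.subtype (fun x => x ∈ S) with hESd
  have hmap : ES.map ⟨Subtype.val, Subtype.val_injective⟩ = E := by
    rw [hESd, ← Finset.filter_true_of_mem (s := E) (p := fun x => x ∈ S)
      (fun x hx => hES x (by exact_mod_cast hx))]
    ext x
    simp
  have hset : (ES : Set ↥S) = {y : ↥S | (y : Fin n → ZMod 2) ∈ Set.range v} := by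
    rw [← hEr]
    ext y
    simp [hESd]
  have hq : 0 < q lam ES ⊥ := by
    refine hpos ES hset ?_ ?_
    · intro h
      have h1 : (0 : ↥S) ∈ (ES : Set ↥S) := by exact_mod_cast h
      rw [hset] at h1
      obtain ⟨i, hi⟩ := h1
      exact h0 i hi
    · intro h
      rw [hset] at h
      exact hK (hKS (Fin n → ZMod 2) S (Set.range v) h)
  have h1 := hSub (Fin n → ZMod 2) lam S ES ⊥
  rw [hmap, Submodule.map_bot] at h1
  have hqE : 0 < q lam E ⊥ := by
    rw [h1]
    positivity
  rw [hE, ← hFam (Fin n → ZMod 2) ι lam v] at hqE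
  have hfac : ∑ A : Finset ι, (-1 : ℝ) ^ A.card * lam ^ (finrank (ZMod 2) (Fin n → ZMod 2) -
      finrank (ZMod 2) ↥(span (ZMod 2) (v '' (A : Set ι)))) =
      lam ^ (finrank (ZMod 2) (Fin n → ZMod 2) - finrank (ZMod 2) ↥S) *
      ∑ A : Finset ι, (-1 : ℝ) ^ A.card *
        lam ^ (finrank (ZMod 2) ↥S - finrank (ZMod 2) ↥(span (ZMod 2) (v '' (A : Set ι)))) := by
    rw [Finset.mul_sum]
    refine Finset.sum_congr rfl fun A _ => ?_
    have k1 : finrank (ZMod 2) ↥(span (ZMod 2) (v '' (A : Set ι))) ≤ finrank (ZMod 2) ↥S :=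
      Submodule.finrank_mono (Submodule.span_mono (Set.image_subset_range v _))
    have k2 : finrank (ZMod 2) ↥S ≤ finrank (ZMod 2) (Fin n → ZMod 2) := Submodule.finrank_le _
    have k3 : finrank (ZMod 2) (Fin n → ZMod 2) -
        finrank (ZMod 2) ↥(span (ZMod 2) (v '' (A : Set ι))) =
        (finrank (ZMod 2) (Fin n → ZMod 2) - finrank (ZMod 2) ↥S) +
        (finrank (ZMod 2) ↥S - finrank (ZMod 2) ↥(span (ZMod 2) (v '' (A : Set ι)))) := by omega
    rw [k3, pow_add]
    ring
  rw [hfac] at hqE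
  exact (mul_pos_iff_of_pos_left (by positivity)).1 hqE

end Pool.Agent.Work.MP_9f8812_co.EC
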