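import Pool.Agent.Work.MP_9f8812_co.EC.Full

/-!
# Graphic quotients by a dense subspace
-/

set_option autoImplicit false

namespace Pool.Agent.Work.MP_9f8812_co.EC

open Submodule Module
open Pool.Agent.WW
open Pool.Agent.Work.MP_9f8812_co
open Pool.Agent.Work.MP_9f8812_co.LG (Prp OK Gr Cl q ClassPos pos_of_light wt)

/-- `E` modulo `X` is graphic, `X` has dimension at most three, all nonzero vectors of `X` are in
`E` if the dimension is two, and all but at most one if it is three -/
def De : Prp := fun _ _ _ E X => Gr E X ∧ finrank (ZMod 2) X ≤ 3 ∧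
  (finrank (ZMod 2) X = 2 → ∀ x ∈ X, x ≠ 0 → x ∈ E) ∧
  (finrank (ZMod 2) X = 3 → ∃ z, ∀ x ∈ X, x ≠ 0 → x ≠ z → x ∈ E)

theorem span_one {V : Type} [AddCommGroup V] [Module (ZMod 2) V] (z : V) :
    finrank (ZMod 2) ↥(span (ZMod 2) ({z} : Set V)) ≤ 1 :=
  (finrank_span_le_card ({z} : Set V)).trans (by simp)

theorem add_z {V : Type} [AddCommGroup V] [Module (ZMod 2) V] {a z : V} : a + (a + z) = z := by
  rw [← add_assoc, ZModModule.add_self, zero_add]

/-- a dense plane is contained in every subspace which contains its elements -/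
theorem le_of_dense {V : Type} [AddCommGroup V] [Module (ZMod 2) V] [FiniteDimensional (ZMod 2) V]
    (X S : Submodule (ZMod 2) V) (z : V) (h3 : finrank (ZMod 2) X = 3)
    (h : ∀ x ∈ X, x ≠ 0 → x ≠ z → x ∈ S) : X ≤ S := by
  intro x hx
  by_cases h0 : x = 0
  · rw [h0]; exact zero_mem _
  by_cases hz : x = z
  · -- another vector
    have hex : ∃ a ∈ X, a ≠ 0 ∧ a ≠ z := by
      by_contra hcon
      push Not at hcon
      have h1 : X ≤ span (ZMod 2) {z} := by
        intro y hy
        by_cases hy0 : y = 0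
        · rw [hy0]; exact zero_mem _
        · rw [hcon y hy hy0]; exact mem_span_singleton_self z
      have h2 := Submodule.finrank_mono h1
      have h4 : finrank (ZMod 2) ↥(span (ZMod 2) ({z} : Set V)) ≤ 1 := span_one z
      omega
    obtain ⟨a, haX, ha0, haz⟩ := hex
    have h1 : a + x ∈ X := add_mem haX hx
    have h2 : a + x ≠ 0 := by
      intro h
      apply haz
      rw [hz] at h
      have := congrArg (fun y => y + z) h
      simpa only [add_assoc, ZModModule.add_self, add_zero, zero_add] using this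
    have h3' : a + x ≠ z := by
      intro h
      apply ha0
      rw [hz] at h
      exact add_eq_right.1 h
    have h4 := add_mem (h a haX ha0 haz) (h _ h1 h2 h3')
    rwa [add_z] at h4
  · exact h x hx h0 hz

/-- two subspaces which cover the elements of a dense subspace: one contains it -/
theorem side_of_dense {V : Type} [AddCommGroup V] [Module (ZMod 2) V]
    [FiniteDimensional (ZMod 2) V] (E : Set V) (X S H : Submodule (ZMod 2) V)
    (h23 : finrank (ZMod 2) X = 2 ∨ finrank (ZMod 2) X = 3)
    (hf : finrank (ZMod 2) X = 2 → ∀ x ∈ X, x ≠ 0 → x ∈ E)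
    (hg : finrank (ZMod 2) X = 3 → ∃ z, ∀ x ∈ X, x ≠ 0 → x ≠ z → x ∈ E)
    (hcov : ∀ x ∈ E, x ∈ S ∨ x ∈ H) : X ≤ S ∨ X ≤ H := by
  by_contra hcon
  push Not at hcon
  obtain ⟨h1, h2⟩ := hcon
  obtain ⟨a, haX, haS⟩ := SetLike.not_le_iff_exists.1 h1
  obtain ⟨b, hbX, hbH⟩ := SetLike.not_le_iff_exists.1 h2
  -- a vector outside both
  obtain ⟨u, huX, huS, huH⟩ : ∃ u ∈ X, u ∉ S ∧ u ∉ H := by
    by_cases haH : a ∈ H
    · by_cases hbS : b ∈ S
      · refine ⟨a + b, add_mem haX hbX, ?_, ?_⟩
        · intro h3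
          apply haS
          have := sub_mem h3 hbS
          rwa [add_sub_cancel_right] at this
        · intro h3
          apply hbH
          have := sub_mem h3 haH
          rwa [add_sub_cancel_left] at this
      · exact ⟨b, hbX, hbS, hbH⟩
    · exact ⟨a, haX, haS, haH⟩
  have hu0 : u ≠ 0 := fun h => huS (h ▸ zero_mem S)
  have huE : u ∉ E := fun h => (hcov u h).elim huS huH
  rcases h23 with h23 | h23
  · exact huE (hf h23 u huX hu0)
  · obtain ⟨z, hz⟩ := hg h23
    have huz : u = z := by
      by_contra h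
      exact huE (hz u huX hu0 h)
    subst huz
    -- all other nonzero vectors are covered
    have hc : ∀ x ∈ X, x ≠ 0 → x ≠ u → x ∈ S ∨ x ∈ H := fun x hx h0 h => hcov x (hz x hx h0 h)
    have hSu : ∀ x ∈ S, u + x ∉ S := by
      intro x hx h
      apply huS
      have := sub_mem h hx
      rwa [add_sub_cancel_right] at this
    have hHu : ∀ x ∈ H, u + x ∉ H := by
      intro x hx h
      apply huH
      have := sub_mem h hx
      rwa [add_sub_cancel_right] at this
    have hne0 : ∀ x, x ≠ u → u + x ≠ 0 := by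
      intro x hx h
      apply hx
      have := congrArg (fun y => u + y) h
      simp only [add_z, add_zero] at this
      exact this
    have hneu : ∀ x : V, x ≠ 0 → u + x ≠ u := fun x hx h => hx (add_eq_left.1 h)
    -- in each pair `x, u + x` one is in `S`, the other one in `H`
    have pick : ∀ x ∈ X, x ≠ 0 → x ≠ u → ∃ y, (y = x ∨ y = u + x) ∧ y ∈ S ∧ u + y ∈ H := by
      intro x hx h0 hxu
      rcases hc x hx h0 hxu with h | h
      · exact ⟨x, Or.inl rfl, h,
          (hc (u + x) (add_mem huX hx) (hne0 x hxu) (hneu x h0)).resolve_left (hSu x h)⟩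
      · refine ⟨u + x, Or.inr rfl,
          (hc (u + x) (add_mem huX hx) (hne0 x hxu) (hneu x h0)).resolve_right (hHu x h), ?_⟩
        rw [add_z]
        exact h
    have hex1 : ∃ x ∈ X, x ∉ span (ZMod 2) ({u} : Set V) := by
      by_contra hcon
      push Not at hcon
      have h3 := Submodule.finrank_mono (show X ≤ span (ZMod 2) {u} from hcon)
      have h4 : finrank (ZMod 2) ↥(span (ZMod 2) ({u} : Set V)) ≤ 1 := span_one u
      omega
    obtain ⟨x1, hx1X, hx1⟩ := hex1
    have hx10 : x1 ≠ 0 := fun h => hx1 (h ▸ zero_mem _)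
    have hx1u : x1 ≠ u := fun h => hx1 (by rw [h]; exact mem_span_singleton_self u)
    have hex2 : ∃ x ∈ X, x ∉ span (ZMod 2) ({u} : Set V) ⊔ span (ZMod 2) ({x1} : Set V) := by
      by_contra hcon
      push Not at hcon
      have h3 := Submodule.finrank_mono
        (show X ≤ span (ZMod 2) {u} ⊔ span (ZMod 2) {x1} from hcon)
      have h4 : finrank (ZMod 2) ↥(span (ZMod 2) ({u} : Set V)) ≤ 1 := span_one u
      have h5 : finrank (ZMod 2) ↥(span (ZMod 2) ({x1} : Set V)) ≤ 1 :=
        span_one x1
      have h6 := Submodule.finrank_add_le_finrank_add_finrank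
        (span (ZMod 2) ({u} : Set V)) (span (ZMod 2) ({x1} : Set V))
      omega
    obtain ⟨x2, hx2X, hx2⟩ := hex2
    have mu : u ∈ span (ZMod 2) ({u} : Set V) ⊔ span (ZMod 2) ({x1} : Set V) :=
      mem_sup_left (mem_span_singleton_self u)
    have m1 : x1 ∈ span (ZMod 2) ({u} : Set V) ⊔ span (ZMod 2) ({x1} : Set V) :=
      mem_sup_right (mem_span_singleton_self x1)
    have hx20 : x2 ≠ 0 := fun h => hx2 (h ▸ zero_mem _)
    have hx2u : x2 ≠ u := fun h => hx2 (h ▸ mu)
    obtain ⟨y1, e1, y1S, y1H⟩ := pick x1 hx1X hx10 hx1u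
    obtain ⟨y2, e2, y2S, y2H⟩ := pick x2 hx2X hx20 hx2u
    have y1m : y1 ∈ span (ZMod 2) ({u} : Set V) ⊔ span (ZMod 2) ({x1} : Set V) := by
      rcases e1 with rfl | rfl
      · exact m1
      · exact add_mem mu m1
    have y1X : y1 ∈ X := by
      rcases e1 with rfl | rfl
      · exact hx1X
      · exact add_mem huX hx1X
    have y2X : y2 ∈ X := by
      rcases e2 with rfl | rfl
      · exact hx2X
      · exact add_mem huX hx2X
    have hnot : y1 + y2 ∉ span (ZMod 2) ({u} : Set V) ⊔ span (ZMod 2) ({x1} : Set V) := by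
      intro h
      have h3 := add_mem y1m h
      rw [add_z] at h3
      rcases e2 with rfl | rfl
      · exact hx2 h3
      · have h4 := add_mem mu h3
        rw [add_z] at h4
        exact hx2 h4
    have hw0 : y1 + y2 ≠ 0 := fun h => hnot (h ▸ zero_mem _)
    have hwu : y1 + y2 ≠ u := fun h => hnot (h ▸ mu)
    have hwS : y1 + y2 ∈ S := add_mem y1S y2S
    have hwH : y1 + y2 ∈ H := by
      have h3 := add_mem y1H y2H
      have e : u + y1 + (u + y2) = y1 + y2 := by
        calc u + y1 + (u + y2) = (u + u) + (y1 + y2) := by abel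
          _ = y1 + y2 := by rw [ZModModule.add_self, zero_add]
      rwa [e] at h3
    rcases hc (u + (y1 + y2)) (add_mem huX (add_mem y1X y2X)) (hne0 _ hwu) (hneu _ hw0) with h | h
    · exact hSu _ hwS h
    · exact hHu _ hwH h

theorem ok_de : OK De where
  del := by
    rintro V _ _ E E' X ⟨⟨m, φ, hk, hw⟩, h3, hf, hg⟩ hE hX
    refine ⟨⟨m, φ, hk, fun x hx => hw x (hE hx)⟩, h3,
      fun h2 x hx h0 => hX x (hf h2 x hx h0) hx, fun h2 => ?_⟩
    obtain ⟨z, hz⟩ := hg h2
    exact ⟨z, fun x hx h0 h => hX x (hz x hx h0 h) hx⟩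
  quo := by
    rintro V W _ _ _ _ _ π E X hs hg' ⟨hGr, h3, hf, hg⟩
    have hle : finrank (ZMod 2) ↥(X.map π) ≤ finrank (ZMod 2) X := Submodule.finrank_map_le π X
    refine ⟨((LG.t_OK False (finrank (ZMod 2) X)).quo V W π E X hs hg'
      ⟨hGr, le_rfl, fun h => h.elim⟩).1, hle.trans h3, ?_, ?_⟩
    · rintro h2 w ⟨x, hx, rfl⟩ h0
      have hx0 : x ≠ 0 := fun h => h0 (by rw [h, map_zero])
      refine ⟨h0, ?_⟩
      have h23 : finrank (ZMod 2) X = 2 ∨ finrank (ZMod 2) X = 3 := by omega
      rcases h23 with h23 | h23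
      · exact ⟨x, hf h23 x hx hx0, rfl⟩
      · obtain ⟨z, hz⟩ := hg h23
        by_cases hxz : x = z
        · -- a vector of the kernel in `X`
          have hex : ∃ p ∈ X, π p = 0 ∧ p ≠ 0 := by
            by_contra hcon
            push Not at hcon
            have hinj : Function.Injective (π.domRestrict X) := by
              rw [← LinearMap.ker_eq_bot, eq_bot_iff]
              intro y hy
              have hy' : π (y : V) = 0 := hy
              rw [mem_bot]
              exact Subtype.ext (hcon y y.2 hy')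
            have h4 := LinearMap.finrank_range_of_inj hinj
            have h5 : LinearMap.range (π.domRestrict X) = X.map π := by
              ext w
              constructor
              · rintro ⟨y, rfl⟩
                exact ⟨y, y.2, rfl⟩
              · rintro ⟨y, hy, rfl⟩
                exact ⟨⟨y, hy⟩, rfl⟩
            rw [h5] at h4
            omega
          obtain ⟨p, hp, hp0, hpn⟩ := hex
          refine ⟨x + p, hz _ (add_mem hx hp) ?_ ?_, by rw [map_add, hp0, add_zero]⟩
          · intro h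
            apply h0
            have := congrArg π h
            rwa [map_add, hp0, add_zero, map_zero] at this
          · rw [← hxz]
            exact fun h => hpn (add_eq_left.1 h)
        · exact ⟨x, hz x hx hx0 hxz, rfl⟩
    · intro h2
      have h23 : finrank (ZMod 2) X = 3 := by omega
      obtain ⟨z, hz⟩ := hg h23
      refine ⟨π z, ?_⟩
      rintro w ⟨x, hx, rfl⟩ h0 hne
      exact ⟨h0, x, hz x hx (fun h => h0 (by rw [h, map_zero])) (fun h => hne (by rw [h])), rfl⟩
  sub := by
    rintro V _ _ _ S E X hS ⟨hGr, h3, hf, hg⟩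
    have hmap : (X.comap S.subtype).map S.subtype = S ⊓ X := Submodule.map_comap_subtype S X
    have hfr : finrank (ZMod 2) ↥(X.comap S.subtype) = finrank (ZMod 2) ↥(S ⊓ X) := by
      rw [← hmap, Submodule.finrank_map_subtype_eq]
    have hle : finrank (ZMod 2) ↥(S ⊓ X) ≤ finrank (ZMod 2) X :=
      Submodule.finrank_mono inf_le_right
    have hX3 : finrank (ZMod 2) X = 3 → X ≤ S := by
      intro h
      obtain ⟨z, hz⟩ := hg h
      exact le_of_dense X S z h (fun x hx h0 hxz => hS x (hz x hx h0 hxz))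
    refine ⟨((LG.t_OK False (finrank (ZMod 2) X)).sub V S E X hS
      ⟨hGr, le_rfl, fun h => h.elim⟩).1, by omega, ?_, ?_⟩
    · intro h2 y hy h0
      have h23 : finrank (ZMod 2) X = 2 ∨ finrank (ZMod 2) X = 3 := by omega
      rcases h23 with h23 | h23
      · exact hf h23 (y : V) hy (fun h => h0 (Subtype.ext h))
      · have := inf_eq_right.2 (hX3 h23)
        rw [this] at hfr
        omega
    · intro h2
      obtain ⟨z, hz⟩ := hg (by omega)
      by_cases hzS : z ∈ S
      · exact ⟨⟨z, hzS⟩, fun y hy h0 hne => hz (y : V) hy (fun h => h0 (Subtype.ext h))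
          (fun h => hne (Subtype.ext h))⟩
      · exact ⟨0, fun y hy h0 _ => hz (y : V) hy (fun h => h0 (Subtype.ext h))
          (fun h => hzS (h ▸ y.2))⟩
  sep := by
    rintro V _ _ _ E X S H ⟨hGr, h3, hf, hg⟩ hcov hH hd hfill
    rcases Nat.lt_or_ge 1 (finrank (ZMod 2) X) with h1 | h1
    swap
    · obtain ⟨X', hX'⟩ := (LG.t_OK False 1).sep V E X S H ⟨hGr, h1, fun h => h.elim⟩ hcov hH hd
        hfill
      refine ⟨X', hX'.1, hX'.2.1.trans (by norm_num), fun h => ?_, fun h => ?_⟩
      · have := hX'.2.1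
        omega
      · have := hX'.2.1
        omega
    obtain ⟨m, φ, hφ, hw⟩ := hGr
    have hXSH := side_of_dense E X S H (by omega) hf hg hcov
    by_cases hXS : X ≤ S
    · obtain ⟨K, hgen, hKH, hKU, hpres⟩ := hfill
      have hgenE : Gen E K := hgen.trans (span_mono fun y hy => ⟨hy.1.1, hy.2⟩)
      obtain ⟨φ', hφ', hw'⟩ := LG.t_GrC V E K m φ hw hgenE
      rw [hφ] at hφ'
      have hKS : ∀ x ∈ K, x ∈ S → x = 0 := by
        intro x hx hxS
        have h1 : x ∈ K ⊓ (S ⊓ H) := ⟨hx, hxS, hKH hx⟩
        rw [hKU, mem_bot] at h1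
        exact h1
      have hcom : (X ⊔ K).comap S.subtype = X.comap S.subtype := by
        ext y
        constructor
        · intro hy
          have hy' : (y : V) ∈ X ⊔ K := hy
          obtain ⟨x, hx, k, hk, hxk⟩ := mem_sup.1 hy'
          have hk0 : k = 0 := by
            apply hKS k hk
            have : k = (y : V) - x := by rw [← hxk, add_sub_cancel_left]
            rw [this]
            exact sub_mem y.2 (hXS hx)
          rw [hk0, add_zero] at hxk
          change (y : V) ∈ X
          rw [← hxk]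
          exact hx
        · intro hy
          exact mem_sup_left (show (y : V) ∈ X from hy)
      have hmap : (X.comap S.subtype).map S.subtype = S ⊓ X := Submodule.map_comap_subtype S X
      have hfr : finrank (ZMod 2) ↥(X.comap S.subtype) = finrank (ZMod 2) X := by
        rw [← Submodule.finrank_map_subtype_eq S (X.comap S.subtype), hmap, inf_eq_right.2 hXS]
      refine ⟨X.comap S.subtype, ⟨m, φ'.comp S.subtype, ?_, ?_⟩, by omega, ?_, ?_⟩
      · rw [LinearMap.ker_comp, hφ', hcom]
      · rintro y (hy | ⟨hyH, hy0⟩)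
        · exact hw' _ (hw _ hy)
        · obtain ⟨x, hx, hxy⟩ := hpres (y : V) ⟨y.2, hyH⟩ (fun h => hy0 (Subtype.ext h))
          have h1 : x + (y : V) ∈ LinearMap.ker φ' := by
            rw [hφ']
            exact mem_sup_right hxy
          rw [LinearMap.mem_ker, map_add] at h1
          have h2 : φ' (y : V) = φ' x := by
            have h3 : ∀ a b : ZMod 2, a + b = 0 → b = a := by decide
            funext i
            exact h3 _ _ (congrFun h1 i)
          rw [LinearMap.comp_apply]
          change wt (φ' (y : V)) ≤ 2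
          rw [h2]
          exact hw' _ (hw _ hx.1)
      · intro h2 y hy h0
        exact Or.inl (hf (by omega) (y : V) hy (fun h => h0 (Subtype.ext h)))
      · intro h2
        obtain ⟨z, hz⟩ := hg (by omega)
        by_cases hzS : z ∈ S
        · exact ⟨⟨z, hzS⟩, fun y hy h0 hne => Or.inl (hz (y : V) hy
            (fun h => h0 (Subtype.ext h)) (fun h => hne (Subtype.ext h)))⟩
        · exact ⟨0, fun y hy h0 _ => Or.inl (hz (y : V) hy (fun h => h0 (Subtype.ext h))
            (fun h => hzS (h ▸ y.2)))⟩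
    · have hXH : X ≤ H := hXSH.resolve_left hXS
      have hgenE : Gen E H := hH
      obtain ⟨φ', hφ', hw'⟩ := LG.t_GrC V E H m φ hw hgenE
      rw [hφ, sup_eq_right.2 hXH] at hφ'
      have hmap : (H.comap S.subtype).map S.subtype = S ⊓ H := Submodule.map_comap_subtype S H
      have hfr : finrank (ZMod 2) ↥(H.comap S.subtype) = finrank (ZMod 2) ↥(S ⊓ H) := by
        rw [← hmap, Submodule.finrank_map_subtype_eq]
      refine ⟨H.comap S.subtype, ⟨m, φ'.comp S.subtype, ?_, ?_⟩, by omega, ?_, ?_⟩
      · rw [LinearMap.ker_comp, hφ']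
      · rintro y (hy | ⟨hyH, hy0⟩)
        · exact hw' _ (hw _ hy)
        · have h1 : (y : V) ∈ LinearMap.ker φ' := by
            rw [hφ']
            exact hyH
          rw [LinearMap.comp_apply]
          change wt (φ' (y : V)) ≤ 2
          rw [LinearMap.mem_ker.1 h1]
          unfold wt
          simp
      · intro _ y hy h0
        exact Or.inr ⟨hy, h0⟩
      · intro h
        omega

/-- the number of elements of a dense subspace -/
theorem dense_card {V : Type} [AddCommGroup V] [Module (ZMod 2) V] [FiniteDimensional (ZMod 2) V]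
    (E : Finset V) (X : Submodule (ZMod 2) V) (h : De V (E : Set V) X) :
    3 * finrank (ZMod 2) X ≤ ({x ∈ (E : Set V) | x ∈ X}).ncard + 3 := by
  classical
  obtain ⟨-, h3, hf, hg⟩ := h
  have hfin : Finite X := Module.finite_of_finite (ZMod 2)
  have h1 : (X : Set V).ncard = 2 ^ finrank (ZMod 2) X := by
    rw [← Nat.card_coe_set_eq]
    change Nat.card X = _
    have := Fintype.ofFinite X
    rw [Nat.card_eq_fintype_card, Module.card_eq_pow_finrank (K := ZMod 2) (V := X), ZMod.card]
  have hE : ({x ∈ (E : Set V) | x ∈ X}).Finite :=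
    Set.Finite.subset (Finset.finite_toSet E) (fun x hx => hx.1)
  have hd : finrank (ZMod 2) X ≤ 1 ∨ finrank (ZMod 2) X = 2 ∨ finrank (ZMod 2) X = 3 := by omega
  rcases hd with hd | hd | hd
  · omega
  · have h2 := full_card E X (hf hd)
    have e4 : 2 ^ 2 = 4 := by norm_num
    rw [hd, e4] at h2
    rw [hd]
    omega
  · obtain ⟨z, hz⟩ := hg hd
    have h2 : (X : Set V) ⊆ insert 0 (insert z {x ∈ (E : Set V) | x ∈ X}) := by
      intro x hx
      by_cases h0 : x = 0
      · exact Or.inl h0
      · by_cases hxz : x = z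
        · exact Or.inr (Or.inl hxz)
        · exact Or.inr (Or.inr ⟨hz x hx h0 hxz, hx⟩)
    have h4 := Set.ncard_le_ncard h2 ((hE.insert z).insert 0)
    have h5 := Set.ncard_insert_le 0 (insert z {x ∈ (E : Set V) | x ∈ X})
    have h6 := Set.ncard_insert_le z {x ∈ (E : Set V) | x ∈ X}
    have e8 : 2 ^ 3 = 8 := by norm_num
    rw [h1, hd, e8] at h4
    rw [hd]
    omega

theorem light_de (lam : ℝ) (h : 5 ≤ lam) : LG.Light lam De := by
  intro V _ _ _ E X hX hg hn
  classical
  rcases Nat.lt_or_ge 5 (finrank (ZMod 2) V) with h5 | h5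
  · right
    have hE := dm_all (finrank (ZMod 2) V) h5 V E hg rfl
    have hc := dense_card E X hX
    have hsplit : ({x ∈ (E : Set V) | x ∈ X}).ncard + ({x ∈ (E : Set V) | x ∉ X}).ncard =
        E.card := by
      rw [← Set.ncard_coe_finset E, ← Set.ncard_union_eq]
      · congr 1
        ext x
        constructor
        · rintro (h | h)
          · exact h.1
          · exact h.1
        · intro h
          by_cases hx : x ∈ X
          · exact Or.inl ⟨h, hx⟩
          · exact Or.inr ⟨h, hx⟩
      · rw [Set.disjoint_left]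
        rintro x ⟨_, hx⟩ ⟨_, hx'⟩
        exact hx' hx
    have hd3 := hX.2.1
    have hXt : X ≠ ⊤ := by
      rintro rfl
      rw [finrank_top] at hd3
      omega
    obtain ⟨f, hf0, hXf, hk⟩ := LG.pr_Star V E X hX.1 hXt
    refine ⟨f, hf0, hXf, ?_⟩
    have hk5 : ({x ∈ (E : Set V) | f x ≠ 0}).ncard ≤ 5 := by
      by_contra hcon
      push Not at hcon
      have h1 : 6 * (finrank (ZMod 2) V - finrank (ZMod 2) X + 1) ≤
          ({x ∈ (E : Set V) | f x ≠ 0}).ncard *
            (finrank (ZMod 2) V - finrank (ZMod 2) X + 1) := Nat.mul_le_mul_right _ hcon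
      omega
    have h7 : (({x ∈ (E : Set V) | f x ≠ 0}).ncard : ℝ) ≤ 5 := by exact_mod_cast hk5
    linarith
  · left
    exact low 1 le_rfl lam (by norm_num; linarith) V E h5 (by exact_mod_cast hg.zero) hg.free

/-- graphic quotients by a dense subspace -/
theorem de_pos (lam : ℝ) (h : 5 ≤ lam) (V : Type) [AddCommGroup V] [Module (ZMod 2) V]
    [FiniteDimensional (ZMod 2) V] (E : Finset V) (X : Submodule (ZMod 2) V)
    (hX : De V (E : Set V) X) (h0 : (0 : V) ∉ E) (hK : ¬ HasK5 (E : Set V)) : 0 < q lam E ⊥ :=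
  pos_of_light lam h De ok_de (light_de lam h) V E X hX h0 hK

/-- from the number of elements to the dense subspaces -/
theorem dense_of_card {V : Type} [AddCommGroup V] [Module (ZMod 2) V]
    [FiniteDimensional (ZMod 2) V] (E : Set V) (X : Submodule (ZMod 2) V) (h0 : (0 : V) ∉ E)
    (hGr : Gr E X) (h3 : finrank (ZMod 2) X ≤ 3)
    (hc : 3 * finrank (ZMod 2) X ≤ ({x | x ∈ E ∧ x ∈ X}).ncard + 3) : De V E X := by
  classical
  have hfin : Finite X := Module.finite_of_finite (ZMod 2)
  have hXf : (X : Set V).Finite := Set.toFinite _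
  have h1 : (X : Set V).ncard = 2 ^ finrank (ZMod 2) X := by
    rw [← Nat.card_coe_set_eq]
    change Nat.card X = _
    have := Fintype.ofFinite X
    rw [Nat.card_eq_fintype_card, Module.card_eq_pow_finrank (K := ZMod 2) (V := X), ZMod.card]
  have hsub : {x | x ∈ E ∧ x ∈ X} ⊆ (X : Set V) := fun x hx => hx.2
  set M : Set V := {x | x ∈ X ∧ x ≠ 0 ∧ x ∉ E} with hM
  have hMsub : insert 0 M ⊆ (X : Set V) := by
    rintro x (hx | hx)
    · rw [hx]; exact zero_mem X
    · exact hx.1
  have hun : (insert 0 M) ∪ {x | x ∈ E ∧ x ∈ X} = (X : Set V) := by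
    ext x
    constructor
    · rintro (hx | hx)
      · exact hMsub hx
      · exact hx.2
    · intro hx
      by_cases hx0 : x = 0
      · exact Or.inl (Or.inl hx0)
      · by_cases hxE : x ∈ E
        · exact Or.inr ⟨hxE, hx⟩
        · exact Or.inl (Or.inr ⟨hx, hx0, hxE⟩)
  have hdis : Disjoint (insert 0 M) {x | x ∈ E ∧ x ∈ X} := by
    rw [Set.disjoint_left]
    rintro x (hx | hx) ⟨hxE, _⟩
    · exact h0 (hx ▸ hxE)
    · exact hx.2.2 hxE
  have hcard := Set.ncard_union_eq hdis (hXf.subset hMsub) (hXf.subset hsub)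
  rw [hun, h1, Set.ncard_insert_of_notMem (fun h => h.2.1 rfl)
    (hXf.subset (fun x hx => hx.1))] at hcard
  have hMf : M.Finite := hXf.subset (fun x hx => hx.1)
  refine ⟨hGr, h3, fun hd x hx hx0 => ?_, fun hd => ?_⟩
  · rw [hd] at hcard hc
    norm_num at hcard
    have hM0 : M.ncard = 0 := by omega
    rw [Set.ncard_eq_zero hMf] at hM0
    by_contra hxE
    have : x ∈ M := ⟨hx, hx0, hxE⟩
    rw [hM0] at this
    exact this
  · rw [hd] at hcard hc
    norm_num at hcard
    have hM1 : M.ncard ≤ 1 := by omega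
    rw [Set.ncard_le_one hMf] at hM1
    by_cases hne : M.Nonempty
    · obtain ⟨z, hz⟩ := hne
      refine ⟨z, fun x hx hx0 hxz => ?_⟩
      by_contra hxE
      exact hxz (hM1 x ⟨hx, hx0, hxE⟩ z hz)
    · rw [Set.not_nonempty_iff_eq_empty] at hne
      refine ⟨0, fun x hx hx0 _ => ?_⟩
      by_contra hxE
      have : x ∈ M := ⟨hx, hx0, hxE⟩
      rw [hne] at this
      exact this

end Pool.Agent.Work.MP_9f8812_co.EC
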