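import Pool.Agent.Work.MP_9f8812_co.EC.LqT

/-!
# Lifts of the quadric `Q(4,2)`: the lemma
-/

set_option autoImplicit false

namespace Pool.Agent.Work.MP_9f8812_co.EC

open Submodule Module
open Pool.Agent.WW

section

variable {V W : Type} [AddCommGroup V] [Module (ZMod 2) V] [FiniteDimensional (ZMod 2) V]
  [DecidableEq V] [AddCommGroup W] [Module (ZMod 2) W] [DecidableEq W]

theorem comb_low {m : ℕ} (b : Fin m → V) {n k : ℕ}
    (h : ∀ i < m, n.testBit i = k.testBit i) : comb b n = comb b k := by
  unfold comb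
  refine Finset.sum_congr rfl fun i _ => ?_
  rw [h i i.2]

theorem low_bits : ∀ n < 64, ∀ i < 5, n.testBit i = (n % 32).testBit i := by
  decide +kernel

theorem low_add : ∀ n < 32, ∀ i < 5, (n + 32).testBit i = n.testBit i := by
  decide +kernel

theorem low5 : ∀ n < 32, n.testBit 5 = false ∧ (n + 32).testBit 5 = true := by
  decide +kernel

theorem qP_lt (c : ℕ) (h : qP.testBit c = true) : c < 32 := by
  by_contra hc
  rw [Nat.testBit_lt_two_pow (lt_of_lt_of_le (show qP < 2 ^ 32 by decide +kernel)
    (Nat.pow_le_pow_right (by norm_num) (by omega)))] at h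
  exact absurd h (by simp)

theorem qP_unit : ∀ i < 5, qP.testBit (2 ^ i) = true := by decide +kernel

theorem linC_unit (h : List ℕ) (h5 : h.length = 5) (i : ℕ) (hi : i < 5) :
    linC h (2 ^ i) = h.getD i 0 := by
  match h, h5 with
  | [a, b, c, d, e], _ =>
    interval_cases i <;> simp [linC]

/-- one row of the table -/
theorem lq_row {E : Finset V} (h0 : (0 : V) ∉ E) (hfree : ¬ HasK5 (E : Set V))
    (hK4 : K4F (E : Set V)) (π : V →ₗ[ZMod 2] W) (e : V)
    (hker : ∀ v, π v = 0 ↔ v = 0 ∨ v = e) (he : e ∈ E) (b : Fin 5 → W)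
    (hb : LinearIndependent (ZMod 2) b)
    (hQ : ∀ n < 32, qM.testBit n = true → comb b n ∈ contr π E) (a c : V)
    (ha : a ∈ E) (ha' : a + e ∈ E) (hc : c ∈ E) (hc' : c + e ∈ E) (h : List ℕ)
    (h5 : h.length = 5) (h32 : ∀ x ∈ h, x < 32) (hi : IndepC h)
    (hmap : ∀ m < 32, qP.testBit m = true → qM.testBit (linC h m) = true) (x y : ℕ)
    (hx : x < 32) (hy : y < 32) (hax : π a = comb b (linC h x)) (hcy : π c = comb b (linC h y))
    (t : T6) (ht : t.chk (st x y) = true) : False := by
  have he0 : e ≠ 0 := fun h => h0 (h ▸ he)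
  have hpe : π e = 0 := (hker e).2 (Or.inr rfl)
  have hlt : ∀ m, linC h m < 32 := fun m => r5s_linC_lt (m := 5) h (fun c hc => h32 c hc) m
  -- lifts of the unit codes
  have hlift : ∀ m < 32, qP.testBit m = true → ∃ v ∈ E, π v = comb b (linC h m) := by
    intro m hm hq
    have h1 := hQ _ (hlt m) (hmap m hm hq)
    unfold contr at h1
    rw [Finset.mem_erase, Finset.mem_image] at h1
    exact h1.2
  have hu : ∀ i : Fin 5, ∃ v ∈ E, π v = comb b (linC h (2 ^ (i : ℕ))) := by
    intro i
    exact hlift _ (by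
      have := i.2
      calc 2 ^ (i : ℕ) ≤ 2 ^ 4 := Nat.pow_le_pow_right (by norm_num) (by omega)
        _ < 32 := by norm_num) (qP_unit i i.2)
  choose v hvE hv using hu
  set B : Fin 6 → V := Fin.snoc v e with hB
  have hπv : ∀ n < 32, π (comb v n) = comb b (linC h n) := by
    intro n hn
    have h1 : π (comb v n) = comb (fun i => π (v i)) n := by
      unfold comb
      rw [map_sum]
      refine Finset.sum_congr rfl fun i _ => ?_
      split_ifs
      · rfl
      · exact map_zero π
    rw [h1, ← bp_comb_linC]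
    subst_vars
    match h, h5 with
    | [c0, c1, c2, c3, c4], _ =>
      unfold comb
      refine Finset.sum_congr rfl fun i _ => ?_
      congr 1
      show π (v i) = _
      rw [hv i, linC_unit _ rfl _ i.2]
      unfold bpFam
      congr 1
      fin_cases i <;> rfl
  have hBn : ∀ n, comb B n = comb v n + (if n.testBit 5 then e else 0) := by
    intro n
    rw [hB]
    exact comb_snoc v e n
  have hBlow : ∀ n < 32, comb B n = comb v n := by
    intro n hn
    rw [hBn, (low5 n hn).1]
    simp
  have hBhigh : ∀ n < 32, comb B (n + 32) = comb v n + e := by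
    intro n hn
    rw [hBn, (low5 n hn).2, comb_low v (low_add n hn)]
    simp
  have hπB : ∀ n < 64, π (comb B n) = comb b (linC h (n % 32)) := by
    intro n hn
    rw [hBn, map_add, comb_low v (low_bits n hn), hπv _ (Nat.mod_lt _ (by norm_num))]
    split_ifs
    · rw [hpe, add_zero]
    · rw [map_zero, add_zero]
  -- presence of a lift
  have hpres : ∀ (w : V) (n : ℕ), n < 32 → w ∈ E → π w = comb b (linC h n) →
      w = comb B n ∨ w = comb B (n + 32) := by
    intro w n hn hw hwn
    have h1 : π (w + comb v n) = 0 := by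
      rw [map_add, hwn, hπv n hn, add_self_z2]
    rcases (hker _).1 h1 with h2 | h2
    · left
      rw [hBlow n hn, ← sub_eq_zero, ZModModule.sub_eq_add]
      exact h2
    · right
      rw [hBhigh n hn, ← h2, add_comm w, ← add_assoc, add_self_z2, zero_add]
  have hboth : ∀ (w : V) (n : ℕ), n < 32 → w ∈ E → w + e ∈ E → π w = comb b (linC h n) →
      comb B n ∈ (E : Set V) ∧ comb B (n + 32) ∈ (E : Set V) := by
    intro w n hn hw hwe hwn
    have hs : comb B (n + 32) = comb B n + e := by rw [hBhigh n hn, hBlow n hn]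
    rcases hpres w n hn hw hwn with h1 | h1
    · rw [hs, ← h1]
      exact ⟨hw, hwe⟩
    · have h2 : w + e = comb B n := by
        rw [h1, hs, add_assoc, add_self_z2, add_zero]
      rw [← h2, ← h1]
      exact ⟨hwe, hw⟩
  refine T6.sound hfree hK4 B ?_ ?_ t (st x y) ht ?_
  · intro n hn hn0
    have hn' : n < 64 := by simpa using hn
    have h1 := hπB n hn'
    rw [hn0, map_zero] at h1
    have h2 : linC h (n % 32) = 0 := r5s_comb_zero_imp hb _ (hlt _) h1.symm
    have h3 : n % 32 = 0 := by
      by_contra hne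
      exact hi _ (by rw [h5]; exact Nat.mod_lt _ (by norm_num)) hne h2
    by_contra hne
    have h4 : n = 0 + 32 := by omega
    rw [h4, hBhigh 0 (by norm_num), comb_zero, zero_add] at hn0
    exact he0 hn0
  · intro m hm
    have hm32 := qP_lt m hm
    obtain ⟨w, hw, hwm⟩ := hlift m hm32 hm
    rcases hpres w m hm32 hw hwm with h1 | h1
    · exact Or.inl ⟨by norm_num; omega, by rw [← h1]; exact hw⟩
    · exact Or.inr ⟨by norm_num; omega, by rw [← h1]; exact hw⟩
  · intro n hn
    unfold st at hn
    rw [testBit_mask] at hn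
    obtain ⟨x1, x2⟩ := hboth a x hx ha ha' hax
    obtain ⟨y1, y2⟩ := hboth c y hy hc hc' hcy
    have hunit : ∀ i : Fin 5, comb B (2 ^ (i : ℕ)) ∈ (E : Set V) := by
      intro i
      have : comb B (2 ^ (i : ℕ)) = v i := by
        have h31 : 2 ^ (i : ℕ) < 32 := by
          have := i.2
          calc 2 ^ (i : ℕ) ≤ 2 ^ 4 := Nat.pow_le_pow_right (by norm_num) (by omega)
            _ < 32 := by norm_num
        rw [hBlow _ h31]
        unfold comb
        rw [Finset.sum_eq_single i]
        · rw [Nat.testBit_two_pow_self, if_pos rfl]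
        · intro j _ hj
          rw [Nat.testBit_two_pow_of_ne (fun h => hj (Fin.ext h.symm))]
          simp
        · intro h
          exact absurd (Finset.mem_univ i) h
      rw [this]
      exact hvE i
    have h32' : comb B 32 ∈ (E : Set V) := by
      have h1 : comb B (0 + 32) = e := by
        rw [hBhigh 0 (by norm_num), comb_zero, zero_add]
      have h2 : comb B 32 = e := h1
      rw [h2]
      exact he
    simp only [List.mem_cons, List.not_mem_nil, or_false] at hn
    rcases hn with rfl | rfl | rfl | rfl | rfl | rfl | rfl | rfl | rfl | rfl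
    · exact ⟨by norm_num, h32'⟩
    · exact ⟨by norm_num, hunit 0⟩
    · exact ⟨by norm_num, hunit 1⟩
    · exact ⟨by norm_num, hunit 2⟩
    · exact ⟨by norm_num, hunit 3⟩
    · exact ⟨by norm_num, hunit 4⟩
    · exact ⟨by norm_num; omega, x1⟩
    · exact ⟨by norm_num; omega, x2⟩
    · exact ⟨by norm_num; omega, y1⟩
    · exact ⟨by norm_num; omega, y2⟩

/-- a free set of rank six without `K4` has no element on exactly two full lines whose contraction
is the quadric `Q(4,2)` -/
theorem lq {E : Finset V} (h0 : (0 : V) ∉ E) (hfree : ¬ HasK5 (E : Set V))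
    (hK4 : K4F (E : Set V)) (π : V →ₗ[ZMod 2] W) (e : V)
    (hker : ∀ v, π v = 0 ↔ v = 0 ∨ v = e) (he : e ∈ E) (hd : 4 ≤ deg E e) (b : Fin 5 → W)
    (hb : LinearIndependent (ZMod 2) b)
    (hQ : ∀ n < 32, qM.testBit n = true → comb b n ∈ contr π E)
    (hQ' : ∀ w ∈ contr π E, ∃ n < 32, qM.testBit n = true ∧ w = comb b n) : False := by
  have he0 : e ≠ 0 := fun h => h0 (h ▸ he)
  set D := E.filter (fun a => a + e ∈ E) with hD
  have hDc : 4 ≤ D.card := hd
  obtain ⟨a, ha⟩ : D.Nonempty := Finset.card_pos.1 (by omega)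
  have hex : ∃ c ∈ D, c ≠ a ∧ c ≠ a + e := by
    by_contra hcon
    push Not at hcon
    have h1 : D ⊆ {a, a + e} := by
      intro c hc
      rw [Finset.mem_insert, Finset.mem_singleton]
      by_cases hca : c = a
      · exact Or.inl hca
      · exact Or.inr (hcon c hc hca)
    have h2 := Finset.card_le_card h1
    have h3 := Finset.card_le_two (a := a) (b := a + e)
    omega
  obtain ⟨c, hc, hca, hcae⟩ := hex
  obtain ⟨haE, haE'⟩ := Finset.mem_filter.1 ha
  obtain ⟨hcE, hcE'⟩ := Finset.mem_filter.1 hc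
  have hmem : ∀ w ∈ E, w + e ∈ E → π w ∈ contr π E := by
    intro w hw hwe
    unfold contr
    rw [Finset.mem_erase, Finset.mem_image]
    refine ⟨?_, w, hw, rfl⟩
    intro h
    rcases (hker w).1 h with h | h
    · exact h0 (h ▸ hw)
    · rw [h, add_self_z2] at hwe
      exact h0 hwe
  obtain ⟨p, hp, hpq, hpa⟩ := hQ' _ (hmem a haE haE')
  obtain ⟨q, hq, hqq, hqc⟩ := hQ' _ (hmem c hcE hcE')
  have hne : p ≠ q := by
    rintro rfl
    have h1 : π (a + c) = 0 := by rw [map_add, hpa, hqc, add_self_z2]
    rcases (hker _).1 h1 with h2 | h2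
    · apply hca
      rw [← sub_eq_zero, ZModModule.sub_eq_add, add_comm]
      exact h2
    · apply hcae
      rw [← h2, ← add_assoc, add_self_z2, zero_add]
  have hall := List.all_eq_true.1 (List.all_eq_true.1 rows_all p (List.mem_range.2 hp)) q
    (List.mem_range.2 hq)
  rw [Bool.or_eq_true, Bool.or_eq_true, Bool.or_eq_true, Bool.not_eq_true', Bool.not_eq_true',
    beq_iff_eq, List.any_eq_true] at hall
  rcases hall with ((h1 | h1) | h1) | ⟨r, hr, h1⟩
  · rw [hpq] at h1
    exact absurd h1 (by simp)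
  · rw [hqq] at h1
    exact absurd h1 (by simp)
  · exact hne h1
  · have hok := List.all_eq_true.1 rows_ok r hr
    obtain ⟨w, p', q', h⟩ := r
    unfold rowOk at hok
    simp only [Bool.and_eq_true, Bool.or_eq_true, beq_iff_eq, List.all_eq_true,
      decide_eq_true_eq, List.mem_range, bne_iff_ne, Bool.not_eq_true'] at hok h1
    obtain ⟨⟨⟨⟨k1, k2⟩, k3⟩, k4⟩, k5⟩ := hok
    have hI : IndepC h := by
      intro m hm hm0
      rw [k1] at hm
      exact (k3 m (by simpa using hm)).resolve_left hm0
    have hmap : ∀ m < 32, qP.testBit m = true → qM.testBit (linC h m) = true := by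
      intro m hm hq
      rcases k4 m hm with h2 | h2
      · rw [hq] at h2
        exact absurd h2 (by simp)
      · exact h2
    have fin : ∀ (a c : V), a ∈ E → a + e ∈ E → c ∈ E → c + e ∈ E → π a = comb b p' →
        π c = comb b q' → False := by
      intro a c ha ha' hc hc' hpa hqc
      rcases k5 with ⟨⟨-, k5⟩, k6⟩ | ⟨⟨-, k5⟩, k6⟩
      · exact lq_row h0 hfree hK4 π e hker he b hb hQ a c ha ha' hc hc' h k1 k2 hI hmap 21 30
          (by norm_num) (by norm_num) (by rw [k5]; exact hpa) (by rw [k6]; exact hqc) tr0 tr0_ok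
      · exact lq_row h0 hfree hK4 π e hker he b hb hQ a c ha ha' hc hc' h k1 k2 hI hmap 4 20
          (by norm_num) (by norm_num) (by rw [k5]; exact hpa) (by rw [k6]; exact hqc) tr1 tr1_ok
    rcases h1 with ⟨h1, h2⟩ | ⟨h1, h2⟩
    · exact fin a c haE haE' hcE hcE' (by rw [h1]; exact hpa) (by rw [h2]; exact hqc)
    · exact fin c a hcE hcE' haE haE' (by rw [h1]; exact hqc) (by rw [h2]; exact hpa)

end

end Pool.Agent.Work.MP_9f8812_co.EC
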