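import Pool.Agent.Work.MP_a8f287_co.Bd.B15

/-!
# Lifts of the quadric `Q(4,2)`
-/

set_option autoImplicit false

namespace Pool.Agent.Work.MP_9f8812_co.EC

open Submodule Module
open Pool.Agent.WW

/-- the quadric `Q(4,2)`: codes below 32 with three or four ones -/
def qM : ℕ := 2129193088

/-- the quadric in coordinates with the unit codes in it -/
def qP : ℕ := 3882975510

/-- trees of certificates -/
inductive T6
  /-- an `M(K5)`-minor -/
  | k5 (c1 c2 a b c d : ℕ) : T6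
  /-- six points of a plane -/
  | k4 (a b c : ℕ) : T6
  /-- the code `c` or the code `c + 32` is present -/
  | br (c : ℕ) (l r : T6) : T6

/-- the check of a tree -/
def T6.chk : T6 → ℕ → Bool
  | .k5 c1 c2 a b c d, M => checkK5 M [c1, c2] a b c d
  | .k4 a b c, M => decide (a < 64) && decide (b < 64) && decide (c < 64) &&
      ((List.range 8).all fun m => m == 0 || linC [a, b, c] m != 0) &&
      [1, 2, 3, 4, 5, 6].all fun k => M.testBit (linC [a, b, c] k)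
  | .br c l r, M => qP.testBit c && l.chk (M ||| (1 <<< c)) && r.chk (M ||| (1 <<< (c + 32)))

theorem T6.sound {V : Type} [AddCommGroup V] [Module (ZMod 2) V] [FiniteDimensional (ZMod 2) V]
    {E : Set V} (hfree : ¬ HasK5 E) (hK4 : K4F E) (B : Fin 6 → V)
    (hB : ∀ n < 2 ^ 6, comb B n = 0 → n = 0)
    (hP : ∀ c, qP.testBit c = true → (c < 2 ^ 6 ∧ comb B c ∈ E) ∨
      (c + 32 < 2 ^ 6 ∧ comb B (c + 32) ∈ E)) (t : T6) :
    ∀ M : ℕ, t.chk M = true → (∀ n, M.testBit n = true → n < 2 ^ 6 ∧ comb B n ∈ E) → False := by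
  induction t with
  | k5 c1 c2 a b c d =>
    intro M h hM
    exact hfree (hasK5_of_cert B E ⊥ bot_le (fun n hn h0 => hB n hn ((mem_bot _).1 h0)) M
      (fun n hn => ⟨(hM n hn).1, fano_pres_of_mem (hM n hn).2⟩) [c1, c2] a b c d h)
  | k4 a b c =>
    intro M h hM
    unfold T6.chk at h
    rw [Bool.and_eq_true, Bool.and_eq_true, Bool.and_eq_true, Bool.and_eq_true,
      decide_eq_true_eq, decide_eq_true_eq, decide_eq_true_eq, List.all_eq_true,
      List.all_eq_true] at h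
    obtain ⟨⟨⟨⟨h1, h2⟩, h3⟩, h4⟩, h5⟩ := h
    refine ty_k4 hK4 hB (M := M) (fun n _ hn => (hM n hn).2) [a, b, c] rfl ?_ ?_ h5
    · intro x hx
      simp only [List.mem_cons, List.not_mem_nil, or_false] at hx
      rcases hx with rfl | rfl | rfl
      · exact h1
      · exact h2
      · exact h3
    · intro m hm h0
      have := h4 m (List.mem_range.2 (by simpa using hm))
      simpa [h0] using this
  | br c l r ihl ihr =>
    intro M h hM
    unfold T6.chk at h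
    rw [Bool.and_eq_true, Bool.and_eq_true] at h
    obtain ⟨⟨h1, h2⟩, h3⟩ := h
    rcases hP c h1 with hc | hc
    · refine ihl _ h2 ?_
      intro n hn
      rw [Nat.testBit_or, Bool.or_eq_true, Nat.one_shiftLeft, Nat.testBit_two_pow,
        decide_eq_true_eq] at hn
      rcases hn with hn | rfl
      · exact hM n hn
      · exact hc
    · refine ihr _ h3 ?_
      intro n hn
      rw [Nat.testBit_or, Bool.or_eq_true, Nat.one_shiftLeft, Nat.testBit_two_pow,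
        decide_eq_true_eq] at hn
      rcases hn with hn | rfl
      · exact hM n hn
      · exact hc

/-- the tree for two doubled points which are not collinear (codes 21, 30) -/
def tr0 : T6 := .br 25 (.br 20 (.br 26 (.k5 8 53 1 2 16 20) (.k5 2 25 1 4 20 58))
  (.k5 2 16 1 4 8 52)) (.br 15 (.k5 1 8 2 4 21 53) (.k5 16 57 1 4 47 8))

/-- the tree for two doubled points which are collinear (codes 4, 20) -/
def tr1 : T6 := .k4 4 16 36

/-- the starting mask -/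
def st (x y : ℕ) : ℕ := mask [32, 1, 2, 4, 8, 16, x, x + 32, y, y + 32]

theorem tr0_ok : tr0.chk (st 21 30) = true := by decide +kernel

theorem tr1_ok : tr1.chk (st 4 20) = true := by decide +kernel

/-- automorphisms of the quadric which move the standard pairs to all pairs: the type of the pair,
the pair, and the images of the unit codes -/
def rowsL : List (ℕ × ℕ × ℕ × List ℕ) := [
  (0, 7, 11, [28, 13, 21, 29, 14]),
  (0, 7, 13, [26, 11, 19, 27, 14]),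
  (0, 7, 14, [25, 11, 19, 27, 13]),
  (0, 7, 15, [25, 11, 19, 26, 13]),
  (0, 7, 19, [28, 21, 13, 29, 22]),
  (0, 7, 21, [26, 19, 11, 27, 22]),
  (0, 7, 22, [25, 19, 11, 27, 21]),
  (0, 7, 23, [25, 19, 11, 26, 21]),
  (1, 7, 25, [14, 15, 7, 11, 30]),
  (1, 7, 26, [13, 15, 7, 11, 29]),
  (1, 7, 27, [13, 14, 7, 11, 28]),
  (1, 7, 28, [11, 15, 7, 13, 27]),
  (1, 7, 29, [11, 14, 7, 13, 26]),
  (1, 7, 30, [11, 13, 7, 14, 25]),
  (0, 11, 13, [22, 7, 19, 23, 14]),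
  (0, 11, 14, [21, 7, 19, 23, 13]),
  (0, 11, 15, [21, 7, 19, 22, 13]),
  (0, 11, 19, [28, 25, 13, 29, 26]),
  (1, 11, 21, [14, 15, 11, 7, 30]),
  (1, 11, 22, [13, 15, 11, 7, 29]),
  (1, 11, 23, [13, 14, 11, 7, 28]),
  (0, 11, 25, [22, 19, 7, 23, 26]),
  (0, 11, 26, [21, 19, 7, 23, 25]),
  (0, 11, 27, [21, 19, 7, 22, 25]),
  (1, 11, 28, [7, 15, 11, 13, 23]),
  (1, 11, 29, [7, 14, 11, 13, 22]),
  (1, 11, 30, [7, 13, 11, 14, 21]),
  (0, 13, 14, [19, 7, 21, 23, 11]),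
  (0, 13, 15, [19, 7, 21, 22, 11]),
  (1, 13, 19, [14, 15, 13, 7, 30]),
  (0, 13, 21, [26, 25, 11, 27, 28]),
  (1, 13, 22, [11, 15, 13, 7, 27]),
  (1, 13, 23, [11, 14, 13, 7, 26]),
  (0, 13, 25, [22, 21, 7, 23, 28]),
  (1, 13, 26, [7, 15, 13, 11, 23]),
  (1, 13, 27, [7, 14, 13, 11, 22]),
  (0, 13, 28, [19, 21, 7, 23, 25]),
  (0, 13, 29, [19, 21, 7, 22, 25]),
  (1, 13, 30, [7, 11, 13, 14, 19]),
  (0, 14, 15, [19, 7, 22, 21, 11]),
  (1, 14, 19, [13, 15, 14, 7, 29]),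
  (1, 14, 21, [11, 15, 14, 7, 27]),
  (0, 14, 22, [25, 26, 11, 27, 28]),
  (1, 14, 23, [11, 13, 14, 7, 25]),
  (1, 14, 25, [7, 15, 14, 11, 23]),
  (0, 14, 26, [21, 22, 7, 23, 28]),
  (1, 14, 27, [7, 13, 14, 11, 21]),
  (0, 14, 28, [19, 22, 7, 23, 26]),
  (1, 14, 29, [7, 11, 14, 13, 19]),
  (0, 14, 30, [19, 22, 7, 21, 26]),
  (1, 15, 19, [13, 14, 15, 7, 28]),
  (1, 15, 21, [11, 14, 15, 7, 26]),
  (1, 15, 22, [11, 13, 15, 7, 25]),
  (0, 15, 23, [25, 27, 11, 26, 29]),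
  (1, 15, 25, [7, 14, 15, 11, 22]),
  (1, 15, 26, [7, 13, 15, 11, 21]),
  (0, 15, 27, [21, 23, 7, 22, 29]),
  (1, 15, 28, [7, 11, 15, 13, 19]),
  (0, 15, 29, [19, 23, 7, 22, 27]),
  (0, 15, 30, [19, 23, 7, 21, 27]),
  (0, 19, 21, [14, 7, 11, 15, 22]),
  (0, 19, 22, [13, 7, 11, 15, 21]),
  (0, 19, 23, [13, 7, 11, 14, 21]),
  (0, 19, 25, [14, 11, 7, 15, 26]),
  (0, 19, 26, [13, 11, 7, 15, 25]),
  (0, 19, 27, [13, 11, 7, 14, 25]),
  (1, 19, 28, [7, 23, 19, 21, 15]),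
  (1, 19, 29, [7, 22, 19, 21, 14]),
  (1, 19, 30, [7, 21, 19, 22, 13]),
  (0, 21, 22, [11, 7, 13, 15, 19]),
  (0, 21, 23, [11, 7, 13, 14, 19]),
  (0, 21, 25, [14, 13, 7, 15, 28]),
  (1, 21, 26, [7, 23, 21, 19, 15]),
  (1, 21, 27, [7, 22, 21, 19, 14]),
  (0, 21, 28, [11, 13, 7, 15, 25]),
  (0, 21, 29, [11, 13, 7, 14, 25]),
  (1, 21, 30, [7, 19, 21, 22, 11]),
  (0, 22, 23, [11, 7, 14, 13, 19]),
  (1, 22, 25, [7, 23, 22, 19, 15]),
  (0, 22, 26, [13, 14, 7, 15, 28]),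
  (1, 22, 27, [7, 21, 22, 19, 13]),
  (0, 22, 28, [11, 14, 7, 15, 26]),
  (1, 22, 29, [7, 19, 22, 21, 11]),
  (0, 22, 30, [11, 14, 7, 13, 26]),
  (1, 23, 25, [7, 22, 23, 19, 14]),
  (1, 23, 26, [7, 21, 23, 19, 13]),
  (0, 23, 27, [13, 15, 7, 14, 29]),
  (1, 23, 28, [7, 19, 23, 21, 11]),
  (0, 23, 29, [11, 15, 7, 14, 27]),
  (0, 23, 30, [11, 15, 7, 13, 27]),
  (0, 25, 26, [7, 11, 13, 15, 19]),
  (0, 25, 27, [7, 11, 13, 14, 19]),
  (0, 25, 28, [7, 13, 11, 15, 21]),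
  (0, 25, 29, [7, 13, 11, 14, 21]),
  (1, 25, 30, [11, 19, 25, 26, 7]),
  (0, 26, 27, [7, 11, 14, 13, 19]),
  (0, 26, 28, [7, 14, 11, 15, 22]),
  (1, 26, 29, [11, 19, 26, 25, 7]),
  (0, 26, 30, [7, 14, 11, 13, 22]),
  (1, 27, 28, [11, 19, 27, 25, 7]),
  (0, 27, 29, [7, 15, 11, 14, 23]),
  (0, 27, 30, [7, 15, 11, 13, 23]),
  (0, 28, 29, [7, 13, 14, 11, 21]),
  (0, 28, 30, [7, 14, 13, 11, 22]),
  (0, 29, 30, [7, 15, 13, 11, 23])]

/-- the check of a row -/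
def rowOk (r : ℕ × ℕ × ℕ × List ℕ) : Bool :=
  r.2.2.2.length == 5 && (r.2.2.2.all fun c => decide (c < 32)) &&
  ((List.range 32).all fun m => m == 0 || linC r.2.2.2 m != 0) &&
  ((List.range 32).all fun m => !qP.testBit m || qM.testBit (linC r.2.2.2 m)) &&
  ((r.1 == 0 && linC r.2.2.2 21 == r.2.1 && linC r.2.2.2 30 == r.2.2.1) ||
   (r.1 == 1 && linC r.2.2.2 4 == r.2.1 && linC r.2.2.2 20 == r.2.2.1))

theorem rows_ok : rowsL.all rowOk = true := by decide +kernel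

theorem rows_all : ((List.range 32).all fun p => (List.range 32).all fun q => !qM.testBit p ||
    !qM.testBit q || p == q || (rowsL.any fun r => (r.2.1 == p && r.2.2.1 == q) ||
      (r.2.1 == q && r.2.2.1 == p))) = true := by decide +kernel

end Pool.Agent.Work.MP_9f8812_co.EC
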