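import Pool.Agent.Work.MP_9f8812_co.EC.TyE
import Pool.Agent.Work.MP_a8f287_co.Bd.B15

/-!
# The types of a cocircuit of rank four, finer form
-/

set_option autoImplicit false

namespace Pool.Agent.Work.MP_9f8812_co.EC

open Submodule Module
open Pool.Agent.WW

section Defs

variable {W : Type} [AddCommGroup W] [Module (ZMod 2) W] [DecidableEq W]

/-- no pairwise compatible choice of traces for the elements on at most one full line -/
def NoAss1 (F A : Finset W) (Γ : Submodule (ZMod 2) W) : Prop :=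
  ∀ l l' : W → Submodule (ZMod 2) W, (∀ a ∈ A, tA F A a ≤ 1 → IsTr F A Γ a (l a) (l' a)) →
    (∀ a ∈ A, ∀ b ∈ A, a ≠ b → tA F A a ≤ 1 → tA F A b ≤ 1 →
      Compat A (l a) (l' a) (l b) (l' b)) → False

/-- the exceptional type -/
def Exc (F A : Finset W) (Γ : Submodule (ZMod 2) W) : Prop :=
  A.card = 4 ∧ ∀ a ∈ A, tA F A a = 2 ∧ 5 ≤ (res (NA F A a) Γ).card

end Defs

section Cfg

variable {W : Type} [AddCommGroup W] [Module (ZMod 2) W] {F A : Finset W}
  {Γ : Submodule (ZMod 2) W} {g : Fin 3 → W} {a0 : W} {AM XM : ℕ}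

theorem low1_mem [DecidableEq W] (h : TyCfg F A Γ g a0 AM XM) {a : ℕ} (ha : a ∈ low1 AM XM) :
    a < 8 ∧ a0 + comb g a ∈ A ∧ tA F A (a0 + comb g a) ≤ 1 := by
  unfold low1 at ha
  rw [List.mem_filter, List.mem_range, Bool.and_eq_true, decide_eq_true_eq] at ha
  obtain ⟨h1, h2, h3⟩ := ha
  exact ⟨h1, (h.hA a h1).1 h2, by rw [← ty_tM h h1]; exact h3⟩

theorem els1_mem {a : ℕ} (ha : a ∈ els1 AM XM) : a ∈ low1 AM XM := by
  unfold els1 at ha
  rw [List.mem_append, List.mem_append, List.mem_filter, List.mem_filter, List.mem_filter] at ha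
  rcases ha with (ha | ha) | ha <;> exact ha.1

theorem els1_nodup : (els1 AM XM).Nodup := by
  have hl : (low1 AM XM).Nodup := List.Nodup.filter _ List.nodup_range
  unfold els1
  refine List.Nodup.append (List.Nodup.append (hl.filter _) (hl.filter _) ?_) (hl.filter _) ?_
  · intro x h1 h2
    rw [List.mem_filter, decide_eq_true_eq] at h1
    rw [List.mem_filter, beq_iff_eq] at h2
    omega
  · intro x h1 h2
    rw [List.mem_append, List.mem_filter, List.mem_filter, decide_eq_true_eq, beq_iff_eq] at h1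
    rw [List.mem_filter, decide_eq_true_eq] at h2
    omega

theorem noass1 [DecidableEq W] [FiniteDimensional (ZMod 2) W] (h : TyCfg F A Γ g a0 AM XM)
    (ho : asgM AM XM (els1 AM XM) [] = true) : NoAss1 F A Γ := by
  intro l l' htr hcp
  refine ty_asg h l l' (els1 AM XM) [] ?_ ?_ ?_ ho
  · intro a ha
    obtain ⟨h1, h2, h3⟩ := low1_mem h (els1_mem ha)
    exact ⟨h1, htr _ h2 h3⟩
  · intro a _ b hb
    exact absurd hb List.not_mem_nil
  · refine List.Pairwise.imp_of_mem ?_ (els1_nodup (AM := AM) (XM := XM))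
    intro b a hb ha hne
    obtain ⟨h1, h2, h3⟩ := low1_mem h (els1_mem ha)
    obtain ⟨h1', h2', h3'⟩ := low1_mem h (els1_mem hb)
    refine hcp _ h2 _ h2' ?_ h3 h3'
    intro he
    exact hne (h.inj b h1' a h1 (add_left_cancel he).symm)

theorem exc [DecidableEq W] [FiniteDimensional (ZMod 2) W] (h : TyCfg F A Γ g a0 AM XM)
    (ho : excM AM XM = true) : Exc F A Γ := by
  unfold excM at ho
  rw [Bool.and_eq_true, beq_iff_eq, List.all_eq_true] at ho
  obtain ⟨h4, h5⟩ := ho
  refine ⟨by rw [← ty_cardA' h]; exact h4, ?_⟩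
  intro a ha
  obtain ⟨n, hn, rfl⟩ := h.surj a ha
  have h6 := h5 n (List.mem_range.2 hn)
  rw [Bool.or_eq_true, Bool.not_eq_true', Bool.and_eq_true, beq_iff_eq, decide_eq_true_eq] at h6
  rcases h6 with h6 | ⟨h6, h7⟩
  · rw [(h.hA n hn).2 ha] at h6
    exact absurd h6 (by simp)
  · exact ⟨by rw [← ty_tM h hn]; exact h6, h7.trans (ty_pop_nM h hn)⟩

end Cfg

/-- the types of a cocircuit of rank four -/
theorem types1 (V : Type) [AddCommGroup V] [Module (ZMod 2) V]
    [FiniteDimensional (ZMod 2) V] [DecidableEq V] (E : Finset V) (H : Submodule (ZMod 2) V)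
    (F A : Finset ↥H) (Γ : Submodule (ZMod 2) ↥H) (x0 : V) (hK5 : ¬ HasK5 (E : Set V))
    (hK4 : K4F (E : Set V)) (hQ : Quad F A Γ) (hx0 : x0 ∉ H) (hF : ∀ h : ↥H, h ∈ F ↔ (h : V) ∈ E)
    (hA : ∀ h : ↥H, h ∈ A ↔ x0 + (h : V) ∈ E) : One F A Γ ∨ NoAss1 F A Γ ∨ Exc F A Γ := by
  obtain ⟨g, a0, AM, XM, h, hAM, k, hk, hXM⟩ := ty_exists hQ
  have hchk := chk1_all AM hAM k hk
  rw [← hXM] at hchk
  -- codes in `V`
  have hcoe : ∀ n, comb (fun i : Fin 3 => (g i : V)) n = ((comb g n : ↥H) : V) := by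
    intro n
    unfold comb
    rw [← Submodule.subtype_apply, map_sum]
    refine Finset.sum_congr rfl fun i _ => ?_
    split_ifs <;> simp
  have hcomb : ∀ n, comb (Fin.snoc (fun i : Fin 3 => (g i : V)) (x0 + (a0 : V)) : Fin 4 → V) n =
      ((comb g n : ↥H) : V) + (if n.testBit 3 then x0 + (a0 : V) else 0) := by
    intro n
    rw [comb_snoc, hcoe]
  have hhi : ∀ m < 8, comb g (8 + m) = comb g m ∧ (8 + m).testBit 3 = true ∧
      m.testBit 3 = false := by
    intro m hm
    have hb : ∀ i < 3, (8 + m).testBit i = m.testBit i := by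
      intro i hi
      interval_cases m <;> interval_cases i <;> decide
    refine ⟨?_, ?_, ?_⟩
    · unfold comb
      refine Finset.sum_congr rfl fun i _ => ?_
      rw [hb i i.2]
    · interval_cases m <;> decide
    · interval_cases m <;> decide
  have hM : ∀ n, (XM + 256 * AM).testBit n = true → n < 2 ^ 4 ∧
      comb (Fin.snoc (fun i : Fin 3 => (g i : V)) (x0 + (a0 : V)) : Fin 4 → V) n ∈
        (E : Set V) := by
    intro n hn
    rcases ty_bits h.ltX h.ltA hn with ⟨hn8, hn'⟩ | ⟨m, hm, rfl, hn'⟩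
    · refine ⟨by norm_num; omega, ?_⟩
      rw [hcomb, (hhi n hn8).2.2]
      have h1 := (hF _).1 ((h.hX n hn8).1 hn')
      simpa using h1
    · refine ⟨by norm_num; omega, ?_⟩
      rw [hcomb, (hhi m hm).2.1, (hhi m hm).1]
      have h1 := (hA _).1 ((h.hA m hm).1 hn')
      have h2 : ((comb g m : ↥H) : V) + (if true = true then x0 + (a0 : V) else 0) =
          x0 + ((a0 + comb g m : ↥H) : V) := by
        rw [if_pos rfl, Submodule.coe_add]
        abel
      rw [h2]
      exact h1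
  have hinj : ∀ n < 2 ^ 4, comb (Fin.snoc (fun i : Fin 3 => (g i : V)) (x0 + (a0 : V)) :
      Fin 4 → V) n = 0 → n = 0 := by
    intro n hn h0
    rw [hcomb] at h0
    by_cases hn8 : n < 8
    · rw [(hhi n hn8).2.2] at h0
      have h1 : comb g n = 0 := by
        apply Subtype.ext
        simpa using h0
      exact h.inj n hn8 0 (by norm_num) (by rw [h1, comb_zero])
    · exfalso
      obtain ⟨m, hm, rfl⟩ : ∃ m < 8, n = 8 + m := ⟨n - 8, by norm_num at hn; omega, by omega⟩
      rw [(hhi m hm).2.1, if_pos rfl, (hhi m hm).1] at h0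
      apply hx0
      have h1 : x0 = ((comb g m : ↥H) : V) + (a0 : V) := by
        have h2 : x0 = ((comb g m : ↥H) : V) + (x0 + (a0 : V)) + (((comb g m : ↥H) : V) +
            (a0 : V)) := by
          have h3 : ((comb g m : ↥H) : V) + (x0 + (a0 : V)) + (((comb g m : ↥H) : V) +
            (a0 : V)) = x0 + ((((comb g m : ↥H) : V) + ((comb g m : ↥H) : V)) +
              ((a0 : V) + (a0 : V))) := by abel
          rw [h3, add_self_z2, add_self_z2, add_zero, add_zero]
        rw [h0, zero_add] at h2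
        exact h2
      rw [h1]
      exact add_mem (comb g m).2 a0.2
  unfold chk1 at hchk
  rw [Bool.or_eq_true, Bool.or_eq_true, Bool.or_eq_true, Bool.or_eq_true] at hchk
  rcases hchk with (((hchk | hchk) | hchk) | hchk) | hchk
  · exfalso
    apply hK5
    rw [List.any_eq_true] at hchk
    obtain ⟨⟨M, s0, s1, s2, s3⟩, hf, hM1⟩ := hchk
    have h1 := List.all_eq_true.1 tyK5_ok _ hf
    rw [Bool.and_eq_true] at h1
    refine hasK5_of_cert (Fin.snoc (fun i : Fin 3 => (g i : V)) (x0 + (a0 : V)) : Fin 4 → V) _ ⊥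
      bot_le ?_ M ?_ [] s0 s1 s2 s3 h1.1
    · intro n hn h0
      exact hinj n hn ((mem_bot _).1 h0)
    · intro n hn
      rw [beq_iff_eq] at hM1
      simp only at hM1
      rw [← hM1, Nat.testBit_and, Bool.and_eq_true] at hn
      obtain ⟨h2, h3⟩ := hM n hn.1
      exact ⟨h2, fano_pres_of_mem h3⟩
  · exfalso
    rw [List.any_eq_true] at hchk
    obtain ⟨⟨M, l⟩, hf, hM1⟩ := hchk
    have h1 := List.all_eq_true.1 tyK4_ok _ hf
    rw [Bool.and_eq_true, Bool.and_eq_true, Bool.and_eq_true, beq_iff_eq] at h1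
    obtain ⟨⟨⟨h2, h3⟩, h4⟩, h5⟩ := h1
    rw [beq_iff_eq] at hM1
    simp only at hM1 h2 h3 h4 h5
    refine ty_k4 hK4 hinj (M := M) ?_ l h2 ?_ ?_ ?_
    · intro n _ hn
      rw [← hM1, Nat.testBit_and, Bool.and_eq_true] at hn
      exact (hM n hn.1).2
    · intro c hc
      have := List.all_eq_true.1 h3 c hc
      simpa using this
    · intro n hn h0
      rw [h2] at hn
      have := List.all_eq_true.1 h4 n (List.mem_range.2 (by simpa using hn))
      simpa [h0] using this
    · intro n hn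
      exact List.all_eq_true.1 h5 n hn
  · exact Or.inl (ty_one h hchk)
  · exact Or.inr (Or.inl (noass1 h hchk))
  · exact Or.inr (Or.inr (exc h hchk))

end Pool.Agent.Work.MP_9f8812_co.EC
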