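import Pool.Agent.Work.MP_a8f287_co.Bd.B01

/-!
# Even cycle matroids: the finer table of the cocircuits of rank four
-/

set_option autoImplicit false

namespace Pool.Agent.Work.MP_9f8812_co.EC

open Pool.Agent.WW

/-- elements on at most one full line -/
def low1 (A X : ℕ) : List ℕ := (List.range 8).filter fun a => A.testBit a && decide (tM A X a ≤ 1)

/-- elements on at most one full line, those with many points in `Γ` first -/
def els1 (A X : ℕ) : List ℕ :=
  ((low1 A X).filter fun a => decide (5 ≤ pop8 (nM A X a))) ++
  ((low1 A X).filter fun a => pop8 (nM A X a) == 4) ++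
  ((low1 A X).filter fun a => decide (pop8 (nM A X a) ≤ 3))

/-- the exceptional type -/
def excM (A X : ℕ) : Bool := pop8 A == 4 && (List.range 8).all fun a => !A.testBit a ||
  (tM A X a == 2 && decide (5 ≤ pop8 (nM A X a)))

/-- the check of one configuration -/
def chk1 (A X : ℕ) : Bool :=
  (tyK5.any fun f => (X + 256 * A) &&& f.1 == f.1) ||
  (tyK4.any fun f => (X + 256 * A) &&& f.1 == f.1) ||
  oneM A X || asgM A X (els1 A X) [] || excM A X

theorem e23 : ((List.range 128).all fun k => chk1 23 (2 * k)) = true := by decide +kernel

theorem e31 : ((List.range 128).all fun k => chk1 31 (2 * k)) = true := by decide +kernel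

end Pool.Agent.Work.MP_9f8812_co.EC
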