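import Pool.Agent.Work.MP_9f8812_co.EC.TyA

/-! Kernel checks, compiled separately. -/

set_option autoImplicit false

namespace Pool.Agent.Work.MP_9f8812_co.EC

open Pool.Agent.WW

theorem e55 : ((List.range 128).all fun k => chk1 55 (2 * k)) = true := by decide +kernel

theorem e63 : ((List.range 128).all fun k => chk1 63 (2 * k)) = true := by decide +kernel

theorem e87 : ((List.range 128).all fun k => chk1 87 (2 * k)) = true := by decide +kernel

theorem e95 : ((List.range 128).all fun k => chk1 95 (2 * k)) = true := by decide +kernel

theorem e119 : ((List.range 128).all fun k => chk1 119 (2 * k)) = true := by decide +kernel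

theorem e127 : ((List.range 128).all fun k => chk1 127 (2 * k)) = true := by decide +kernel

end Pool.Agent.Work.MP_9f8812_co.EC
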