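import Pool.Agent.Work.MP_9f8812_co.EC.TyA

/-! Kernel checks, compiled separately. -/

set_option autoImplicit false

namespace Pool.Agent.Work.MP_9f8812_co.EC

open Pool.Agent.WW

theorem e151 : ((List.range 128).all fun k => chk1 151 (2 * k)) = true := by decide +kernel

theorem e159 : ((List.range 128).all fun k => chk1 159 (2 * k)) = true := by decide +kernel

theorem e183 : ((List.range 128).all fun k => chk1 183 (2 * k)) = true := by decide +kernel

theorem e191 : ((List.range 128).all fun k => chk1 191 (2 * k)) = true := by decide +kernel

end Pool.Agent.Work.MP_9f8812_co.EC
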