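import Pool.Agent.Work.MP_9f8812_co.EC.TyA

/-! Kernel checks, compiled separately. -/

set_option autoImplicit false

namespace Pool.Agent.Work.MP_9f8812_co.EC

open Pool.Agent.WW

theorem e215 : ((List.range 128).all fun k => chk1 215 (2 * k)) = true := by decide +kernel

theorem e223 : ((List.range 128).all fun k => chk1 223 (2 * k)) = true := by decide +kernel

theorem e247 : ((List.range 128).all fun k => chk1 247 (2 * k)) = true := by decide +kernel

theorem e255 : ((List.range 128).all fun k => chk1 255 (2 * k)) = true := by decide +kernel

end Pool.Agent.Work.MP_9f8812_co.EC
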