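import Pool.Agent.Work.MP_9f8812_co.EC.TyB
import Pool.Agent.Work.MP_9f8812_co.EC.TyC
import Pool.Agent.Work.MP_9f8812_co.EC.TyD

/-! Kernel checks: the table. -/

set_option autoImplicit false

namespace Pool.Agent.Work.MP_9f8812_co.EC

open Pool.Agent.WW

theorem chk1_all : ∀ A ∈ tyAs, ∀ k < 128, chk1 A (2 * k) = true := by
  intro A hA k hk
  have h0 : tyAs = [23, 31, 55, 63, 87, 95, 119, 127, 151, 159, 183, 191, 215, 223, 247, 255] := by
    decide +kernel
  rw [h0] at hA
  have hk' := List.mem_range.2 hk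
  simp only [List.mem_cons, List.not_mem_nil, or_false] at hA
  rcases hA with rfl | rfl | rfl | rfl | rfl | rfl | rfl | rfl | rfl | rfl | rfl | rfl | rfl | rfl | rfl | rfl
  · exact List.all_eq_true.1 e23 k hk'
  · exact List.all_eq_true.1 e31 k hk'
  · exact List.all_eq_true.1 e55 k hk'
  · exact List.all_eq_true.1 e63 k hk'
  · exact List.all_eq_true.1 e87 k hk'
  · exact List.all_eq_true.1 e95 k hk'
  · exact List.all_eq_true.1 e119 k hk'
  · exact List.all_eq_true.1 e127 k hk'
  · exact List.all_eq_true.1 e151 k hk'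
  · exact List.all_eq_true.1 e159 k hk'
  · exact List.all_eq_true.1 e183 k hk'
  · exact List.all_eq_true.1 e191 k hk'
  · exact List.all_eq_true.1 e215 k hk'
  · exact List.all_eq_true.1 e223 k hk'
  · exact List.all_eq_true.1 e247 k hk'
  · exact List.all_eq_true.1 e255 k hk'

end Pool.Agent.Work.MP_9f8812_co.EC
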